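import Pool.Agent.II95.Struct

/-!
# A realization from a colouring
-/

namespace Pool.Agent.II95

open Finset

set_option linter.unusedSectionVars false

/-! ### Different points and lines in the selector -/

theorem cub_ne {y : ℝ} (hy : cub y = 0) : y ≠ 0 ∧ y ≠ 1 ∧ y ≠ 2 ∧ y ≠ -1 ∧ y ^ 2 - y - 1 ≠ 0 := by
  refine ⟨?_, ?_, ?_, ?_, ?_⟩
  · rintro rfl; norm_num [cub] at hy
  · rintro rfl; norm_num [cub] at hy
  · rintro rfl; norm_num [cub] at hy
  · rintro rfl; norm_num [cub] at hy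
  · intro h
    unfold cub at hy
    have h1 : y = 0 := by linear_combination (y - 1) * h - hy
    subst h1
    norm_num at hy

theorem pc_ne {y : ℝ} (hy : cub y = 0) (m m' : Fin 9) (h : m ≠ m') : sq (pc y m) (pc y m') ≠ 0 := by
  obtain ⟨y0, y1, y2, -, -⟩ := cub_ne hy
  have key : ∀ m m' : Fin 9, m < m' → sq (pc y m) (pc y m') ≠ 0 := by
    intro m m' hlt
    rw [Ne, sq_eq_zero_iff]
    rintro ⟨h1, h2, h3⟩
    fin_cases m <;> fin_cases m' <;>
      first
        | exact absurd hlt (by decide)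
        | (simp only [pc, Matrix.cons_val, Matrix.cons_val_zero, Matrix.cons_val_one, Fin.zero_eta, Fin.mk_one,
            Fin.reduceFinMk] at h1 h2 h3
           first
            | (exfalso; linarith)
            | exact y0 (by linarith)
            | exact y1 (by linarith)
            | exact y2 (by linarith))
  rcases lt_or_gt_of_ne h with h1 | h1
  · exact key _ _ h1
  · rw [sq_symm]
    exact key _ _ h1

theorem lc_ne {y : ℝ} (hy : cub y = 0) (m m' : Fin 7) (h : m ≠ m') : sq (lc y m) (lc y m') ≠ 0 := by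
  obtain ⟨y0, y1, -, y3, y4⟩ := cub_ne hy
  have key : ∀ m m' : Fin 7, m < m' → sq (lc y m) (lc y m') ≠ 0 := by
    intro m m' hlt
    rw [Ne, sq_eq_zero_iff]
    rintro ⟨h1, h2, h3⟩
    fin_cases m <;> fin_cases m' <;>
      first
        | exact absurd hlt (by decide)
        | (simp only [lc, Matrix.cons_val, Matrix.cons_val_zero, Matrix.cons_val_one, Fin.zero_eta, Fin.mk_one,
            Fin.reduceFinMk] at h1 h2 h3
           first
            | (exfalso; linarith)
            | exact y0 (by linarith)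
            | exact y1 (by linarith)
            | exact y3 (by linarith)
            | exact y4 (by linarith))
  rcases lt_or_gt_of_ne h with h1 | h1
  · exact key _ _ h1
  · rw [sq_symm]
    exact key _ _ h1

theorem lc_zero {y : ℝ} (hy : cub y = 0) (m : Fin 7) : lc y m 0 ≠ 0 := by
  obtain ⟨y0, y1, -⟩ := cub_ne hy
  fin_cases m <;> simp [lc, y0, sub_ne_zero.2 y1.symm]

theorem pc_nz {y : ℝ} (hy : cub y = 0) (m : Fin 9) : pc y m ≠ 0 := by
  have h : ∃ m', m ≠ m' := by
    by_cases h : m = 0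
    · exact ⟨1, by rw [h]; decide⟩
    · exact ⟨0, h⟩
  obtain ⟨m', h⟩ := h
  intro h0
  apply pc_ne hy m m' h
  rw [h0]
  simp [sq]

theorem gp_ne {y : ℝ} (hy : cub y = 0) (c : Fin 2) (m : Fin 9) : sq (gpc c) (pc y m) ≠ 0 := by
  obtain ⟨y0, y1, y2, -, -⟩ := cub_ne hy
  rw [Ne, sq_eq_zero_iff]
  rintro ⟨h1, h2, h3⟩
  fin_cases c <;> fin_cases m <;>
    (simp only [pc, gpc, Matrix.cons_val, Matrix.cons_val_zero, Matrix.cons_val_one, Fin.zero_eta, Fin.mk_one,
        Fin.reduceFinMk] at h1 h2 h3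
     first
      | (exfalso; linarith)
      | exact y0 (by linarith)
      | exact y1 (by linarith))

/-! ### The realization -/

/-- Points of a selector with parameters. -/
def ptL (τ δ : ℝ) (q : Ve) : Ve := ![δ * q 0 + τ * q 2, q 1, q 2]
/-- Lines of a selector with parameters. -/
def lnL (τ δ : ℝ) (q : Ve) : Ve := ![q 0, δ * q 1, δ * q 2 - τ * q 0]

/-- Parameters. -/
abbrev Par (V Ed : Type) := V ⊕ (V ⊕ Ed)

variable {V Ed : Type} (s t : Ed → V) (y : V → ℝ)

/-- The first line of an edge. -/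
def kk (θ : Par V Ed → ℝ) (e : Ed) : Ve := ![y (s e) - y (t e), θ (.inl (t e)) - θ (.inl (s e)),
  θ (.inl (s e)) * y (t e) - θ (.inl (t e)) * y (s e)]

/-- Coordinates of the points. -/
def ptH (θ : Par V Ed → ℝ) : PP V Ed → Ve
  | .inl c => gpc c
  | .inr (.inl (v, m)) => ptL (θ (.inl v)) (θ (.inr (.inl v))) (pc (y v) m)
  | .inr (.inr e) => ![-θ (.inr (.inr e)) * kk s t y θ e 1 - kk s t y θ e 2,
      θ (.inr (.inr e)) * kk s t y θ e 0, kk s t y θ e 0]

/-- Coordinates of the lines. -/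
def lnH (θ : Par V Ed → ℝ) : FF V Ed → Ve
  | .inl c => glc c
  | .inr (.inl (v, m)) => lnL (θ (.inl v)) (θ (.inr (.inl v))) (lc (y v) m)
  | .inr (.inr (e, j)) => ![kk s t y θ e, ![0, 1, -θ (.inr (.inr e))]] j

variable {s t y}

theorem vp_inl : ∀ k c, vp k = .inl c → c = 0 := by decide

theorem incH (hy : ∀ v, cub (y v) = 0) (θ : Par V Ed → ℝ) (k : KK V Ed) :
    dt (ptH s t y θ (kp s t k)) (lnH s t y θ (kf k)) = 0 := by
  rcases k with k | ⟨v, k⟩ | ⟨e, k⟩
  · fin_cases k <;> simp [kp, kf, ptH, lnH, gpc, glc, dt]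
  · have h := local_inc (y v) (hy v) k
    simp only [kp, kf]
    rcases hp : vp k with c | m <;> rcases hl : vl k with c' | m' <;> rw [hp, hl] at h <;>
      simp only [Sum.elim_inl, Sum.elim_inr, ptH, lnH] at h ⊢
    · exact h
    · obtain rfl := vp_inl k c hp
      simp only [dt, gpc, lnL, Matrix.cons_val, Matrix.cons_val_zero, Matrix.cons_val_one] at h ⊢
      linear_combination θ (.inr (.inl v)) * h
    · have h0 : glc c' 0 = 0 := by fin_cases c' <;> rfl
      simp only [dt, ptL, Matrix.cons_val, Matrix.cons_val_zero, Matrix.cons_val_one, h0] at h ⊢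
      linear_combination h
    · simp only [dt, ptL, lnL, Matrix.cons_val, Matrix.cons_val_zero, Matrix.cons_val_one] at h ⊢
      linear_combination θ (.inr (.inl v)) * h
  · fin_cases k <;> simp [kp, kf, ptH, lnH, gpc, dt, kk, ptL, pc] <;> ring

/-! ### Generic parameters -/

/-- The basic parameters. -/
def θ₀ : Par V Ed → ℝ
  | .inl _ => 0
  | .inr (.inl _) => 1
  | .inr (.inr _) => 0

theorem ptL_zero (q : Ve) : ptL 0 1 q = q := by
  funext c
  fin_cases c <;> simp [ptL]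

theorem lnL_zero (q : Ve) : lnL 0 1 q = q := by
  funext c
  fin_cases c <;> simp [lnL]

variable [DecidableEq V] [DecidableEq Ed]

/-- One point moves, the other does not. -/
theorem move {ι : Type} {E : (Par V Ed → ℝ) → ι → Ve} {i i' : ι} (θ θ' : Par V Ed → ℝ)
    (h1 : sq (E θ i) (E θ' i) ≠ 0) (h2 : E θ i' = E θ' i') (h3 : E θ i' ≠ 0) :
    ∃ θ, sq (E θ i) (E θ i') ≠ 0 := by
  rcases moving h3 h1 with h | h
  · exact ⟨θ, h⟩
  · refine ⟨θ', ?_⟩
    rw [← h2]
    exact h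

theorem gpc_ne : ∀ c c' : Fin 2, c ≠ c' → sq (gpc c) (gpc c') ≠ 0 := by
  intro c c' h
  fin_cases c <;> fin_cases c' <;> simp [gpc, sq] at h ⊢

theorem glc_ne : ∀ c c' : Fin 3, c ≠ c' → sq (glc c) (glc c') ≠ 0 := by
  intro c c' h
  fin_cases c <;> fin_cases c' <;> simp [glc, sq] at h ⊢

theorem gpc_nz (c : Fin 2) : gpc c ≠ 0 := by
  intro h
  have := congrFun h
  fin_cases c <;> simp [gpc, Fin.forall_fin_succ] at this

theorem glc_nz (c : Fin 3) : glc c ≠ 0 := by
  intro h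
  have := congrFun h
  fin_cases c <;> simp [glc, Fin.forall_fin_succ] at this

theorem nz_of {q : Ve} (c : Fin 3) (h : q c ≠ 0) : q ≠ 0 := fun h0 => h (by rw [h0]; rfl)

section

variable (hy : ∀ v, cub (y v) = 0) (hst : ∀ e, y (s e) ≠ y (t e))

include hy hst

theorem ptH_nz (θ : Par V Ed → ℝ) (hδ : ∀ v, θ (.inr (.inl v)) ≠ 0) (i : PP V Ed) : ptH s t y θ i ≠ 0 := by
  rcases i with c | ⟨v, m⟩ | e
  · exact gpc_nz c
  · intro h
    apply pc_nz (hy v) m
    have h0 := congrFun h 0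
    have h1 := congrFun h 1
    have h2 := congrFun h 2
    simp only [ptH, ptL, Matrix.cons_val, Matrix.cons_val_zero, Matrix.cons_val_one, Pi.zero_apply] at h0 h1 h2
    funext c
    fin_cases c
    · show pc (y v) m 0 = 0
      rw [h2, mul_zero, add_zero] at h0
      exact (mul_eq_zero.1 h0).resolve_left (hδ v)
    · exact h1
    · exact h2
  · apply nz_of 2
    simp only [ptH, kk, Matrix.cons_val, Matrix.cons_val_zero]
    exact sub_ne_zero.2 (hst e)

theorem lnH_nz (θ : Par V Ed → ℝ) (j : FF V Ed) : lnH s t y θ j ≠ 0 := by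
  rcases j with c | ⟨v, m⟩ | ⟨e, j⟩
  · exact glc_nz c
  · exact nz_of 0 (by simpa [lnH, lnL] using lc_zero (hy v) m)
  · fin_cases j
    · apply nz_of 0
      simp only [lnH, kk, Fin.zero_eta, Matrix.cons_val_zero]
      exact sub_ne_zero.2 (hst e)
    · exact nz_of 1 (by simp [lnH])

/-- The point of an edge is generic. -/
theorem edge_pt (e : Ed) (i : PP V Ed) (hi : i ≠ .inr (.inr e)) :
    ∃ θ, sq (ptH s t y θ (.inr (.inr e))) (ptH s t y θ i) ≠ 0 := by
  have hk : y (s e) - y (t e) ≠ 0 := sub_ne_zero.2 (hst e)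
  refine move θ₀ (Function.update θ₀ (.inr (.inr e)) 1) ?_ ?_ (ptH_nz hy hst _ (fun v => by simp [θ₀]) _)
  · rw [Ne, sq_eq_zero_iff]
    rintro ⟨h1, -, -⟩
    simp [ptH, kk, θ₀] at h1
    exact hst e (by linarith)
  · rcases i with c | ⟨v, m⟩ | e'
    · rfl
    · simp [ptH]
    · have hne : e' ≠ e := fun h => hi (by rw [h])
      simp [ptH, kk, hne]

/-- The points of a selector are generic. -/
theorem vert_pt (v : V) (m : Fin 9) (i : PP V Ed) (hi : (∃ c, i = .inl c) ∨ ∃ v' m', v' ≠ v ∧ i = .inr (.inl (v', m'))) :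
    ∃ θ, sq (ptH s t y θ (.inr (.inl (v, m)))) (ptH s t y θ i) ≠ 0 := by
  obtain ⟨y0, y1, y2, -, -⟩ := cub_ne (hy v)
  have y12 : 2 * y v - 1 ≠ 0 := by
    intro h
    have h1 : y v = 1 / 2 := by linarith
    have := hy v
    rw [h1] at this
    norm_num [cub] at this
  refine move θ₀ (Function.update (Function.update θ₀ (.inl v) 1) (.inr (.inl v)) 2) ?_ ?_
    (ptH_nz hy hst _ (fun v => by simp [θ₀]) _)
  · rw [Ne, sq_eq_zero_iff]
    rintro ⟨h1, h2, h3⟩
    fin_cases m <;>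
      (simp [ptH, ptL, θ₀, pc] at h1 h2 h3
       try first
        | exact y0 (by linarith)
        | exact y1 (by linarith)
        | exact y12 (by linarith)
        | exact (mul_ne_zero (sub_ne_zero.2 y1) y12) (by linear_combination h2))
  · rcases hi with ⟨c, rfl⟩ | ⟨v', m', hne, rfl⟩
    · rfl
    · simp [ptH, hne]

theorem pts_ne (i i' : PP V Ed) (hi : i ≠ i') : ∃ θ, sq (ptH s t y θ i) (ptH s t y θ i') ≠ 0 := by
  have sw : ∀ {i i' : PP V Ed}, (∃ θ, sq (ptH s t y θ i) (ptH s t y θ i') ≠ 0) →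
      ∃ θ, sq (ptH s t y θ i') (ptH s t y θ i) ≠ 0 := fun ⟨θ, h⟩ => ⟨θ, by rw [sq_symm]; exact h⟩
  rcases i with c | ⟨v, m⟩ | e
  · rcases i' with c' | ⟨v', m'⟩ | e'
    · exact ⟨θ₀, gpc_ne c c' fun h => hi (by rw [h])⟩
    · exact sw (vert_pt hy hst v' m' (.inl c) (Or.inl ⟨c, rfl⟩))
    · exact sw (edge_pt hy hst e' (.inl c) (by simp))
  · rcases i' with c' | ⟨v', m'⟩ | e'
    · exact vert_pt hy hst v m _ (Or.inl ⟨c', rfl⟩)
    · by_cases hv : v' = v
      · subst hv
        refine ⟨θ₀, ?_⟩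
        simp only [ptH, θ₀, ptL_zero]
        exact pc_ne (hy v') m m' fun h => hi (by rw [h])
      · exact vert_pt hy hst v m _ (Or.inr ⟨v', m', hv, rfl⟩)
    · exact sw (edge_pt hy hst e' _ (by simp))
  · exact edge_pt hy hst e i' (Ne.symm hi)

/-- The second line of an edge is generic. -/
theorem edge_ln (e : Ed) (j : FF V Ed) (hj : j ≠ .inr (.inr (e, 1))) :
    ∃ θ, sq (lnH s t y θ (.inr (.inr (e, 1)))) (lnH s t y θ j) ≠ 0 := by
  refine move θ₀ (Function.update θ₀ (.inr (.inr e)) 1) ?_ ?_ (lnH_nz hy hst _ _)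
  · rw [Ne, sq_eq_zero_iff]
    rintro ⟨h1, -, -⟩
    simp [lnH, θ₀] at h1
  · rcases j with c | ⟨v, m⟩ | ⟨e', j⟩
    · rfl
    · simp [lnH]
    · fin_cases j
      · simp [lnH, kk]
      · have hne : e' ≠ e := fun h => hj (by simp [h])
        simp [lnH, hne]

/-- The first line of an edge is generic. -/
theorem edge_ln' (e : Ed) (w : V) (hw : w = s e ∨ w = t e) (j : FF V Ed)
    (hj : (∃ c, j = .inl c) ∨ (∃ v m, v ≠ w ∧ j = .inr (.inl (v, m))) ∨
      (∃ e', s e' ≠ w ∧ t e' ≠ w ∧ j = .inr (.inr (e', 0)))) :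
    ∃ θ, sq (lnH s t y θ (.inr (.inr (e, 0)))) (lnH s t y θ j) ≠ 0 := by
  have hk : y (s e) - y (t e) ≠ 0 := sub_ne_zero.2 (hst e)
  have hne : s e ≠ t e := fun h => hst e (by rw [h])
  refine move θ₀ (Function.update θ₀ (.inl w) 1) ?_ ?_ (lnH_nz hy hst _ _)
  · rw [Ne, sq_eq_zero_iff]
    rintro ⟨-, -, h3⟩
    rcases hw with rfl | rfl
    · simp [lnH, kk, θ₀, hne.symm] at h3
      exact hk (by linarith)
    · simp [lnH, kk, θ₀, hne] at h3
      exact hk (by linarith)
  · rcases hj with ⟨c, rfl⟩ | ⟨v, m, hv, rfl⟩ | ⟨e', h1, h2, rfl⟩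
    · rfl
    · simp [lnH, hv]
    · simp [lnH, kk, h1, h2]

/-- The lines of a selector are generic. -/
theorem vert_ln (v : V) (m : Fin 7) (v' : V) (m' : Fin 7) (hv : v' ≠ v) :
    ∃ θ, sq (lnH s t y θ (.inr (.inl (v, m)))) (lnH s t y θ (.inr (.inl (v', m')))) ≠ 0 := by
  have hz := lc_zero (hy v) m
  refine move θ₀ (Function.update θ₀ (.inl v) 1) ?_ ?_ (lnH_nz hy hst _ _)
  · rw [Ne, sq_eq_zero_iff]
    rintro ⟨-, h2, -⟩
    simp [lnH, lnL, θ₀] at h2
    have : lc (y v) m 0 * lc (y v) m 0 = 0 := by linear_combination h2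
    exact (mul_ne_zero hz hz) this
  · simp [lnH, hv]

theorem glob_ln (c : Fin 3) (v : V) (m : Fin 7) :
    ∃ θ, sq (lnH s t y θ (.inl c)) (lnH s t y θ (.inr (.inl (v, m)))) ≠ 0 := by
  have hz := lc_zero (hy v) m
  refine ⟨θ₀, ?_⟩
  simp only [lnH, θ₀, lnL_zero]
  rw [Ne, sq_eq_zero_iff]
  rintro ⟨-, h2, h3⟩
  fin_cases c <;> simp [glc] at h2 h3 <;> exact hz (by linarith)

variable (hdup : ∀ e e', s e = s e' → t e = t e' → e = e') (hrev : ∀ e e', s e = t e' → t e = s e' → False)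

include hdup hrev

theorem lns_ne (j j' : FF V Ed) (hj : j ≠ j') : ∃ θ, sq (lnH s t y θ j) (lnH s t y θ j') ≠ 0 := by
  have sw : ∀ {j j' : FF V Ed}, (∃ θ, sq (lnH s t y θ j) (lnH s t y θ j') ≠ 0) →
      ∃ θ, sq (lnH s t y θ j') (lnH s t y θ j) ≠ 0 := fun ⟨θ, h⟩ => ⟨θ, by rw [sq_symm]; exact h⟩
  have hne : ∀ e, s e ≠ t e := fun e h => hst e (by rw [h])
  -- first lines of edges and selectors
  have kv : ∀ e v m, ∃ θ, sq (lnH s t y θ (.inr (.inr (e, 0)))) (lnH s t y θ (.inr (.inl (v, m)))) ≠ 0 := by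
    intro e v m
    by_cases h : v = s e
    · exact edge_ln' hy hst e (t e) (Or.inr rfl) _ (Or.inr (Or.inl ⟨v, m, by rw [h]; exact hne e, rfl⟩))
    · exact edge_ln' hy hst e (s e) (Or.inl rfl) _ (Or.inr (Or.inl ⟨v, m, h, rfl⟩))
  have kg : ∀ e c, ∃ θ, sq (lnH s t y θ (.inr (.inr (e, 0)))) (lnH s t y θ (.inl c)) ≠ 0 := fun e c =>
    edge_ln' hy hst e (t e) (Or.inr rfl) _ (Or.inl ⟨c, rfl⟩)
  have ke : ∀ e e', e ≠ e' → ∃ θ, sq (lnH s t y θ (.inr (.inr (e, 0)))) (lnH s t y θ (.inr (.inr (e', 0)))) ≠ 0 := by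
    intro e e' he
    by_cases h : s e' ≠ s e ∧ t e' ≠ s e
    · exact edge_ln' hy hst e (s e) (Or.inl rfl) _ (Or.inr (Or.inr ⟨e', h.1, h.2, rfl⟩))
    · refine edge_ln' hy hst e (t e) (Or.inr rfl) _ (Or.inr (Or.inr ⟨e', ?_, ?_, rfl⟩))
      · intro h1
        rw [h1] at h
        push Not at h
        have h2 := h (hne e).symm
        exact hrev e' e h1 h2
      · intro h1
        rw [h1] at h
        have h2 : s e' = s e := by
          by_contra h3
          exact h ⟨h3, (hne e).symm⟩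
        exact he (hdup e' e h2 h1).symm
  rcases j with c | ⟨v, m⟩ | ⟨e, i⟩
  · rcases j' with c' | ⟨v', m'⟩ | ⟨e', i'⟩
    · exact ⟨θ₀, glc_ne c c' fun h => hj (by rw [h])⟩
    · exact glob_ln hy hst c v' m'
    · fin_cases i'
      · exact sw (kg e' c)
      · exact sw (edge_ln hy hst e' _ (by simp))
  · rcases j' with c' | ⟨v', m'⟩ | ⟨e', i'⟩
    · exact sw (glob_ln hy hst c' v m)
    · by_cases hv : v' = v
      · subst hv
        refine ⟨θ₀, ?_⟩
        simp only [lnH, θ₀, lnL_zero]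
        exact lc_ne (hy v') m m' fun h => hj (by rw [h])
      · exact vert_ln hy hst v m v' m' hv
    · fin_cases i'
      · exact sw (kv e' v m)
      · exact sw (edge_ln hy hst e' _ (by simp))
  · fin_cases i
    · rcases j' with c' | ⟨v', m'⟩ | ⟨e', i'⟩
      · exact kg e c'
      · exact kv e v' m'
      · fin_cases i'
        · exact ke e e' fun h => hj (by simp [h])
        · exact sw (edge_ln hy hst e' _ (by simp))
    · exact edge_ln hy hst e j' (Ne.symm hj)

end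

/-! ### All at once -/

theorem isPoly_pt (i : PP V Ed) (c : Fin 3) : IsPoly (fun θ => ptH s t y θ i c) := by
  rcases i with k | ⟨v, m⟩ | e
  · exact IsPoly.const _
  · have h1 : ∀ q : Ve, IsPoly (fun θ : Par V Ed → ℝ => ptL (θ (.inl v)) (θ (.inr (.inl v))) q c) := by
      intro q
      fin_cases c
      · exact ((IsPoly.coord _).mul (IsPoly.const _)).add ((IsPoly.coord _).mul (IsPoly.const _))
      · exact IsPoly.const _
      · exact IsPoly.const _
    exact h1 _
  · have k1 : IsPoly (fun θ : Par V Ed → ℝ => kk s t y θ e 1) := (IsPoly.coord _).sub (IsPoly.coord _)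
    have k2 : IsPoly (fun θ : Par V Ed → ℝ => kk s t y θ e 2) :=
      ((IsPoly.coord _).mul (IsPoly.const _)).sub ((IsPoly.coord _).mul (IsPoly.const _))
    fin_cases c
    · exact ((IsPoly.coord _).neg.mul k1).sub k2
    · exact (IsPoly.coord _).mul (IsPoly.const _)
    · exact IsPoly.const _

theorem isPoly_ln (j : FF V Ed) (c : Fin 3) : IsPoly (fun θ => lnH s t y θ j c) := by
  rcases j with k | ⟨v, m⟩ | ⟨e, i⟩
  · exact IsPoly.const _
  · have h1 : ∀ q : Ve, IsPoly (fun θ : Par V Ed → ℝ => lnL (θ (.inl v)) (θ (.inr (.inl v))) q c) := by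
      intro q
      fin_cases c
      · exact IsPoly.const _
      · exact (IsPoly.coord _).mul (IsPoly.const _)
      · exact ((IsPoly.coord _).mul (IsPoly.const _)).sub ((IsPoly.coord _).mul (IsPoly.const _))
    exact h1 _
  · fin_cases i
    · fin_cases c
      · exact IsPoly.const _
      · exact (IsPoly.coord _).sub (IsPoly.coord _)
      · exact ((IsPoly.coord _).mul (IsPoly.const _)).sub ((IsPoly.coord _).mul (IsPoly.const _))
    · fin_cases c
      · exact IsPoly.const _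
      · exact IsPoly.const _
      · exact (IsPoly.coord _).neg

theorem generic [Fintype V] [Fintype Ed] (hy : ∀ v, cub (y v) = 0) (hst : ∀ e, y (s e) ≠ y (t e))
    (hdup : ∀ e e', s e = s e' → t e = t e' → e = e') (hrev : ∀ e e', s e = t e' → t e = s e' → False) :
    ∃ θ : Par V Ed → ℝ, (∀ v, θ (.inr (.inl v)) ≠ 0) ∧
      (∀ i i', i ≠ i' → sq (ptH s t y θ i) (ptH s t y θ i') ≠ 0) ∧
      ∀ j j', j ≠ j' → sq (lnH s t y θ j) (lnH s t y θ j') ≠ 0 := by
  obtain ⟨θ, hθ⟩ := gen (ι := Par V Ed)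
    (κ := V ⊕ ({q : PP V Ed × PP V Ed // q.1 ≠ q.2} ⊕ {q : FF V Ed × FF V Ed // q.1 ≠ q.2}))
    (Sum.elim (fun v θ => θ (.inr (.inl v))) (Sum.elim (fun q θ => sq (ptH s t y θ q.1.1) (ptH s t y θ q.1.2))
      (fun q θ => sq (lnH s t y θ q.1.1) (lnH s t y θ q.1.2))))
    (by
      rintro (v | q | q)
      · exact IsPoly.coord _
      · exact IsPoly.sq (a := fun θ => ptH s t y θ q.1.1) (b := fun θ => ptH s t y θ q.1.2)
          (fun c => isPoly_pt _ c) fun c => isPoly_pt _ c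
      · exact IsPoly.sq (a := fun θ => lnH s t y θ q.1.1) (b := fun θ => lnH s t y θ q.1.2)
          (fun c => isPoly_ln _ c) fun c => isPoly_ln _ c)
    (by
      rintro (v | q | q)
      · exact ⟨θ₀, by simp [θ₀]⟩
      · exact pts_ne hy hst _ _ q.2
      · exact lns_ne hy hst hdup hrev _ _ q.2)
  exact ⟨θ, fun v => hθ (.inl v), fun i i' h => hθ (.inr (.inl ⟨(i, i'), h⟩)),
    fun j j' h => hθ (.inr (.inr ⟨(j, j'), h⟩))⟩

end Pool.Agent.II95
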