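import Pool.Agent.Lib_MP_5661ce_lc.Defs

/-!
# Realizations with different points and different lines
-/

namespace Pool.Agent.II95

open Pool.Agent.IncInd Turing

/-- Different points of the structure are realized by different points of the plane, and different
lines of the structure by different lines of the plane. -/
def Distinct (S : Inc) (x y A C : Name → ℝ) : Prop :=
  (∀ i ∈ S.pts, ∀ i' ∈ S.pts, x i = x i' → y i = y i' → i = i') ∧
  (∀ j ∈ S.lns, ∀ j' ∈ S.lns, A j = A j' → C j = C j' → j = j')

/-- Independence at a non-degenerate realization with different points and different lines. -/
def DistinctIndependent (S : Inc) : Prop :=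
  ∃ x y A C : Name → ℝ, S.Realizes x y A C ∧ S.Nondegenerate x y A C ∧ Distinct S x y A C ∧
    LinearIndependent ℝ (fun e => S.J x A e)

/-- The decision problem: the strings of the structures that are independent in this sense. -/
def INDEPD : Set (List Sym) := {w | ∃ S : Inc, S.Valid ∧ w = S.code ∧ DistinctIndependent S}

/-- The structure is a yes-instance in every sense: it has a realization with different points and
different lines, and every such realization is non-degenerate and has independent rows. -/
def StrongYes (S : Inc) : Prop :=
  (∃ x y A C : Name → ℝ, S.Realizes x y A C ∧ Distinct S x y A C) ∧
  ∀ x y A C : Name → ℝ, S.Realizes x y A C → Distinct S x y A C →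
    S.Nondegenerate x y A C ∧ LinearIndependent ℝ (fun e => S.J x A e)

/-- The structure is a no-instance in every sense: no realization has different points and
different lines. -/
def StrongNo (S : Inc) : Prop :=
  ¬ ∃ x y A C : Name → ℝ, S.Realizes x y A C ∧ Distinct S x y A C

end Pool.Agent.II95
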