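import Mathlib.Algebra.MvPolynomial.Funext
import Mathlib.Data.Real.Basic
import Mathlib.Tactic

/-!
# Generic choices
-/

namespace Pool.Agent.II95

open Finset

/-- Polynomial functions of real parameters. -/
def IsPoly {ι : Type} (F : (ι → ℝ) → ℝ) : Prop := ∃ g : MvPolynomial ι ℝ, ∀ θ, F θ = MvPolynomial.eval θ g

variable {ι : Type}

theorem IsPoly.const (c : ℝ) : IsPoly (fun _ : ι → ℝ => c) := ⟨MvPolynomial.C c, fun θ => by simp⟩
theorem IsPoly.coord (i : ι) : IsPoly (fun θ : ι → ℝ => θ i) := ⟨MvPolynomial.X i, fun θ => by simp⟩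
theorem IsPoly.add {F G : (ι → ℝ) → ℝ} (hF : IsPoly F) (hG : IsPoly G) : IsPoly (fun θ => F θ + G θ) := by
  obtain ⟨f, hf⟩ := hF
  obtain ⟨g, hg⟩ := hG
  exact ⟨f + g, fun θ => by simp [hf, hg]⟩
theorem IsPoly.sub {F G : (ι → ℝ) → ℝ} (hF : IsPoly F) (hG : IsPoly G) : IsPoly (fun θ => F θ - G θ) := by
  obtain ⟨f, hf⟩ := hF
  obtain ⟨g, hg⟩ := hG
  exact ⟨f - g, fun θ => by simp [hf, hg]⟩
theorem IsPoly.mul {F G : (ι → ℝ) → ℝ} (hF : IsPoly F) (hG : IsPoly G) : IsPoly (fun θ => F θ * G θ) := by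
  obtain ⟨f, hf⟩ := hF
  obtain ⟨g, hg⟩ := hG
  exact ⟨f * g, fun θ => by simp [hf, hg]⟩
theorem IsPoly.neg {F : (ι → ℝ) → ℝ} (hF : IsPoly F) : IsPoly (fun θ => - F θ) := by
  obtain ⟨f, hf⟩ := hF
  exact ⟨-f, fun θ => by simp [hf]⟩
theorem IsPoly.pow {F : (ι → ℝ) → ℝ} (hF : IsPoly F) (n : ℕ) : IsPoly (fun θ => F θ ^ n) := by
  obtain ⟨f, hf⟩ := hF
  exact ⟨f ^ n, fun θ => by simp [hf]⟩

/-- Finitely many polynomial functions that do not vanish identically do not vanish at a common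
point. -/
theorem gen {κ : Type} [Fintype κ] (F : κ → (ι → ℝ) → ℝ) (hF : ∀ k, IsPoly (F k))
    (h0 : ∀ k, ∃ θ, F k θ ≠ 0) : ∃ θ, ∀ k, F k θ ≠ 0 := by
  choose g hg using hF
  have h1 : ∀ k, g k ≠ 0 := by
    intro k hk
    obtain ⟨θ, hθ⟩ := h0 k
    rw [hg k θ, hk, map_zero] at hθ
    exact hθ rfl
  have h2 : (∏ k, g k) ≠ 0 := Finset.prod_ne_zero_iff.2 fun k _ => h1 k
  by_contra hcon
  push Not at hcon
  apply h2
  refine MvPolynomial.funext fun θ => ?_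
  obtain ⟨k, hk⟩ := hcon θ
  rw [map_prod, map_zero]
  exact Finset.prod_eq_zero (Finset.mem_univ k) (by rw [← hg k θ, hk])

/-! ### Vectors in space -/

/-- Homogeneous coordinates. -/
abbrev Ve : Type := Fin 3 → ℝ

/-- Scalar product. -/
def dt (a b : Ve) : ℝ := a 0 * b 0 + a 1 * b 1 + a 2 * b 2

/-- Cross product. -/
def cr (a b : Ve) : Ve := ![a 1 * b 2 - a 2 * b 1, a 2 * b 0 - a 0 * b 2, a 0 * b 1 - a 1 * b 0]

/-- Square of the length of the cross product. -/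
def sq (a b : Ve) : ℝ := (a 1 * b 2 - a 2 * b 1) ^ 2 + (a 2 * b 0 - a 0 * b 2) ^ 2 + (a 0 * b 1 - a 1 * b 0) ^ 2

theorem sq_eq_zero_iff (a b : Ve) : sq a b = 0 ↔ a 1 * b 2 = a 2 * b 1 ∧ a 2 * b 0 = a 0 * b 2 ∧
    a 0 * b 1 = a 1 * b 0 := by
  unfold sq
  constructor
  · intro h
    have h1 := sq_nonneg (a 1 * b 2 - a 2 * b 1)
    have h2 := sq_nonneg (a 2 * b 0 - a 0 * b 2)
    have h3 := sq_nonneg (a 0 * b 1 - a 1 * b 0)
    have e1 : (a 1 * b 2 - a 2 * b 1) ^ 2 = 0 := by linarith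
    have e2 : (a 2 * b 0 - a 0 * b 2) ^ 2 = 0 := by linarith
    have e3 : (a 0 * b 1 - a 1 * b 0) ^ 2 = 0 := by linarith
    refine ⟨?_, ?_, ?_⟩
    · have := pow_eq_zero_iff (two_ne_zero) |>.1 e1
      linarith
    · have := pow_eq_zero_iff (two_ne_zero) |>.1 e2
      linarith
    · have := pow_eq_zero_iff (two_ne_zero) |>.1 e3
      linarith
  · rintro ⟨h1, h2, h3⟩
    rw [h1, h2, h3]
    ring

theorem sq_symm (a b : Ve) : sq a b = sq b a := by
  unfold sq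
  ring

theorem vec_ne_zero {a : Ve} : a ≠ 0 ↔ (a 0 ≠ 0 ∨ a 1 ≠ 0 ∨ a 2 ≠ 0) := by
  rw [Ne, funext_iff, Fin.forall_fin_succ, Fin.forall_fin_two]
  simp only [Pi.zero_apply]
  constructor
  · intro h
    by_contra hcon
    push Not at hcon
    exact h ⟨hcon.1, hcon.2.1, hcon.2.2⟩
  · rintro h ⟨h1, h2, h3⟩
    rcases h with h | h | h
    · exact h h1
    · exact h h2
    · exact h h3

/-- Proportional vectors. -/
theorem prop_of_sq {a b : Ve} (hb : b ≠ 0) (h1 : sq a b = 0) : ∃ s : ℝ, a = s • b := by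
  rw [sq_eq_zero_iff] at h1
  obtain ⟨p1, p2, p3⟩ := h1
  rcases vec_ne_zero.1 hb with h | h | h
  · refine ⟨a 0 / b 0, funext fun i => ?_⟩
    fin_cases i <;> simp only [Pi.smul_apply, smul_eq_mul, Fin.zero_eta, Fin.mk_one, Fin.reduceFinMk] <;>
      field_simp <;> linarith
  · refine ⟨a 1 / b 1, funext fun i => ?_⟩
    fin_cases i <;> simp only [Pi.smul_apply, smul_eq_mul, Fin.zero_eta, Fin.mk_one, Fin.reduceFinMk] <;>
      field_simp <;> linarith
  · refine ⟨a 2 / b 2, funext fun i => ?_⟩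
    fin_cases i <;> simp only [Pi.smul_apply, smul_eq_mul, Fin.zero_eta, Fin.mk_one, Fin.reduceFinMk] <;>
      field_simp <;> linarith

theorem sq_smul (s t : ℝ) (b : Ve) : sq (s • b) (t • b) = 0 := by
  simp only [sq, Pi.smul_apply, smul_eq_mul]
  ring

/-- Proportionality is transitive. -/
theorem sq_trans {a b c : Ve} (hb : b ≠ 0) (h1 : sq a b = 0) (h2 : sq b c = 0) : sq a c = 0 := by
  obtain ⟨s, rfl⟩ := prop_of_sq hb h1
  rw [sq_symm] at h2
  obtain ⟨t, rfl⟩ := prop_of_sq hb h2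
  exact sq_smul s t b

/-- One of two different vectors is not proportional to a given one. -/
theorem moving {α α' β : Ve} (hβ : β ≠ 0) (h : sq α α' ≠ 0) : sq α β ≠ 0 ∨ sq α' β ≠ 0 := by
  by_contra hcon
  push Not at hcon
  exact h (sq_trans hβ hcon.1 (by rw [sq_symm]; exact hcon.2))

/-- Two vectors of a stress at an element of degree two. -/
theorem two_term {a b : Ve} {s t : ℝ} (h : sq a b ≠ 0) (h0 : s * a 0 + t * b 0 = 0) (h1 : s * a 1 + t * b 1 = 0)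
    (h2 : s * a 2 + t * b 2 = 0) : s = 0 ∧ t = 0 := by
  have key : ∀ r : ℝ, (r * (a 1 * b 2 - a 2 * b 1) = 0) → (r * (a 2 * b 0 - a 0 * b 2) = 0) →
      (r * (a 0 * b 1 - a 1 * b 0) = 0) → r = 0 := by
    intro r k1 k2 k3
    by_contra hr
    apply h
    rw [sq_eq_zero_iff]
    refine ⟨?_, ?_, ?_⟩
    · have := (mul_eq_zero.1 k1).resolve_left hr
      linarith
    · have := (mul_eq_zero.1 k2).resolve_left hr
      linarith
    · have := (mul_eq_zero.1 k3).resolve_left hr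
      linarith
  refine ⟨key s ?_ ?_ ?_, key t ?_ ?_ ?_⟩
  · linear_combination b 2 * h1 - b 1 * h2
  · linear_combination b 0 * h2 - b 2 * h0
  · linear_combination b 1 * h0 - b 0 * h1
  · linear_combination a 1 * h2 - a 2 * h1
  · linear_combination a 2 * h0 - a 0 * h2
  · linear_combination a 0 * h1 - a 1 * h0

end Pool.Agent.II95
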