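import Pool.Agent.II95.Comp

/-!
# Independence at the generic realization
-/

namespace Pool.Agent.II95

open Finset

set_option linter.unusedSectionVars false

theorem sum_if_list {K : Type} [Fintype K] [DecidableEq K] (P : K → Prop) [DecidablePred P] (S : List K)
    (hS : S.Nodup) (h : ∀ k, P k ↔ k ∈ S) (F : K → ℝ) : ∑ k, (if P k then F k else 0) = (S.map F).sum := by
  rw [← Finset.sum_filter, ← List.sum_toFinset F hS]
  apply Finset.sum_subset_zero_on_sdiff
  · intro k hk
    rw [Finset.mem_filter] at hk
    rw [List.mem_toFinset]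
    exact (h k).1 hk.2
  · intro k hk
    rw [Finset.mem_sdiff, List.mem_toFinset, Finset.mem_filter] at hk
    exact absurd ⟨Finset.mem_univ k, (h k).2 hk.1⟩ hk.2
  · intro k _
    rfl

variable {V Ed : Type} [Fintype V] [Fintype Ed] [DecidableEq V] [DecidableEq Ed]

theorem sum_vert (F : KK V Ed → ℝ) (P : KK V Ed → Prop) [DecidablePred P] (v : V)
    (h1 : ∀ k, P (.inl k) → F (.inl k) = 0) (h2 : ∀ v' k, P (.inr (.inl (v', k))) → v' = v)
    (h3 : ∀ e k, P (.inr (.inr (e, k))) → F (.inr (.inr (e, k))) = 0) :
    ∑ k, (if P k then F k else 0) = ∑ k : Fin 30, if P (.inr (.inl (v, k))) then F (.inr (.inl (v, k))) else 0 := by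
  rw [Fintype.sum_sum_type, Fintype.sum_sum_type]
  have e1 : ∑ k, (if P (.inl k) then F (.inl k) else 0) = 0 := by
    apply Finset.sum_eq_zero
    intro k _
    split_ifs with h
    · exact h1 k h
    · rfl
  have e3 : ∑ k, (if P (.inr (.inr k)) then F (.inr (.inr k)) else 0) = 0 := by
    apply Finset.sum_eq_zero
    intro k _
    split_ifs with h
    · exact h3 k.1 k.2 h
    · rfl
  rw [e1, e3, zero_add, add_zero, Fintype.sum_prod_type]
  rw [Finset.sum_eq_single v]
  · intro v' _ hv
    apply Finset.sum_eq_zero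
    intro k _
    rw [if_neg]
    exact fun h => hv (h2 v' k h)
  · intro h
    exact absurd (Finset.mem_univ v) h

theorem sum_glob (F : KK V Ed → ℝ) (P : KK V Ed → Prop) [DecidablePred P]
    (h2 : ∀ v' k, F (.inr (.inl (v', k))) = 0)
    (h3 : ∀ e k, F (.inr (.inr (e, k))) = 0) :
    ∑ k, (if P k then F k else 0) = ∑ k : Fin 4, if P (.inl k) then F (.inl k) else 0 := by
  rw [Fintype.sum_sum_type, Fintype.sum_sum_type]
  have e1 : ∑ k, (if P (.inr (.inl k)) then F (.inr (.inl k)) else 0) = 0 := by
    apply Finset.sum_eq_zero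
    intro k _
    rw [h2 k.1 k.2, ite_self]
  have e3 : ∑ k, (if P (.inr (.inr k)) then F (.inr (.inr k)) else 0) = 0 := by
    apply Finset.sum_eq_zero
    intro k _
    rw [h3 k.1 k.2, ite_self]
  rw [e1, e3, add_zero, add_zero]

variable {s t : Ed → V} {y : V → ℝ}

/-- The generic realization has independent rows. -/
theorem ind_gen (hy : ∀ v, cub (y v) = 0) (hst : ∀ e, y (s e) ≠ y (t e)) (θ : Par V Ed → ℝ)
    (hδ : ∀ v, θ (.inr (.inl v)) ≠ 0) (hP : ∀ i i', i ≠ i' → sq (ptH s t y θ i) (ptH s t y θ i') ≠ 0)
    (hL : ∀ j j', j ≠ j' → sq (lnH s t y θ j) (lnH s t y θ j') ≠ 0) (g : KK V Ed → ℝ)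
    (hp : ∀ i, ∀ c : Fin 3, ∑ k, (if kp s t k = i then g k * lnH s t y θ (kf k) c else 0) = 0)
    (hl : ∀ j, ∀ c : Fin 3, ∑ k, (if kf k = j then g k * ptH s t y θ (kp s t k) c else 0) = 0) :
    ∀ k, g k = 0 := by
  have hne : ∀ e, s e ≠ t e := fun e h => hst e (by rw [h])
  -- edges
  have hE : ∀ e k, g (.inr (.inr (e, k))) = 0 := by
    intro e
    have r : ∀ c : Fin 3, g (.inr (.inr (e, 3))) * ptH s t y θ (.inl 1) c +
        g (.inr (.inr (e, 4))) * ptH s t y θ (.inr (.inr e)) c = 0 := by
      intro c
      have h := hl (.inr (.inr (e, 1))) c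
      rw [sum_if_list _ [.inr (.inr (e, 3)), .inr (.inr (e, 4))] (by simp) (by
        rintro (k | ⟨v, k⟩ | ⟨e', k⟩)
        · simp [kf]
        · simp only [kf]
          rcases vl k with c | m <;> simp
        · fin_cases k <;> simp [kf])] at h
      simpa [kp] using h
    obtain ⟨g3, g4⟩ := two_term (hP _ _ (by simp)) (r 0) (r 1) (r 2)
    have Y : ∀ c : Fin 3, g (.inr (.inr (e, 2))) * lnH s t y θ (.inr (.inr (e, 0))) c +
        g (.inr (.inr (e, 4))) * lnH s t y θ (.inr (.inr (e, 1))) c = 0 := by
      intro c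
      have h := hp (.inr (.inr e)) c
      rw [sum_if_list _ [.inr (.inr (e, 2)), .inr (.inr (e, 4))] (by simp) (by
        rintro (k | ⟨v, k⟩ | ⟨e', k⟩)
        · simp [kp]
        · simp only [kp]
          rcases vp k with c | m <;> simp
        · fin_cases k <;> simp [kp])] at h
      simpa [kf] using h
    obtain ⟨g2, -⟩ := two_term (hL _ _ (by simp)) (Y 0) (Y 1) (Y 2)
    have K : ∀ c : Fin 3, g (.inr (.inr (e, 0))) * ptH s t y θ (.inr (.inl (s e, 4))) c +
        g (.inr (.inr (e, 1))) * ptH s t y θ (.inr (.inl (t e, 4))) c = 0 := by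
      intro c
      have h := hl (.inr (.inr (e, 0))) c
      rw [sum_if_list _ [.inr (.inr (e, 0)), .inr (.inr (e, 1)), .inr (.inr (e, 2))] (by simp) (by
        rintro (k | ⟨v, k⟩ | ⟨e', k⟩)
        · simp [kf]
        · simp only [kf]
          rcases vl k with c | m <;> simp
        · fin_cases k <;> simp [kf])] at h
      simp only [List.map_cons, List.map_nil, List.sum_cons, List.sum_nil, g2] at h
      simpa [kp] using h
    obtain ⟨g0, g1⟩ := two_term (hP _ _ (by simpa using hne e)) (K 0) (K 1) (K 2)
    intro k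
    fin_cases k
    · exact g0
    · exact g1
    · exact g2
    · exact g3
    · exact g4
  -- selectors
  have hV : ∀ v k, g (.inr (.inl (v, k))) = 0 := by
    intro v
    obtain ⟨τ, hτ⟩ : ∃ τ, τ = θ (.inl v) := ⟨_, rfl⟩
    obtain ⟨δ, hδ'⟩ : ∃ δ, δ = θ (.inr (.inl v)) := ⟨_, rfl⟩
    have hδ0 : δ ≠ 0 := by rw [hδ']; exact hδ v
    obtain ⟨γ, hγ⟩ : ∃ γ : Fin 30 → ℝ, γ = fun k => if (vl k).isLeft then g (.inr (.inl (v, k))) / δ else
      g (.inr (.inl (v, k))) := ⟨_, rfl⟩
    have hln : ∀ k c, g (.inr (.inl (v, k))) * lnH s t y θ (kf (.inr (.inl (v, k)))) c =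
        γ k * lnL τ δ (Sum.elim glc (lc (y v)) (vl k)) c := by
      intro k c
      simp only [kf, hγ]
      rcases vl k with c' | m
      · simp only [Sum.elim_inl, Sum.isLeft_inl, if_true, lnH]
        fin_cases c' <;> fin_cases c <;> simp [glc, lnL] <;> field_simp
      · simp [lnH, hτ, hδ']
    have hpt : ∀ k c, ptH s t y θ (kp s t (.inr (.inl (v, k)))) c = ptL τ δ (Sum.elim gpc (pc (y v)) (vp k)) c := by
      intro k c
      simp only [kp]
      rcases h : vp k with c' | m
      · obtain rfl := vp_inl k c' h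
        fin_cases c <;> simp [ptH, gpc, ptL]
      · simp [ptH, hτ, hδ']
    have key := local_stress (y v) (hy v) γ ?_ ?_
    · intro k
      have h := key k
      rw [hγ] at h
      simp only at h
      split_ifs at h
      · exact (div_eq_zero_iff.1 h).resolve_right hδ0
      · exact h
    · intro m
      have h : ∀ c, ∑ k, (if vp k = .inr m then γ k * lnL τ δ (Sum.elim glc (lc (y v)) (vl k)) c else 0) = 0 := by
        intro c
        refine Eq.trans ?_ ((sum_vert _ _ v ?_ ?_ ?_).symm.trans (hp (.inr (.inl (v, m))) c))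
        · apply Finset.sum_congr rfl
          intro k _
          rw [hln]
          have : (kp s t (.inr (.inl (v, k))) = .inr (.inl (v, m))) ↔ vp k = .inr m := by
            simp only [kp]
            rcases vp k with c' | m' <;> simp
          simp only [this]
        · intro k hk
          simp [kp] at hk
        · intro v' k hk
          simp only [kp] at hk
          rcases h : vp k with c' | m' <;> rw [h] at hk <;> simp at hk
          exact hk.1
        · intro e k _
          rw [hE, zero_mul]
      have e0 : ∑ k, (if vp k = .inr m then γ k * (Sum.elim glc (lc (y v)) (vl k)) 0 else 0) = 0 := by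
        simpa [lnL] using h 0
      have e1 : δ * ∑ k, (if vp k = .inr m then γ k * (Sum.elim glc (lc (y v)) (vl k)) 1 else 0) = 0 := by
        refine Eq.trans ?_ (h 1)
        rw [Finset.mul_sum]
        apply Finset.sum_congr rfl
        intro k _
        split_ifs
        · simp [lnL]
          ring
        · simp
      have e2 : δ * ∑ k, (if vp k = .inr m then γ k * (Sum.elim glc (lc (y v)) (vl k)) 2 else 0) =
          τ * ∑ k, (if vp k = .inr m then γ k * (Sum.elim glc (lc (y v)) (vl k)) 0 else 0) := by
        rw [← sub_eq_zero]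
        refine Eq.trans ?_ (h 2)
        rw [Finset.mul_sum, Finset.mul_sum, ← Finset.sum_sub_distrib]
        apply Finset.sum_congr rfl
        intro k _
        split_ifs
        · simp [lnL]
          ring
        · simp
      rw [e0, mul_zero] at e2
      intro c
      fin_cases c
      · exact e0
      · exact (mul_eq_zero.1 e1).resolve_left hδ0
      · exact (mul_eq_zero.1 e2).resolve_left hδ0
    · intro m
      have h : ∀ c, ∑ k, (if vl k = .inr m then γ k * ptL τ δ (Sum.elim gpc (pc (y v)) (vp k)) c else 0) = 0 := by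
        intro c
        refine Eq.trans ?_ ((sum_vert _ _ v ?_ ?_ ?_).symm.trans (hl (.inr (.inl (v, m))) c))
        · apply Finset.sum_congr rfl
          intro k _
          rw [hpt]
          have : (kf (.inr (.inl (v, k))) = (.inr (.inl (v, m)) : FF V Ed)) ↔ vl k = .inr m := by
            simp only [kf]
            rcases vl k with c' | m' <;> simp
          simp only [this]
          split_ifs with h1
          · rw [hγ]
            simp [h1]
          · rfl
        · intro k hk
          simp [kf] at hk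
        · intro v' k hk
          simp only [kf] at hk
          rcases h : vl k with c' | m' <;> rw [h] at hk <;> simp at hk
          exact hk.1
        · intro e k _
          rw [hE, zero_mul]
      have e1 : ∑ k, (if vl k = .inr m then γ k * (Sum.elim gpc (pc (y v)) (vp k)) 1 else 0) = 0 := by
        simpa [ptL] using h 1
      have e2 : ∑ k, (if vl k = .inr m then γ k * (Sum.elim gpc (pc (y v)) (vp k)) 2 else 0) = 0 := by
        simpa [ptL] using h 2
      have e0 : δ * ∑ k, (if vl k = .inr m then γ k * (Sum.elim gpc (pc (y v)) (vp k)) 0 else 0) +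
          τ * ∑ k, (if vl k = .inr m then γ k * (Sum.elim gpc (pc (y v)) (vp k)) 2 else 0) = 0 := by
        refine Eq.trans ?_ (h 0)
        rw [Finset.mul_sum, Finset.mul_sum, ← Finset.sum_add_distrib]
        apply Finset.sum_congr rfl
        intro k _
        split_ifs
        · simp [ptL]
          ring
        · simp
      rw [e2, mul_zero, add_zero] at e0
      intro c
      fin_cases c
      · exact (mul_eq_zero.1 e0).resolve_left hδ0
      · exact e1
      · exact e2
  -- the global incidences
  have hG : ∀ k, g (.inl k) = 0 := by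
    have hO : ∀ c, g (.inl 0) * glc 2 c = 0 := by
      intro c
      have h := hp (.inl 0) c
      rw [sum_glob _ _ (fun v k => by rw [hV, zero_mul]) (fun e k => by rw [hE, zero_mul])] at h
      simpa [Fin.sum_univ_four, kp, kf, lnH] using h
    have he : ∀ c, g (.inl 2) * gpc 1 c = 0 := by
      intro c
      have h := hl (.inl 0) c
      rw [sum_glob _ _ (fun v k => by rw [hV, zero_mul]) (fun e k => by rw [hE, zero_mul])] at h
      simpa [Fin.sum_univ_four, kp, kf, ptH] using h
    have hw : ∀ c, g (.inl 3) * gpc 1 c = 0 := by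
      intro c
      have h := hl (.inl 1) c
      rw [sum_glob _ _ (fun v k => by rw [hV, zero_mul]) (fun e k => by rw [hE, zero_mul])] at h
      simpa [Fin.sum_univ_four, kp, kf, ptH] using h
    have hi : ∀ c, g (.inl 0) * gpc 0 c + g (.inl 1) * gpc 1 c = 0 := by
      intro c
      have h := hl (.inl 2) c
      rw [sum_glob _ _ (fun v k => by rw [hV, zero_mul]) (fun e k => by rw [hE, zero_mul])] at h
      simpa [Fin.sum_univ_four, kp, kf, ptH] using h
    have g0 : g (.inl 0) = 0 := by simpa [glc] using hO 2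
    have g2 : g (.inl 2) = 0 := by simpa [gpc] using he 0
    have g3 : g (.inl 3) = 0 := by simpa [gpc] using hw 0
    have g1 : g (.inl 1) = 0 := by simpa [gpc] using hi 0
    intro k
    fin_cases k
    · exact g0
    · exact g1
    · exact g2
    · exact g3
  rintro (k | ⟨v, k⟩ | ⟨e, k⟩)
  · exact hG k
  · exact hV v k
  · exact hE e k

/-- A colouring gives a realization in homogeneous coordinates. -/
theorem complete_hom [Nonempty V] (col : V → Fin 3) (hcol : ∀ e, col (s e) ≠ col (t e))
    (hdup : ∀ e e', s e = s e' → t e = t e' → e = e') (hrev : ∀ e e', s e = t e' → t e = s e' → False) :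
    ∃ a b, Hom (kp s t) (kf (V := V) (Ed := Ed)) a b := by
  obtain ⟨ρ, hρi, hρ, -⟩ := exists_roots
  obtain ⟨y, hyd⟩ : ∃ y : V → ℝ, y = fun v => ρ (col v) := ⟨_, rfl⟩
  have hy : ∀ v, cub (y v) = 0 := fun v => by rw [hyd]; exact hρ _
  have hst : ∀ e, y (s e) ≠ y (t e) := fun e h => hcol e (hρi (by rw [hyd] at h; exact h))
  obtain ⟨θ, h1, h2, h3⟩ := generic hy hst hdup hrev
  refine ⟨ptH s t y θ, lnH s t y θ, incH hy θ, ptH_nz hy hst θ h1, lnH_nz hy hst θ, h2, h3, ?_, ?_,
    ind_gen hy hst θ h1 h2 h3⟩
  · intro c hc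
    obtain ⟨v⟩ := (inferInstance : Nonempty V)
    have c1 := hc (.inl 0)
    have c0 := hc (.inl 1)
    have c2 := hc (.inr (.inl (v, 0)))
    simp [dt, ptH, gpc, ptL, pc] at c0 c1 c2
    rw [c0, mul_zero, zero_add] at c2
    funext i
    fin_cases i
    · exact c0
    · exact c1
    · exact c2
  · intro c hc
    obtain ⟨v⟩ := (inferInstance : Nonempty V)
    have c1 := hc (.inl 0)
    have c2 := hc (.inl 2)
    have c0 := hc (.inr (.inl (v, 0)))
    simp [dt, lnH, glc, lnL, lc] at c0 c1 c2
    rw [c2, mul_zero, neg_zero, add_zero] at c0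
    funext i
    fin_cases i
    · exact c0
    · exact c1
    · exact c2

/-- A colouring gives a realization. -/
theorem complete [Nonempty V] (col : V → Fin 3) (hcol : ∀ e, col (s e) ≠ col (t e))
    (hdup : ∀ e e', s e = s e' → t e = t e' → e = e') (hrev : ∀ e e', s e = t e' → t e = s e' → False) :
    ∃ x y A C, Good' (kp s t) (kf (V := V) (Ed := Ed)) x y A C := by
  obtain ⟨a, b, h⟩ := complete_hom col hcol hdup hrev
  exact affine_of_hom h

/-- An injective affine realization gives a colouring. -/
theorem sound_affine (hst : ∀ e, s e ≠ t e) {x y : PP V Ed → ℝ} {A C : FF V Ed → ℝ}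
    (hinc : ∀ k, A (kf k) * x (kp s t k) + y (kp s t k) + C (kf k) = 0)
    (hpi : ∀ i i', x i = x i' → y i = y i' → i = i') (hli : ∀ j j', A j = A j' → C j = C j' → j = j') :
    ∃ col : V → Fin 3, ∀ e, col (s e) ≠ col (t e) := by
  apply sound (a := fun i => ![x i, y i, 1]) (b := fun j => ![A j, 1, C j]) _ _ _ hst
  · intro k
    have := hinc k
    simp [dt]
    linarith
  · intro i i' h
    rw [Ne, sq_eq_zero_iff]
    rintro ⟨h1, h2, -⟩
    simp at h1 h2
    exact h (hpi i i' h2.symm h1)
  · intro i i' h
    rw [Ne, sq_eq_zero_iff]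
    rintro ⟨h1, -, h3⟩
    simp at h1 h3
    exact h (hli i i' h3 h1.symm)

end Pool.Agent.II95
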