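import Pool.Agent.II95.Norm
import Pool.Agent.II95.Ind

/-!
# Every realization with different points and different lines has independent rows
-/

namespace Pool.Agent.II95

open Finset

set_option linter.unusedSectionVars false

variable {V Ed : Type} [Fintype V] [Fintype Ed] [DecidableEq V] [DecidableEq Ed]
variable {s t : Ed → V} {a : PP V Ed → Ve} {b : FF V Ed → Ve}
  (inc : ∀ k, dt (a (kp s t k)) (b (kf k)) = 0) (pinj : ∀ i i', i ≠ i' → sq (a i) (a i') ≠ 0)
  (linj : ∀ j j', j ≠ j' → sq (b j) (b j') ≠ 0)

include inc pinj linj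

/-- The frame of a vertex. -/
theorem vert_frame (v : V) : ∃ (y : ℝ) (l e i : Ve), cub y = 0 ∧
    (∀ q : Fin 2 ⊕ Fin 9, Mul (co l e i (Sum.elim (fun c => a (.inl c)) (fun m => a (.inr (.inl (v, m)))) q))
      (Sum.elim gpc (pc y) q)) ∧
    ∀ q : Fin 3 ⊕ Fin 7, Mul (cl l e i (Sum.elim (fun c => b (.inl c)) (fun m => b (.inr (.inl (v, m)))) q))
      (Sum.elim glc (lc y) q) := by
  obtain ⟨α, β, hα, hβ, hw⟩ := frame inc pinj linj
  have i0 := inc (.inr (.inl (v, 0)))
  have i1 := inc (.inr (.inl (v, 1)))
  have i2 := inc (.inr (.inl (v, 2)))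
  have i3 := inc (.inr (.inl (v, 3)))
  have i4 := inc (.inr (.inl (v, 4)))
  have i5 := inc (.inr (.inl (v, 5)))
  have i6 := inc (.inr (.inl (v, 6)))
  have i7 := inc (.inr (.inl (v, 7)))
  have i8 := inc (.inr (.inl (v, 8)))
  have i9 := inc (.inr (.inl (v, 9)))
  have i10 := inc (.inr (.inl (v, 10)))
  have i11 := inc (.inr (.inl (v, 11)))
  have i12 := inc (.inr (.inl (v, 12)))
  have i13 := inc (.inr (.inl (v, 13)))
  have i14 := inc (.inr (.inl (v, 14)))
  have i15 := inc (.inr (.inl (v, 15)))
  have i16 := inc (.inr (.inl (v, 16)))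
  have i17 := inc (.inr (.inl (v, 17)))
  have i18 := inc (.inr (.inl (v, 18)))
  have i19 := inc (.inr (.inl (v, 19)))
  have i20 := inc (.inr (.inl (v, 20)))
  have i21 := inc (.inr (.inl (v, 21)))
  have i22 := inc (.inr (.inl (v, 22)))
  have i23 := inc (.inr (.inl (v, 23)))
  have i24 := inc (.inr (.inl (v, 24)))
  have i25 := inc (.inr (.inl (v, 25)))
  have i26 := inc (.inr (.inl (v, 26)))
  have i27 := inc (.inr (.inl (v, 27)))
  have i28 := inc (.inr (.inl (v, 28)))
  have i29 := inc (.inr (.inl (v, 29)))
  have iO : dt (a (.inl 0)) (b (.inl 2)) = 0 := by simpa [kp, kf] using inc (.inl 0)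
  have iZi : dt (a (.inl 1)) (b (.inl 2)) = 0 := by simpa [kp, kf] using inc (.inl 1)
  have iZe : dt (a (.inl 1)) (b (.inl 0)) = 0 := by simpa [kp, kf] using inc (.inl 2)
  simp only [kp, kf, vp, vl, Matrix.cons_val, Matrix.cons_val_zero, Matrix.cons_val_one, Sum.elim_inl,
    Sum.elim_inr] at i0 i1 i2 i3 i4 i5 i6 i7 i8 i9 i10 i11 i12 i13 i14 i15 i16 i17 i18 i19 i20 i21 i22 i23 i24 i25 i26 i27 i28 i29
  obtain ⟨-, y, l, e, i, -, hy, h1, h2, h3, h4, h5, h6, h7⟩ := normal hα hβ (p := fun m => a (.inr (.inl (v, m))))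
    (g := fun m => b (.inr (.inl (v, m))))
    (O := a (.inl 0)) (Z := a (.inl 1)) hw (fun m => pne inc pinj linj _)
    (fun m => lne inc pinj linj _) (pne inc pinj linj _) (pne inc pinj linj _) (lne inc pinj linj _)
    (lne inc pinj linj _) (lne inc pinj linj _) (pinj _ _ (by simp)) (linj _ _ (by simp))
    (linj _ _ (by simp)) (linj _ _ (by simp)) (linj _ _ (by simp)) (pinj _ _ (by simp)) iO iZi iZe i0 i1 i2 i3 i4 i5
    i6 i7 i8 i9 i10 i11 i12 i13 i14 i15 i16 i17 i18 i19 i20 i21 i22 i23 i24 i25 i26 i27 i28 i29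
  refine ⟨y, l, e, i, hy, ?_, ?_⟩
  · rintro (c | m)
    · fin_cases c
      · exact h3
      · exact h4
    · exact h1 m
  · rintro (c | m)
    · fin_cases c
      · exact h5
      · exact h6
      · exact h7
    · exact h2 m

/-- Every realization has independent rows. -/
theorem ind_inj (hne : ∀ e, s e ≠ t e) (g : KK V Ed → ℝ)
    (hp : ∀ i, ∀ c : Fin 3, ∑ k, (if kp s t k = i then g k * b (kf k) c else 0) = 0)
    (hl : ∀ j, ∀ c : Fin 3, ∑ k, (if kf k = j then g k * a (kp s t k) c else 0) = 0) :
    ∀ k, g k = 0 := by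
  -- edges
  have hE : ∀ e k, g (.inr (.inr (e, k))) = 0 := by
    intro e
    have r : ∀ c : Fin 3, g (.inr (.inr (e, 3))) * a (.inl 1) c +
        g (.inr (.inr (e, 4))) * a (.inr (.inr e)) c = 0 := by
      intro c
      have h := hl (.inr (.inr (e, 1))) c
      rw [sum_if_list _ [.inr (.inr (e, 3)), .inr (.inr (e, 4))] (by simp) (by
        rintro (k | ⟨v, k⟩ | ⟨e', k⟩)
        · simp [kf]
        · simp only [kf]
          rcases vl k with c | m <;> simp
        · fin_cases k <;> simp [kf])] at h
      simpa [kp] using h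
    obtain ⟨g3, g4⟩ := two_term (pinj _ _ (by simp)) (r 0) (r 1) (r 2)
    have Y : ∀ c : Fin 3, g (.inr (.inr (e, 2))) * b (.inr (.inr (e, 0))) c +
        g (.inr (.inr (e, 4))) * b (.inr (.inr (e, 1))) c = 0 := by
      intro c
      have h := hp (.inr (.inr e)) c
      rw [sum_if_list _ [.inr (.inr (e, 2)), .inr (.inr (e, 4))] (by simp) (by
        rintro (k | ⟨v, k⟩ | ⟨e', k⟩)
        · simp [kp]
        · simp only [kp]
          rcases vp k with c | m <;> simp
        · fin_cases k <;> simp [kp])] at h
      simpa [kf] using h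
    obtain ⟨g2, -⟩ := two_term (linj _ _ (by simp)) (Y 0) (Y 1) (Y 2)
    have K : ∀ c : Fin 3, g (.inr (.inr (e, 0))) * a (.inr (.inl (s e, 4))) c +
        g (.inr (.inr (e, 1))) * a (.inr (.inl (t e, 4))) c = 0 := by
      intro c
      have h := hl (.inr (.inr (e, 0))) c
      rw [sum_if_list _ [.inr (.inr (e, 0)), .inr (.inr (e, 1)), .inr (.inr (e, 2))] (by simp) (by
        rintro (k | ⟨v, k⟩ | ⟨e', k⟩)
        · simp [kf]
        · simp only [kf]
          rcases vl k with c | m <;> simp
        · fin_cases k <;> simp [kf])] at h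
      simp only [List.map_cons, List.map_nil, List.sum_cons, List.sum_nil, g2] at h
      simpa [kp] using h
    obtain ⟨g0, g1⟩ := two_term (pinj _ _ (by simpa using hne e)) (K 0) (K 1) (K 2)
    intro k
    fin_cases k
    · exact g0
    · exact g1
    · exact g2
    · exact g3
    · exact g4
  -- selectors
  have hV : ∀ v k, g (.inr (.inl (v, k))) = 0 := by
    intro v
    obtain ⟨y, l, e, i, hy, h1, h2⟩ := vert_frame inc pinj linj v
    choose ν hν hν' using h1
    choose μ hμ hμ' using h2
    have hkp : ∀ k, a (kp s t (.inr (.inl (v, k)))) =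
        Sum.elim (fun c => a (.inl c)) (fun m => a (.inr (.inl (v, m)))) (vp k) := by
      intro k
      simp only [kp]
      rcases vp k with c | m <;> rfl
    have hkf : ∀ k, b (kf (.inr (.inl (v, k)))) =
        Sum.elim (fun c => b (.inl c)) (fun m => b (.inr (.inl (v, m)))) (vl k) := by
      intro k
      simp only [kf]
      rcases vl k with c | m <;> rfl
    have key := local_stress y hy (fun k => g (.inr (.inl (v, k))) * ν (vp k) * μ (vl k)) ?_ ?_
    · intro k
      have h := key k
      simp only [mul_eq_zero] at h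
      exact (h.resolve_right (hμ _)).resolve_right (hν _)
    · intro m c
      have h : ∀ c, ∑ k, (if vp k = .inr m then g (.inr (.inl (v, k))) * b (kf (.inr (.inl (v, k)))) c else 0) = 0 := by
        intro c
        refine Eq.trans ?_ ((sum_vert _ _ v ?_ ?_ ?_).symm.trans (hp (.inr (.inl (v, m))) c))
        · apply Finset.sum_congr rfl
          intro k _
          have : (kp s t (.inr (.inl (v, k))) = .inr (.inl (v, m))) ↔ vp k = .inr m := by
            simp only [kp]
            rcases vp k with c' | m' <;> simp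
          simp only [this]
        · intro k hk
          simp [kp] at hk
        · intro v' k hk
          simp only [kp] at hk
          rcases h : vp k with c' | m' <;> rw [h] at hk <;> simp at hk
          exact hk.1
        · intro e k _
          rw [hE, zero_mul]
      obtain ⟨w, hw⟩ := cl_lin l e i c
      have e1 : ∑ k, (if vp k = .inr m then g (.inr (.inl (v, k))) * ν (vp k) * μ (vl k) *
          (Sum.elim glc (lc y) (vl k)) c else 0) =
          ν (.inr m) * w 0 * ∑ k, (if vp k = .inr m then g (.inr (.inl (v, k))) * b (kf (.inr (.inl (v, k)))) 0 else 0) +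
          ν (.inr m) * w 1 * ∑ k, (if vp k = .inr m then g (.inr (.inl (v, k))) * b (kf (.inr (.inl (v, k)))) 1 else 0) +
          ν (.inr m) * w 2 * ∑ k, (if vp k = .inr m then g (.inr (.inl (v, k))) * b (kf (.inr (.inl (v, k)))) 2 else 0) := by
        rw [Finset.mul_sum, Finset.mul_sum, Finset.mul_sum, ← Finset.sum_add_distrib, ← Finset.sum_add_distrib]
        apply Finset.sum_congr rfl
        intro k _
        split_ifs with hk
        · have h3 := congrFun (hμ' (vl k)) c
          rw [hw, ← hkf] at h3
          rw [Pi.smul_apply, smul_eq_mul] at h3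
          rw [hk]
          linear_combination -(g (.inr (.inl (v, k))) * ν (.inr m)) * h3
        · ring
      rw [e1, h 0, h 1, h 2]
      ring
    · intro m c
      have h : ∀ c, ∑ k, (if vl k = .inr m then g (.inr (.inl (v, k))) * a (kp s t (.inr (.inl (v, k)))) c else 0) = 0 := by
        intro c
        refine Eq.trans ?_ ((sum_vert _ _ v ?_ ?_ ?_).symm.trans (hl (.inr (.inl (v, m))) c))
        · apply Finset.sum_congr rfl
          intro k _
          have : (kf (.inr (.inl (v, k))) = (.inr (.inl (v, m)) : FF V Ed)) ↔ vl k = .inr m := by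
            simp only [kf]
            rcases vl k with c' | m' <;> simp
          simp only [this]
        · intro k hk
          simp [kf] at hk
        · intro v' k hk
          simp only [kf] at hk
          rcases h : vl k with c' | m' <;> rw [h] at hk <;> simp at hk
          exact hk.1
        · intro e k _
          rw [hE, zero_mul]
      obtain ⟨w, hw⟩ := co_lin l e i c
      have e1 : ∑ k, (if vl k = .inr m then g (.inr (.inl (v, k))) * ν (vp k) * μ (vl k) *
          (Sum.elim gpc (pc y) (vp k)) c else 0) =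
          μ (.inr m) * w 0 * ∑ k, (if vl k = .inr m then g (.inr (.inl (v, k))) * a (kp s t (.inr (.inl (v, k)))) 0 else 0) +
          μ (.inr m) * w 1 * ∑ k, (if vl k = .inr m then g (.inr (.inl (v, k))) * a (kp s t (.inr (.inl (v, k)))) 1 else 0) +
          μ (.inr m) * w 2 * ∑ k, (if vl k = .inr m then g (.inr (.inl (v, k))) * a (kp s t (.inr (.inl (v, k)))) 2 else 0) := by
        rw [Finset.mul_sum, Finset.mul_sum, Finset.mul_sum, ← Finset.sum_add_distrib, ← Finset.sum_add_distrib]
        apply Finset.sum_congr rfl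
        intro k _
        split_ifs with hk
        · have h3 := congrFun (hν' (vp k)) c
          rw [hw, ← hkp] at h3
          rw [Pi.smul_apply, smul_eq_mul] at h3
          rw [hk]
          linear_combination -(g (.inr (.inl (v, k))) * μ (.inr m)) * h3
        · ring
      rw [e1, h 0, h 1, h 2]
      ring
  -- the global incidences
  have hG : ∀ k, g (.inl k) = 0 := by
    have zero_of : ∀ {x : ℝ} {w : Ve}, w ≠ 0 → (∀ c, x * w c = 0) → x = 0 := by
      intro x w hw h
      by_contra hx
      exact hw (funext fun c => (mul_eq_zero.1 (h c)).resolve_left hx)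
    have g0 : g (.inl 0) = 0 := by
      apply zero_of (lne inc pinj linj (.inl 2))
      intro c
      have h := hp (.inl 0) c
      rw [sum_glob _ _ (fun v k => by rw [hV, zero_mul]) (fun e k => by rw [hE, zero_mul])] at h
      simpa [Fin.sum_univ_four, kp, kf] using h
    have g2 : g (.inl 2) = 0 := by
      apply zero_of (pne inc pinj linj (.inl 1))
      intro c
      have h := hl (.inl 0) c
      rw [sum_glob _ _ (fun v k => by rw [hV, zero_mul]) (fun e k => by rw [hE, zero_mul])] at h
      simpa [Fin.sum_univ_four, kp, kf] using h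
    have g3 : g (.inl 3) = 0 := by
      apply zero_of (pne inc pinj linj (.inl 1))
      intro c
      have h := hl (.inl 1) c
      rw [sum_glob _ _ (fun v k => by rw [hV, zero_mul]) (fun e k => by rw [hE, zero_mul])] at h
      simpa [Fin.sum_univ_four, kp, kf] using h
    have g1 : g (.inl 1) = 0 := by
      apply zero_of (pne inc pinj linj (.inl 1))
      intro c
      have h := hl (.inl 2) c
      rw [sum_glob _ _ (fun v k => by rw [hV, zero_mul]) (fun e k => by rw [hE, zero_mul])] at h
      simpa [Fin.sum_univ_four, kp, kf, g0] using h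
    intro k
    fin_cases k
    · exact g0
    · exact g1
    · exact g2
    · exact g3
  rintro (k | ⟨v, k⟩ | ⟨e, k⟩)
  · exact hG k
  · exact hV v k
  · exact hE e k

omit inc pinj linj in
/-- Every affine realization with different points and different lines is non-degenerate with independent rows. -/
theorem good_affine [Nonempty V] (hne : ∀ e, s e ≠ t e) {x y : PP V Ed → ℝ} {A C : FF V Ed → ℝ}
    (hinc : ∀ k, A (kf k) * x (kp s t k) + y (kp s t k) + C (kf k) = 0)
    (hpi : ∀ i i', x i = x i' → y i = y i' → i = i') (hli : ∀ j j', A j = A j' → C j = C j' → j = j') :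
    Pool.Agent.IncInd.Good (kp s t) (kf (V := V) (Ed := Ed)) x y A C := by
  obtain ⟨a, ha⟩ : ∃ a : PP V Ed → Ve, a = fun i => ![x i, y i, 1] := ⟨_, rfl⟩
  obtain ⟨b, hb⟩ : ∃ b : FF V Ed → Ve, b = fun j => ![A j, 1, C j] := ⟨_, rfl⟩
  have inc : ∀ k, dt (a (kp s t k)) (b (kf k)) = 0 := by
    intro k
    have := hinc k
    simp [dt, ha, hb]
    linarith
  have pinj : ∀ i i', i ≠ i' → sq (a i) (a i') ≠ 0 := by
    intro i i' h
    rw [Ne, sq_eq_zero_iff]
    rintro ⟨h1, h2, -⟩
    simp [ha] at h1 h2
    exact h (hpi i i' h2.symm h1)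
  have linj : ∀ j j', j ≠ j' → sq (b j) (b j') ≠ 0 := by
    intro i i' h
    rw [Ne, sq_eq_zero_iff]
    rintro ⟨h1, -, h3⟩
    simp [hb] at h1 h3
    exact h (hli i i' h3 h1.symm)
  obtain ⟨v⟩ := (inferInstance : Nonempty V)
  have iOi : dt (a (.inl 0)) (b (.inl 2)) = 0 := by simpa [kp, kf] using inc (.inl 0)
  have iZi : dt (a (.inl 1)) (b (.inl 2)) = 0 := by simpa [kp, kf] using inc (.inl 1)
  have iZe : dt (a (.inl 1)) (b (.inl 0)) = 0 := by simpa [kp, kf] using inc (.inl 2)
  have iOl : dt (a (.inl 0)) (b (.inr (.inl (v, 0)))) = 0 := by simpa [kp, kf, vp, vl] using inc (.inr (.inl (v, 0)))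
  have iEe : dt (a (.inr (.inl (v, 0)))) (b (.inl 0)) = 0 := by simpa [kp, kf, vp, vl] using inc (.inr (.inl (v, 2)))
  refine ⟨hinc, ?_, ?_, ?_⟩
  · rintro ⟨a', b', c', hab, hh⟩
    obtain ⟨m, hm⟩ : ∃ m : Ve, m = ![a', b', c'] := ⟨_, rfl⟩
    have hdm : ∀ i, dt (a i) m = 0 := by
      intro i
      have := hh i
      simp [dt, ha, hm]
      linarith
    have hOZ : sq (a (.inl 0)) (a (.inl 1)) ≠ 0 := pinj _ _ (by simp)
    have h1 := two_points hOZ (hdm _) (hdm _) iOi iZi
    obtain ⟨κ, hκ⟩ := prop_of_sq (lne inc pinj linj (.inl 2)) h1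
    have hκ0 : κ ≠ 0 := by
      rintro rfl
      have e0 := congrFun hκ 0
      have e1 := congrFun hκ 1
      simp [hm] at e0 e1
      rcases hab with h | h
      · exact h e0
      · exact h e1
    have h2 : dt (a (.inr (.inl (v, 0)))) (b (.inl 2)) = 0 := by
      have h3 := hdm (.inr (.inl (v, 0)))
      rw [hκ] at h3
      have h4 : dt (a (.inr (.inl (v, 0)))) (κ • b (.inl 2)) = κ * dt (a (.inr (.inl (v, 0)))) (b (.inl 2)) := by
        simp only [dt, Pi.smul_apply, smul_eq_mul]
        ring
      rw [h4] at h3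
      exact (mul_eq_zero.1 h3).resolve_left hκ0
    apply pinj (.inr (.inl (v, 0))) (.inl 1) (by simp)
    exact two_points (linj (.inl 0) (.inl 2) (by simp)) (by rw [dt_comm]; exact iEe) (by rw [dt_comm]; exact h2)
      (by rw [dt_comm]; exact iZe) (by rw [dt_comm]; exact iZi)
  · rintro ⟨u, w, hh⟩
    obtain ⟨P, hP⟩ : ∃ P : Ve, P = ![u, w, 1] := ⟨_, rfl⟩
    have hdP : ∀ j, dt P (b j) = 0 := by
      intro j
      have := hh j
      simp [dt, hb, hP]
      linarith
    have h1 : sq P (a (.inl 1)) = 0 := two_points (linj (.inl 0) (.inl 2) (by simp))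
      (by rw [dt_comm]; exact hdP _) (by rw [dt_comm]; exact hdP _) (by rw [dt_comm]; exact iZe)
      (by rw [dt_comm]; exact iZi)
    obtain ⟨κ, hκ⟩ := prop_of_sq (pne inc pinj linj (.inl 1)) h1
    have hκ0 : κ ≠ 0 := by
      rintro rfl
      have e0 := congrFun hκ 2
      simp [hP] at e0
    have h2 : dt (a (.inl 1)) (b (.inr (.inl (v, 0)))) = 0 := by
      have h3 := hdP (.inr (.inl (v, 0)))
      rw [hκ] at h3
      have h4 : dt (κ • a (.inl 1)) (b (.inr (.inl (v, 0)))) = κ * dt (a (.inl 1)) (b (.inr (.inl (v, 0)))) := by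
        simp only [dt, Pi.smul_apply, smul_eq_mul]
        ring
      rw [h4] at h3
      exact (mul_eq_zero.1 h3).resolve_left hκ0
    apply linj (.inr (.inl (v, 0))) (.inl 2) (by simp)
    exact two_points (pinj (.inl 0) (.inl 1) (by simp)) iOl h2 iOi iZi
  · rintro g ⟨g1, g2, g3, g4⟩
    apply ind_inj inc pinj linj hne g
    · intro i c
      fin_cases c
      · simpa [hb] using g1 i
      · simpa [hb] using g2 i
      · have e : ∀ k, (if kp s t k = i then g k * C (kf k) else 0) =
            - x i * (if kp s t k = i then g k * A (kf k) else 0) - y i * (if kp s t k = i then g k else 0) := by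
          intro k
          split_ifs with hk
          · have := hinc k
            rw [hk] at this
            linear_combination g k * this
          · ring
        have h5 : ∑ k, (if kp s t k = i then g k * C (kf k) else 0) = 0 := by
          rw [Finset.sum_congr rfl fun k _ => e k, Finset.sum_sub_distrib, ← Finset.mul_sum, ← Finset.mul_sum,
            g1 i, g2 i]
          ring
        simpa [hb] using h5
    · intro j c
      fin_cases c
      · simpa [ha] using g3 j
      · have e : ∀ k, (if kf k = j then g k * y (kp s t k) else 0) =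
            - A j * (if kf k = j then g k * x (kp s t k) else 0) - C j * (if kf k = j then g k else 0) := by
          intro k
          split_ifs with hk
          · have := hinc k
            rw [hk] at this
            linear_combination g k * this
          · ring
        have h5 : ∑ k, (if kf k = j then g k * y (kp s t k) else 0) = 0 := by
          rw [Finset.sum_congr rfl fun k _ => e k, Finset.sum_sub_distrib, ← Finset.mul_sum, ← Finset.mul_sum,
            g3 j, g4 j]
          ring
        simpa [ha] using h5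
      · simpa [ha] using g4 j

end Pool.Agent.II95
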