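import Pool.Agent.II95.Gen
import Mathlib.Topology.Order.IntermediateValue
import Mathlib.Topology.Algebra.Polynomial

/-!
# The selector
-/

namespace Pool.Agent.II95

open Finset

/-- The cubic of the selector. -/
def cub (y : ℝ) : ℝ := y ^ 3 - 2 * y ^ 2 - y + 1

/-- Three different real roots. -/
theorem exists_roots : ∃ ρ : Fin 3 → ℝ, Function.Injective ρ ∧ (∀ c, cub (ρ c) = 0) ∧
    ∀ y, cub y = 0 → ∃ c, y = ρ c := by
  have hc : Continuous cub := by
    unfold cub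
    fun_prop
  obtain ⟨r0, hr0, h0⟩ := intermediate_value_Icc (f := cub) (a := -1) (b := 0) (by norm_num)
    hc.continuousOn (show (0 : ℝ) ∈ Set.Icc (cub (-1)) (cub 0) from ⟨by norm_num [cub], by norm_num [cub]⟩)
  obtain ⟨r1, hr1, h1⟩ := intermediate_value_Icc' (f := cub) (a := 0) (b := 1) (by norm_num)
    hc.continuousOn (show (0 : ℝ) ∈ Set.Icc (cub 1) (cub 0) from ⟨by norm_num [cub], by norm_num [cub]⟩)
  obtain ⟨r2, hr2, h2⟩ := intermediate_value_Icc (f := cub) (a := 1) (b := 3) (by norm_num)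
    hc.continuousOn (show (0 : ℝ) ∈ Set.Icc (cub 1) (cub 3) from ⟨by norm_num [cub], by norm_num [cub]⟩)
  have n0 : r0 ≠ 0 := by rintro rfl; norm_num [cub] at h0
  have n1 : r1 ≠ 0 := by rintro rfl; norm_num [cub] at h1
  have n1' : r1 ≠ 1 := by rintro rfl; norm_num [cub] at h1
  have n2 : r2 ≠ 1 := by rintro rfl; norm_num [cub] at h2
  have l01 : r0 < r1 := lt_of_lt_of_le (lt_of_le_of_ne hr0.2 n0) hr1.1
  have l12 : r1 < r2 := lt_of_lt_of_le (lt_of_le_of_ne hr1.2 n1') hr2.1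
  have hinj : Function.Injective ![r0, r1, r2] := by
    have l02 := l01.trans l12
    intro c c' h
    fin_cases c <;> fin_cases c' <;> simp at h ⊢
    · exact l01.ne h
    · exact l02.ne h
    · exact l01.ne' h
    · exact l12.ne h
    · exact l02.ne' h
    · exact l12.ne' h
  refine ⟨![r0, r1, r2], hinj, ?_, ?_⟩
  · intro c
    fin_cases c
    · exact h0
    · exact h1
    · exact h2
  · intro y hy
    unfold cub at h0 h1 h2 hy
    -- the sum and the products of the roots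
    have d01 : r0 - r1 ≠ 0 := sub_ne_zero.2 l01.ne
    have d02 : r0 - r2 ≠ 0 := sub_ne_zero.2 (l01.trans l12).ne
    have d12 : r1 - r2 ≠ 0 := sub_ne_zero.2 l12.ne
    have e01 : r0 ^ 2 + r0 * r1 + r1 ^ 2 - 2 * (r0 + r1) - 1 = 0 := by
      apply mul_left_cancel₀ d01
      linear_combination h0 - h1
    have e02 : r0 ^ 2 + r0 * r2 + r2 ^ 2 - 2 * (r0 + r2) - 1 = 0 := by
      apply mul_left_cancel₀ d02
      linear_combination h0 - h2
    have e : r0 + r1 + r2 - 2 = 0 := by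
      apply mul_left_cancel₀ d12
      linear_combination e01 - e02
    have hfac : (y - r0) * ((y - r1) * (y - r2)) = 0 := by
      have hr : r2 = 2 - r0 - r1 := by linarith
      subst hr
      linear_combination hy - h0 - (y - r0) * e01
    rcases mul_eq_zero.1 hfac with h | h
    · exact ⟨0, by simpa using sub_eq_zero.1 h⟩
    · rcases mul_eq_zero.1 h with h | h
      · exact ⟨1, by simpa using sub_eq_zero.1 h⟩
      · exact ⟨2, by simpa using sub_eq_zero.1 h⟩

/-- Local coordinates of the points of the selector. -/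
def pc (y : ℝ) : Fin 9 → Ve :=
  ![![0, 0, 1], ![0, 1, 1], ![1, 0, 1], ![1, 1, 1], ![0, y, 1], ![1, 1, 0], ![-1, y - 1, 0],
    ![y - 1, 2 * y - y ^ 2, 1], ![y, 0, y - 1]]
/-- Local coordinates of the lines of the selector. -/
def lc (y : ℝ) : Fin 7 → Ve :=
  ![![1, 0, 0], ![1, 0, -1], ![-1, 1, 0], ![1 - y, -1, y], ![-y, -1, y], ![1 - y, -1, 1],
    ![-1, 1, y ^ 2 - y - 1]]
/-- The global points. -/
def gpc : Fin 2 → Ve := ![![0, 1, 0], ![1, 0, 0]]
/-- The global lines. -/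
def glc : Fin 3 → Ve := ![![0, 1, 0], ![0, 1, -1], ![0, 0, 1]]

/-- Points of the incidences of the selector. -/
def vp : Fin 30 → Fin 2 ⊕ Fin 9 :=
  ![.inl 0, .inl 0, .inr 0, .inr 2, .inr 8, .inr 1, .inr 3, .inr 5, .inr 6, .inr 0, .inr 1, .inr 4, .inr 2, .inr 3, .inr 0, .inr 3, .inr 5, .inr 4, .inr 3, .inr 6, .inr 8, .inr 4, .inr 2, .inr 7, .inr 1, .inr 6, .inr 7, .inr 5, .inr 7, .inr 8]
/-- Lines of the incidences of the selector. -/
def vl : Fin 30 → Fin 3 ⊕ Fin 7 :=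
  ![.inr 0, .inr 1, .inl 0, .inl 0, .inl 0, .inl 1, .inl 1, .inl 2, .inl 2, .inr 0, .inr 0, .inr 0, .inr 1, .inr 1, .inr 2, .inr 2, .inr 2, .inr 3, .inr 3, .inr 3, .inr 3, .inr 4, .inr 4, .inr 4, .inr 5, .inr 5, .inr 5, .inr 6, .inr 6, .inr 6]

theorem local_inc (y : ℝ) (hy : cub y = 0) (k : Fin 30) :
    dt (Sum.elim gpc (pc y) (vp k)) (Sum.elim glc (lc y) (vl k)) = 0 := by
  unfold cub at hy
  fin_cases k <;> simp [vp, vl, pc, lc, gpc, glc, dt] <;>
    first | ring1 | linear_combination hy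

/-- The scalar equations of a stress of the selector. -/
theorem stress_aux (y : ℝ) (hy : cub y = 0)
    (g0 g1 g2 g3 g4 g5 g6 g7 g8 g9 g10 g11 g12 g13 g14 g15 g16 g17 g18 g19 g20 g21 g22 g23 g24 g25 g26 g27
      g28 g29 : ℝ)
    (a1 : g9 - g14 = 0) (a2 : g2 + g14 = 0)
    (b1 : g10 + (1 - y) * g24 = 0) (b2 : g5 - g24 = 0)
    (c1 : g12 - y * g22 = 0) (c2 : g3 - g22 = 0)
    (d2 : g6 + g15 - g18 = 0)
    (x1 : g11 + (1 - y) * g17 - y * g21 = 0) (x2 : g17 + g21 = 0)
    (D1 : g16 + g27 = 0) (D2 : g7 + (y ^ 2 - y - 1) * g27 = 0)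
    (F1 : g19 + g25 = 0) (F2 : g8 + y * g19 + g25 = 0)
    (Q1 : - y * g23 + (1 - y) * g26 - g28 = 0) (Q2 : g28 - g23 - g26 = 0)
    (R2 : g4 - g20 + g29 = 0)
    (l1 : g9 + g10 + g11 = 0) (l2 : g0 + g10 + y * g11 = 0)
    (m1 : g12 + g13 = 0) (m2 : g1 + g13 = 0)
    (n1 : g15 + g16 = 0) (n2 : g14 + g15 = 0)
    (o1 : g18 - g19 + y * g20 = 0) (o2 : g17 + g18 + (y - 1) * g20 = 0)
    (p1 : g22 + (y - 1) * g23 = 0) (p2 : y * g21 + (2 * y - y ^ 2) * g23 = 0)
    (q1 : - g25 + (y - 1) * g26 = 0) (q2 : g24 + g26 = 0)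
    (r1 : g27 + (y - 1) * g28 + y * g29 = 0) (r2 : g27 + (2 * y - y ^ 2) * g28 = 0) :
    (g0 = 0 ∧ g1 = 0 ∧ g2 = 0 ∧ g3 = 0 ∧ g4 = 0 ∧ g5 = 0 ∧ g6 = 0 ∧ g7 = 0 ∧ g8 = 0 ∧ g9 = 0) ∧
    (g10 = 0 ∧ g11 = 0 ∧ g12 = 0 ∧ g13 = 0 ∧ g14 = 0 ∧ g15 = 0 ∧ g16 = 0 ∧ g17 = 0 ∧ g18 = 0 ∧ g19 = 0) ∧
    (g20 = 0 ∧ g21 = 0 ∧ g22 = 0 ∧ g23 = 0 ∧ g24 = 0 ∧ g25 = 0 ∧ g26 = 0 ∧ g27 = 0 ∧ g28 = 0 ∧ g29 = 0) := by
  have hy0 : y ≠ 0 := by rintro rfl; norm_num [cub] at hy
  unfold cub at hy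
  obtain ⟨κ, rfl⟩ : ∃ κ, g23 = y * κ := ⟨g23 / y, by field_simp⟩
  have h26 : g26 = - (1 + y) * κ := by
    apply mul_left_cancel₀ hy0
    linear_combination - Q1 - Q2
  have h28 : g28 = - κ := by linear_combination Q2 + h26
  have h27 : g27 = (2 * y - y ^ 2) * κ := by linear_combination r2 - (2 * y - y ^ 2) * h28
  have h16 : g16 = - (2 * y - y ^ 2) * κ := by linear_combination D1 - h27
  have h15 : g15 = (2 * y - y ^ 2) * κ := by linear_combination n1 - h16
  have h14 : g14 = - (2 * y - y ^ 2) * κ := by linear_combination n2 - h15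
  have h9 : g9 = - (2 * y - y ^ 2) * κ := by linear_combination a1 + h14
  have h21 : g21 = - (2 * y - y ^ 2) * κ := by
    apply mul_left_cancel₀ hy0
    linear_combination p2
  have h17 : g17 = (2 * y - y ^ 2) * κ := by linear_combination x2 - h21
  have h11 : g11 = - (2 * y - y ^ 2) * κ := by linear_combination x1 - (1 - y) * h17 + y * h21
  have h24 : g24 = (1 + y) * κ := by linear_combination q2 - h26
  have h10 : g10 = - (1 - y) * (1 + y) * κ := by linear_combination b1 - (1 - y) * h24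
  have hκ : κ = 0 := by
    have h1 : (3 * y ^ 2 - 4 * y - 1) * κ = 0 := by linear_combination l1 - h9 - h10 - h11
    have h2 : 7 * κ = 0 := by
      linear_combination (2 * y ^ 2 - 3 * y - 2) * h1 - (6 * y - 5) * κ * hy
    linarith
  subst hκ
  simp only [mul_zero, neg_zero, add_zero, sub_zero, zero_add] at *
  subst h26 h28 h27 h16 h15 h14 h9 h21 h17 h11 h24 h10
  simp only [mul_zero, neg_zero, add_zero, sub_zero, zero_add, neg_eq_zero] at *
  subst q1 p1
  simp only [mul_zero, neg_zero, add_zero, sub_zero, zero_add, neg_eq_zero] at *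
  have h29 : g29 = 0 := (mul_eq_zero.1 r1).resolve_left hy0
  subst h29 F1
  simp only [mul_zero, neg_zero, add_zero, sub_zero, zero_add, neg_eq_zero] at *
  have h20 : g20 = 0 := by linear_combination o1 - o2
  subst h20
  simp only [mul_zero, neg_zero, add_zero, sub_zero, zero_add, neg_eq_zero] at *
  subst o1 c1
  simp only [mul_zero, neg_zero, add_zero, sub_zero, zero_add, neg_eq_zero] at *
  subst m1
  simp_all

/-- Incidences at the points. -/
def atP : Fin 9 → List (Fin 30) := ![[2, 9, 14], [5, 10, 24], [3, 12, 22], [6, 13, 15, 18], [11, 17, 21], [7, 16, 27], [8, 19, 25], [23, 26, 28], [4, 20, 29]]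
/-- Incidences at the lines. -/
def atL : Fin 7 → List (Fin 30) := ![[0, 9, 10, 11], [1, 12, 13], [14, 15, 16], [17, 18, 19, 20], [21, 22, 23], [24, 25, 26], [27, 28, 29]]

theorem sumP (m : Fin 9) (F : Fin 30 → ℝ) :
    ∑ k, (if vp k = .inr m then F k else 0) = ((atP m).map F).sum := by
  have h : ∀ m, (univ.filter fun k => vp k = .inr m) = (atP m).toFinset ∧ (atP m).Nodup := by decide
  rw [← Finset.sum_filter, (h m).1, List.sum_toFinset _ (h m).2]

theorem sumL (m : Fin 7) (F : Fin 30 → ℝ) :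
    ∑ k, (if vl k = .inr m then F k else 0) = ((atL m).map F).sum := by
  have h : ∀ m, (univ.filter fun k => vl k = .inr m) = (atL m).toFinset ∧ (atL m).Nodup := by decide
  rw [← Finset.sum_filter, (h m).1, List.sum_toFinset _ (h m).2]

/-- The selector has no stress. -/
theorem local_stress (y : ℝ) (hy : cub y = 0) (g : Fin 30 → ℝ)
    (hP : ∀ m : Fin 9, ∀ c : Fin 3,
      ∑ k, (if vp k = .inr m then g k * (Sum.elim glc (lc y) (vl k)) c else 0) = 0)
    (hL : ∀ m : Fin 7, ∀ c : Fin 3,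
      ∑ k, (if vl k = .inr m then g k * (Sum.elim gpc (pc y) (vp k)) c else 0) = 0) : ∀ k, g k = 0 := by
  simp only [sumP, sumL] at hP hL
  have a1 : g 9 - g 14 = 0 := by
    have h := hP 0 0
    simp [atP, atL, vp, vl, pc, lc, gpc, glc] at h
    linarith
  have a2 : g 2 + g 14 = 0 := by
    have h := hP 0 1
    simp [atP, atL, vp, vl, pc, lc, gpc, glc] at h
    linarith
  have b1 : g 10 + (1 - y) * g 24 = 0 := by
    have h := hP 1 0
    simp [atP, atL, vp, vl, pc, lc, gpc, glc] at h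
    linarith
  have b2 : g 5 - g 24 = 0 := by
    have h := hP 1 1
    simp [atP, atL, vp, vl, pc, lc, gpc, glc] at h
    linarith
  have c1 : g 12 - y * g 22 = 0 := by
    have h := hP 2 0
    simp [atP, atL, vp, vl, pc, lc, gpc, glc] at h
    linarith
  have c2 : g 3 - g 22 = 0 := by
    have h := hP 2 1
    simp [atP, atL, vp, vl, pc, lc, gpc, glc] at h
    linarith
  have d2 : g 6 + g 15 - g 18 = 0 := by
    have h := hP 3 1
    simp [atP, atL, vp, vl, pc, lc, gpc, glc] at h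
    linarith
  have x1 : g 11 + (1 - y) * g 17 - y * g 21 = 0 := by
    have h := hP 4 0
    simp [atP, atL, vp, vl, pc, lc, gpc, glc] at h
    linarith
  have x2 : g 17 + g 21 = 0 := by
    have h := hP 4 1
    simp [atP, atL, vp, vl, pc, lc, gpc, glc] at h
    linarith
  have D1 : g 16 + g 27 = 0 := by
    have h := hP 5 0
    simp [atP, atL, vp, vl, pc, lc, gpc, glc] at h
    linarith
  have D2 : g 7 + (y ^ 2 - y - 1) * g 27 = 0 := by
    have h := hP 5 2
    simp [atP, atL, vp, vl, pc, lc, gpc, glc] at h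
    linarith
  have F1 : g 19 + g 25 = 0 := by
    have h := hP 6 1
    simp [atP, atL, vp, vl, pc, lc, gpc, glc] at h
    linarith
  have F2 : g 8 + y * g 19 + g 25 = 0 := by
    have h := hP 6 2
    simp [atP, atL, vp, vl, pc, lc, gpc, glc] at h
    linarith
  have Q1 : - y * g 23 + (1 - y) * g 26 - g 28 = 0 := by
    have h := hP 7 0
    simp [atP, atL, vp, vl, pc, lc, gpc, glc] at h
    linarith
  have Q2 : g 28 - g 23 - g 26 = 0 := by
    have h := hP 7 1
    simp [atP, atL, vp, vl, pc, lc, gpc, glc] at h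
    linarith
  have R2 : g 4 - g 20 + g 29 = 0 := by
    have h := hP 8 1
    simp [atP, atL, vp, vl, pc, lc, gpc, glc] at h
    linarith
  have l1 : g 9 + g 10 + g 11 = 0 := by
    have h := hL 0 2
    simp [atP, atL, vp, vl, pc, lc, gpc, glc] at h
    linarith
  have l2 : g 0 + g 10 + y * g 11 = 0 := by
    have h := hL 0 1
    simp [atP, atL, vp, vl, pc, lc, gpc, glc] at h
    linarith
  have m1 : g 12 + g 13 = 0 := by
    have h := hL 1 0
    simp [atP, atL, vp, vl, pc, lc, gpc, glc] at h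
    linarith
  have m2 : g 1 + g 13 = 0 := by
    have h := hL 1 1
    simp [atP, atL, vp, vl, pc, lc, gpc, glc] at h
    linarith
  have n1 : g 15 + g 16 = 0 := by
    have h := hL 2 0
    simp [atP, atL, vp, vl, pc, lc, gpc, glc] at h
    linarith
  have n2 : g 14 + g 15 = 0 := by
    have h := hL 2 2
    simp [atP, atL, vp, vl, pc, lc, gpc, glc] at h
    linarith
  have o1 : g 18 - g 19 + y * g 20 = 0 := by
    have h := hL 3 0
    simp [atP, atL, vp, vl, pc, lc, gpc, glc] at h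
    linarith
  have o2 : g 17 + g 18 + (y - 1) * g 20 = 0 := by
    have h := hL 3 2
    simp [atP, atL, vp, vl, pc, lc, gpc, glc] at h
    linarith
  have p1 : g 22 + (y - 1) * g 23 = 0 := by
    have h := hL 4 0
    simp [atP, atL, vp, vl, pc, lc, gpc, glc] at h
    linarith
  have p2 : y * g 21 + (2 * y - y ^ 2) * g 23 = 0 := by
    have h := hL 4 1
    simp [atP, atL, vp, vl, pc, lc, gpc, glc] at h
    linarith
  have q1 : - g 25 + (y - 1) * g 26 = 0 := by
    have h := hL 5 0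
    simp [atP, atL, vp, vl, pc, lc, gpc, glc] at h
    linarith
  have q2 : g 24 + g 26 = 0 := by
    have h := hL 5 2
    simp [atP, atL, vp, vl, pc, lc, gpc, glc] at h
    linarith
  have r1 : g 27 + (y - 1) * g 28 + y * g 29 = 0 := by
    have h := hL 6 0
    simp [atP, atL, vp, vl, pc, lc, gpc, glc] at h
    linarith
  have r2 : g 27 + (2 * y - y ^ 2) * g 28 = 0 := by
    have h := hL 6 1
    simp [atP, atL, vp, vl, pc, lc, gpc, glc] at h
    linarith
  obtain ⟨⟨z0, z1, z2, z3, z4, z5, z6, z7, z8, z9⟩, ⟨z10, z11, z12, z13, z14, z15, z16, z17, z18, z19⟩,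
    z20, z21, z22, z23, z24, z25, z26, z27, z28, z29⟩ := stress_aux y hy _ _ _ _ _ _ _ _ _ _ _ _ _ _ _ _ _ _ _ _
    _ _ _ _ _ _ _ _ _ _ a1 a2 b1 b2 c1 c2 d2 x1 x2 D1 D2 F1 F2 Q1 Q2 R2 l1 l2 m1 m2 n1 n2 o1 o2 p1 p2 q1 q2 r1 r2
  intro k
  fin_cases k <;> assumption

end Pool.Agent.II95
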