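import Pool.Agent.II95.Red95
import Pool.Agent.Lib_MP_5661ce_lc.Main

/-!
# The reduction in polynomial time
-/

set_option linter.unusedSectionVars false

namespace Pool.Agent.II95

open Pool.Agent.PT81 Polynomial Turing
open Pool.Agent.IncInd (Inc Name Nm T W Gate dd Sym InNP PolyReduces VsG EsG gates gatesOf poly_VsG poly_EsG
  poly_gatesOf Poly.constMap Poly.nm Poly.inl Poly.inr Poly.dd code_inj' gatesOf_code pf_theta theta_spec theta)

noncomputable section

section

variable {E : Env} {γ : Type} [Enc E γ]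

theorem poly_knV (i : Fin 30) {v : γ → T} (hv : Poly E v) : Poly E (fun c => kn (.inr (.inl (v c, i)))) := by
  refine Poly.pair (f := fun c => Nm.nm (kp Prod.fst Prod.snd (.inr (.inl (v c, i)) : KN)))
    (g := fun c => Nm.nm (kf (.inr (.inl (v c, i)) : KN) : FN)) ?_ ?_
  · refine Poly.nm ?_
    simp only [kp]
    cases vp i with
    | inl s => exact Poly.const _
    | inr s => exact Poly.inr (Poly.inl (Poly.pair hv (Poly.const s)))
  · refine Poly.nm ?_
    simp only [kf]
    cases vl i with
    | inl s => exact Poly.const _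
    | inr s => exact Poly.inr (Poly.inl (Poly.pair hv (Poly.const s)))

theorem poly_knE (i : Fin 5) {e : γ → T × T} (he : Poly E e) : Poly E (fun c => kn (.inr (.inr (e c, i)))) := by
  have h1 : Poly E (fun c => (e c).1) := Poly.fst.comp he
  have h2 : Poly E (fun c => (e c).2) := Poly.snd.comp he
  refine Poly.pair (f := fun c => Nm.nm (kp Prod.fst Prod.snd (.inr (.inr (e c, i)) : KN)))
    (g := fun c => Nm.nm (kf (.inr (.inr (e c, i)) : KN) : FN)) ?_ ?_
  · refine Poly.nm ?_
    fin_cases i
    · exact Poly.inr (Poly.inl (Poly.pair h1 (Poly.const 4)))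
    · exact Poly.inr (Poly.inl (Poly.pair h2 (Poly.const 4)))
    · exact Poly.inr (Poly.inr he)
    · exact Poly.const _
    · exact Poly.inr (Poly.inr he)
  · refine Poly.nm ?_
    fin_cases i
    · exact Poly.inr (Poly.inr (Poly.pair he (Poly.const 0)))
    · exact Poly.inr (Poly.inr (Poly.pair he (Poly.const 0)))
    · exact Poly.inr (Poly.inr (Poly.pair he (Poly.const 0)))
    · exact Poly.inr (Poly.inr (Poly.pair he (Poly.const 1)))
    · exact Poly.inr (Poly.inr (Poly.pair he (Poly.const 1)))

theorem poly_incCode {Vs : γ → List T} {Es : γ → List (T × T)} (hV : Poly E Vs)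
    (hE : Poly E Es) : Poly E (fun c => (mkInc (Vs c) (Es c)).code) := by
  have h1 : Poly E (fun c => dd (rawPts (Vs c) (Es c))) := by
    refine Poly.dd (Poly.append (Poly.const _) (Poly.append (Poly.flatMap
      (g := fun p : γ × T => (List.finRange 9).map fun i => Nm.nm (.inr (.inl (p.2, i)) : PN)) hV ?_)
      (Poly.map (g := fun p : γ × (T × T) => Nm.nm (.inr (.inr p.2) : PN)) hE ?_)))
    · exact Poly.constMap _ (g := fun i (p : γ × T) => Nm.nm (.inr (.inl (p.2, i)) : PN))
        fun i => Poly.nm (Poly.inr (Poly.inl (Poly.pair Poly.snd (Poly.const i))))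
    · exact Poly.nm (Poly.inr (Poly.inr Poly.snd))
  have h2 : Poly E (fun c => dd (rawLns (Vs c) (Es c))) := by
    refine Poly.dd (Poly.append (Poly.const _) (Poly.append (Poly.flatMap
      (g := fun p : γ × T => (List.finRange 7).map fun i => Nm.nm (.inr (.inl (p.2, i)) : FN)) hV ?_)
      (Poly.flatMap (g := fun p : γ × (T × T) => (List.finRange 2).map fun i =>
        Nm.nm (.inr (.inr (p.2, i)) : FN)) hE ?_)))
    · exact Poly.constMap _ (g := fun i (p : γ × T) => Nm.nm (.inr (.inl (p.2, i)) : FN))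
        fun i => Poly.nm (Poly.inr (Poly.inl (Poly.pair Poly.snd (Poly.const i))))
    · exact Poly.constMap _ (g := fun i (p : γ × (T × T)) => Nm.nm (.inr (.inr (p.2, i)) : FN))
        fun i => Poly.nm (Poly.inr (Poly.inr (Poly.pair Poly.snd (Poly.const i))))
  have h3 : Poly E (fun c => dd (rawInc (Vs c) (Es c))) := by
    refine Poly.dd (Poly.append (Poly.const _) (Poly.append (Poly.flatMap
      (g := fun p : γ × T => (List.finRange 30).map fun i => kn (.inr (.inl (p.2, i)))) hV ?_)
      (Poly.flatMap (g := fun p : γ × (T × T) => (List.finRange 5).map fun i =>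
        kn (.inr (.inr (p.2, i)))) hE ?_)))
    · exact Poly.constMap _ (g := fun i (p : γ × T) => kn (.inr (.inl (p.2, i))))
        fun i => poly_knV i Poly.snd
    · exact Poly.constMap _ (g := fun i (p : γ × (T × T)) => kn (.inr (.inr (p.2, i))))
        fun i => poly_knE i Poly.snd
  refine Poly.append (f := fun c => (dd (rawPts (Vs c) (Es c))).flatMap _) ?_ (Poly.append
    (f := fun c => (dd (rawLns (Vs c) (Es c))).flatMap _)
    (g := fun c => (dd (rawInc (Vs c) (Es c))).flatMap _) ?_ ?_)
  · exact Poly.flatMap (g := fun p : γ × Name => Sym.pt :: p.2.map Sym.bit) h1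
      (Poly.cons (Poly.const _) (Poly.map (g := fun z : (γ × Name) × Bool => Sym.bit z.2) Poly.snd
        (Poly.comp₁ Sym.bit Poly.snd)))
  · exact Poly.flatMap (g := fun p : γ × Name => Sym.ln :: p.2.map Sym.bit) h2
      (Poly.cons (Poly.const _) (Poly.map (g := fun z : (γ × Name) × Bool => Sym.bit z.2) Poly.snd
        (Poly.comp₁ Sym.bit Poly.snd)))
  · exact Poly.flatMap (g := fun p : γ × (Name × Name) =>
      Sym.ic :: (p.2.1.map Sym.bit ++ Sym.sep :: p.2.2.map Sym.bit)) h3
      (Poly.cons (Poly.const _) (Poly.append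
        (Poly.map (g := fun z : (γ × (Name × Name)) × Bool => Sym.bit z.2)
          (Poly.fst.comp Poly.snd) (Poly.comp₁ Sym.bit Poly.snd))
        (Poly.cons (Poly.const _) (Poly.map (g := fun z : (γ × (Name × Name)) × Bool =>
          Sym.bit z.2) (Poly.snd.comp Poly.snd) (Poly.comp₁ Sym.bit Poly.snd)))))

theorem poly_VsT {G : γ → List Gate} (hG : Poly E G) : Poly E (fun c => VsT (G c)) :=
  Poly.append (Poly.const _) (Poly.map (g := fun p : γ × W => (Sum.inr p.2 : T)) (poly_VsG hG)
    (Poly.inr Poly.snd))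

/-- From the code of a formula to the code of its incidence structure, in polynomial time. -/
theorem poly_red {f : γ → List IsoImp.Sym} (hf : Poly E f) :
    Poly E (fun c => (incOf (gatesOf (f c))).code) :=
  poly_incCode (poly_VsT (poly_gatesOf hf)) (poly_EsG (poly_gatesOf hf))

end

/-- The reduction. -/
theorem reduction {Γ : Type} [Fintype Γ] (L : Set (List Γ)) (hL : InNP L) :
    ∃ f : List Γ → List Sym, Nonempty (TM2ComputableInPolyTime (fun x : List Γ => x) (fun y : List Sym => y) f) ∧
      ∀ x, ∃ S : Inc, S.Valid ∧ f x = S.code ∧ (x ∈ L → StrongYes S) ∧ (x ∉ L → StrongNo S) := by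
  classical
  obtain ⟨R, q, ⟨Mc⟩, hR⟩ := hL
  refine ⟨fun x => (incOf (gatesOf (theta Mc q x).code)).code, ?_, fun x => ?_⟩
  · let _ : Enc (io Γ Sym) Γ := IsoImp.finEnc _ _
    let _ : Enc (io Γ Sym) Sym := IsoImp.finEnc _ _
    exact IsoImp.poly_toTM2 (poly_red (pf_theta Mc q)) _ _ _ (fun _ => rfl)
  · obtain ⟨h1, h2, h3⟩ := incOf_spec (theta Mc q x)
    refine ⟨incOf (gates (theta Mc q x) 0), h1, ?_, ?_, ?_⟩
    · show (incOf (gatesOf (theta Mc q x).code)).code = _
      rw [gatesOf_code]
    · intro hx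
      apply h2
      rw [theta_spec]
      exact (hR x).1 hx
    · intro hx
      apply h3
      rw [theta_spec]
      exact fun h => hx ((hR x).2 h)

/-- Hardness for every problem between the two extreme senses of independence. -/
theorem hard_between {Γ : Type} [Fintype Γ] (L : Set (List Γ)) (hL : InNP L) (B : Set (List Sym))
    (hyes : ∀ S : Inc, S.Valid → StrongYes S → S.code ∈ B)
    (hno : ∀ S : Inc, S.Valid → StrongNo S → S.code ∉ B) : PolyReduces L B := by
  obtain ⟨f, hf, h⟩ := reduction L hL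
  refine ⟨f, hf, fun x => ?_⟩
  obtain ⟨S, h1, h2, h3, h4⟩ := h x
  rw [h2]
  constructor
  · intro hx
    exact hyes S h1 (h3 hx)
  · intro hx
    by_contra hcon
    exact hno S h1 (h4 hcon) hx

theorem hard_distinct {Γ : Type} [Fintype Γ] (L : Set (List Γ)) (hL : InNP L) : PolyReduces L INDEPD := by
  refine hard_between L hL INDEPD ?_ ?_
  · rintro S hS ⟨⟨x, y, A, C, h1, h2⟩, h3⟩
    exact ⟨S, hS, rfl, x, y, A, C, h1, (h3 x y A C h1 h2).1, h2, (h3 x y A C h1 h2).2⟩
  · rintro S hS hn ⟨S', -, h, x, y, A, C, h1, -, h2, -⟩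
    rw [← code_inj' h] at h1 h2
    exact hn ⟨x, y, A, C, h1, h2⟩

end

end Pool.Agent.II95
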