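import Pool.Agent.II95.Struct

/-!
# The normal form of a selector
-/

namespace Pool.Agent.II95

open Finset

set_option linter.unusedSectionVars false

/-- Coordinates of a point. -/
def co (l e i P : Ve) : Ve := ![dt l P, dt e P, dt i P]
/-- Coordinates of a line. -/
def cl (l e i L : Ve) : Ve := ![det3 L e i, det3 l L i, det3 l e L]

theorem co_cl (l e i P L : Ve) : dt (co l e i P) (cl l e i L) = det3 l e i * dt P L := by
  simp [co, cl, det3, dt, cr]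
  ring

theorem co_ne {l e i P : Ve} (h : det3 l e i ≠ 0) (hP : P ≠ 0) : co l e i P ≠ 0 := by
  intro h0
  apply hP
  have h1 := congrFun h0 0
  have h2 := congrFun h0 1
  have h3 := congrFun h0 2
  exact eq_zero_of_forms h h1 h2 h3

theorem cl_ne {l e i L : Ve} (h : det3 l e i ≠ 0) (hL : L ≠ 0) : cl l e i L ≠ 0 := by
  intro h0
  apply hL
  have h1 : det3 L e i = 0 := congrFun h0 0
  have h2 : det3 l L i = 0 := congrFun h0 1
  have h3 : det3 l e L = 0 := congrFun h0 2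
  funext c
  have key : det3 l e i * L c = det3 L e i * l c + det3 l L i * e c + det3 l e L * i c := by
    fin_cases c <;> simp [det3, dt, cr] <;> ring
  rw [h1, h2, h3] at key
  simp only [zero_mul, add_zero, mul_eq_zero] at key
  exact key.resolve_left h

/-- Linear forms of the coordinates. -/
theorem co_lin (l e i : Ve) (c : Fin 3) : ∃ w : Ve, ∀ P, co l e i P c = w 0 * P 0 + w 1 * P 1 + w 2 * P 2 := by
  fin_cases c
  · exact ⟨l, fun P => rfl⟩
  · exact ⟨e, fun P => rfl⟩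
  · exact ⟨i, fun P => rfl⟩

theorem cl_lin (l e i : Ve) (c : Fin 3) : ∃ w : Ve, ∀ P, cl l e i P c = w 0 * P 0 + w 1 * P 1 + w 2 * P 2 := by
  fin_cases c
  · refine ⟨cr e i, fun P => ?_⟩
    simp [cl, det3, dt, cr]
    ring
  · refine ⟨cr i l, fun P => ?_⟩
    simp [cl, det3, dt, cr]
    ring
  · refine ⟨cr l e, fun P => ?_⟩
    simp [cl, det3, dt, cr]

/-- A multiple of a vector. -/
def Mul (v w : Ve) : Prop := ∃ κ : ℝ, κ ≠ 0 ∧ v = κ • w

theorem mul_of {v w : Ve} (hv : v ≠ 0) (κ : ℝ) (h : v = κ • w) : Mul v w := by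
  refine ⟨κ, ?_, h⟩
  rintro rfl
  exact hv (by rw [h, zero_smul])

theorem ext3 {v w : Ve} (h0 : v 0 = w 0) (h1 : v 1 = w 1) (h2 : v 2 = w 2) : v = w := by
  funext c
  fin_cases c
  · exact h0
  · exact h1
  · exact h2

theorem dt_mul {v w u : Ve} (h : Mul v w) (h0 : dt u v = 0) : dt u w = 0 := by
  obtain ⟨κ, hκ, rfl⟩ := h
  have : dt u (κ • w) = κ * dt u w := by
    simp [dt]
    ring
  rw [this] at h0
  exact (mul_eq_zero.1 h0).resolve_left hκ

theorem dt_mul' {v w u : Ve} (h : Mul v w) (h0 : dt v u = 0) : dt w u = 0 := by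
  rw [dt_comm] at h0 ⊢
  exact dt_mul h h0

/-- The coordinates of a selector in a frame. -/
theorem coords {P : Fin 9 → Ve} {G : Fin 7 → Ve} {y : ℝ} (hP : ∀ m, P m ≠ 0) (hG : ∀ m, G m ≠ 0)
    (cl0 : Mul (G 0) (lc 0 0)) (cl1 : Mul (G 1) (lc 0 1)) (hy : P 4 1 = y * P 4 2)
    (i2 : dt (P 0) (glc 0) = 0) (i3 : dt (P 2) (glc 0) = 0)
    (i4 : dt (P 8) (glc 0) = 0) (i5 : dt (P 1) (glc 1) = 0) (i6 : dt (P 3) (glc 1) = 0) (i7 : dt (P 5) (glc 2) = 0)
    (i8 : dt (P 6) (glc 2) = 0) (i9 : dt (P 0) (G 0) = 0) (i10 : dt (P 1) (G 0) = 0) (i11 : dt (P 4) (G 0) = 0)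
    (i12 : dt (P 2) (G 1) = 0) (i13 : dt (P 3) (G 1) = 0) (i14 : dt (P 0) (G 2) = 0) (i15 : dt (P 3) (G 2) = 0)
    (i16 : dt (P 5) (G 2) = 0) (i17 : dt (P 4) (G 3) = 0) (i18 : dt (P 3) (G 3) = 0) (i19 : dt (P 6) (G 3) = 0)
    (i20 : dt (P 8) (G 3) = 0) (i21 : dt (P 4) (G 4) = 0) (i22 : dt (P 2) (G 4) = 0) (i23 : dt (P 7) (G 4) = 0)
    (i24 : dt (P 1) (G 5) = 0) (i25 : dt (P 6) (G 5) = 0) (i26 : dt (P 7) (G 5) = 0) (i27 : dt (P 5) (G 6) = 0)
    (i28 : dt (P 7) (G 6) = 0) (i29 : dt (P 8) (G 6) = 0) :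
    cub y = 0 ∧ (∀ m, Mul (P m) (pc y m)) ∧ ∀ m, Mul (G m) (lc y m) := by
  have j9 := dt_mul cl0 i9
  have j10 := dt_mul cl0 i10
  have j11 := dt_mul cl0 i11
  have j12 := dt_mul cl1 i12
  have j13 := dt_mul cl1 i13
  simp [dt, glc, lc] at i2 i3 i4 i5 i6 i7 i8 j9 j10 j11 j12 j13
  have m0 : Mul (P 0) (pc y 0) := mul_of (hP 0) (P 0 2) (ext3 (by simp [pc, j9]) (by simp [pc, i2]) (by simp [pc]))
  have m1 : Mul (P 1) (pc y 1) := mul_of (hP 1) (P 1 2)
    (ext3 (by simp [pc, j10]) (by simp [pc]; linarith) (by simp [pc]))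
  have m2 : Mul (P 2) (pc y 2) := mul_of (hP 2) (P 2 2)
    (ext3 (by simp [pc]; linarith) (by simp [pc, i3]) (by simp [pc]))
  have m3 : Mul (P 3) (pc y 3) := mul_of (hP 3) (P 3 2)
    (ext3 (by simp [pc]; linarith) (by simp [pc]; linarith) (by simp [pc]))
  have m4 : Mul (P 4) (pc y 4) := mul_of (hP 4) (P 4 2)
    (ext3 (by simp [pc, j11]) (by simp [pc]; linarith) (by simp [pc]))
  have n0 : Mul (G 0) (lc y 0) := by
    have e : lc y 0 = lc 0 0 := by simp [lc]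
    rw [e]
    exact cl0
  have n1 : Mul (G 1) (lc y 1) := by
    have e : lc y 1 = lc 0 1 := by simp [lc]
    rw [e]
    exact cl1
  have k14 := dt_mul' m0 i14
  have k15 := dt_mul' m3 i15
  have k17 := dt_mul' m4 i17
  have k18 := dt_mul' m3 i18
  have k21 := dt_mul' m4 i21
  have k22 := dt_mul' m2 i22
  simp [dt, pc] at k14 k15 k17 k18 k21 k22
  have n2 : Mul (G 2) (lc y 2) := mul_of (hG 2) (G 2 1)
    (ext3 (by simp [lc]; linarith) (by simp [lc]) (by simp [lc]; linarith))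
  have n3 : Mul (G 3) (lc y 3) := mul_of (hG 3) (-G 3 1)
    (ext3 (by simp [lc]; linarith) (by simp [lc]) (by simp [lc]; linarith))
  have n4 : Mul (G 4) (lc y 4) := mul_of (hG 4) (-G 4 1)
    (ext3 (by simp [lc]; linarith) (by simp [lc]) (by simp [lc]; linarith))
  have k16 := dt_mul n2 i16
  have k19 := dt_mul n3 i19
  simp [dt, lc] at k16 k19
  have m5 : Mul (P 5) (pc y 5) := mul_of (hP 5) (P 5 0)
    (ext3 (by simp [pc]) (by simp [pc]; linarith) (by simp [pc, i7]))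
  have m6 : Mul (P 6) (pc y 6) := mul_of (hP 6) (-P 6 0)
    (ext3 (by simp [pc]) (by simp [pc]; linear_combination -k19 + y * i8) (by simp [pc, i8]))
  have k24 := dt_mul' m1 i24
  have k25 := dt_mul' m6 i25
  simp [dt, pc] at k24 k25
  have n5 : Mul (G 5) (lc y 5) := mul_of (hG 5) (-G 5 1)
    (ext3 (by simp [lc]; linarith) (by simp [lc]) (by simp [lc]; linarith))
  have k23 := dt_mul n4 i23
  have k26 := dt_mul n5 i26
  have k20 := dt_mul n3 i20
  simp [dt, lc] at k23 k26 k20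
  have q0 : P 7 0 = (y - 1) * P 7 2 := by linear_combination k26 - k23
  have q1 : P 7 1 = (2 * y - y ^ 2) * P 7 2 := by linear_combination (1 - y) * q0 - k26
  have m7 : Mul (P 7) (pc y 7) := mul_of (hP 7) (P 7 2)
    (ext3 (by simp [pc]; linarith) (by simp [pc]; linarith) (by simp [pc]))
  have m8 : Mul (P 8) (pc y 8) := mul_of (hP 8) (P 8 0 - P 8 2)
    (ext3 (by simp [pc]; rw [i4] at k20; linear_combination k20) (by simp [pc, i4])
      (by simp [pc]; rw [i4] at k20; linear_combination k20))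
  have k27 := dt_mul' m5 i27
  have k28 := dt_mul' m7 i28
  simp [dt, pc] at k27 k28
  have n6 : Mul (G 6) (lc y 6) := mul_of (hG 6) (G 6 1)
    (ext3 (by simp [lc]; linarith) (by simp [lc]) (by simp [lc]; linear_combination k28 - (y - 1) * k27))
  have k29 := dt_mul' m8 (dt_mul n6 i29)
  simp [dt, pc, lc] at k29
  refine ⟨by unfold cub; linear_combination k29, ?_, ?_⟩
  · intro m
    fin_cases m
    · exact m0
    · exact m1
    · exact m2
    · exact m3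
    · exact m4
    · exact m5
    · exact m6
    · exact m7
    · exact m8
  · intro m
    fin_cases m
    · exact n0
    · exact n1
    · exact n2
    · exact n3
    · exact n4
    · exact n5
    · exact n6

/-- The normal form. -/
theorem normal {α β : ℝ} (hα : α ≠ 0) (hβ : β ≠ 0) {O Z e0 w0 i0 : Ve} {p : Fin 9 → Ve} {g : Fin 7 → Ve}
    (hw : ∀ c, w0 c = α * e0 c + β * i0 c) (P0 : ∀ m, p m ≠ 0) (L0 : ∀ m, g m ≠ 0) (hO0 : O ≠ 0)
    (hZ0 : Z ≠ 0) (he0 : e0 ≠ 0) (hw0 : w0 ≠ 0) (hi0 : i0 ≠ 0)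
    (hXO : sq (p 4) O ≠ 0) (hli : sq (g 0) i0 ≠ 0) (hl'i : sq (g 1) i0 ≠ 0) (hl'l : sq (g 1) (g 0) ≠ 0)
    (hei : sq e0 i0 ≠ 0) (hOZ : sq O Z ≠ 0)
    (iO : dt O i0 = 0) (iZi : dt Z i0 = 0) (iZe : dt Z e0 = 0)
    (i0' : dt O (g 0) = 0) (i1 : dt O (g 1) = 0) (i2 : dt (p 0) e0 = 0) (i3 : dt (p 2) e0 = 0)
    (i4 : dt (p 8) e0 = 0) (i5 : dt (p 1) w0 = 0) (i6 : dt (p 3) w0 = 0) (i7 : dt (p 5) i0 = 0)
    (i8 : dt (p 6) i0 = 0) (i9 : dt (p 0) (g 0) = 0) (i10 : dt (p 1) (g 0) = 0) (i11 : dt (p 4) (g 0) = 0)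
    (i12 : dt (p 2) (g 1) = 0) (i13 : dt (p 3) (g 1) = 0) (i14 : dt (p 0) (g 2) = 0) (i15 : dt (p 3) (g 2) = 0)
    (i16 : dt (p 5) (g 2) = 0) (i17 : dt (p 4) (g 3) = 0) (i18 : dt (p 3) (g 3) = 0) (i19 : dt (p 6) (g 3) = 0)
    (i20 : dt (p 8) (g 3) = 0) (i21 : dt (p 4) (g 4) = 0) (i22 : dt (p 2) (g 4) = 0) (i23 : dt (p 7) (g 4) = 0)
    (i24 : dt (p 1) (g 5) = 0) (i25 : dt (p 6) (g 5) = 0) (i26 : dt (p 7) (g 5) = 0) (i27 : dt (p 5) (g 6) = 0)
    (i28 : dt (p 7) (g 6) = 0) (i29 : dt (p 8) (g 6) = 0) :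
    dt i0 (p 4) ≠ 0 ∧ ∃ (y : ℝ) (l e i : Ve), y = (α * dt e0 (p 4)) / (-β * dt i0 (p 4)) ∧ cub y = 0 ∧
      (∀ m, Mul (co l e i (p m)) (pc y m)) ∧ (∀ m, Mul (cl l e i (g m)) (lc y m)) ∧
      Mul (co l e i O) (gpc 0) ∧ Mul (co l e i Z) (gpc 1) ∧ Mul (cl l e i e0) (glc 0) ∧
      Mul (cl l e i w0) (glc 1) ∧ Mul (cl l e i i0) (glc 2) := by
  have hX : dt i0 (p 4) ≠ 0 := by
    intro h0
    apply hXO
    exact two_points hli (by rw [dt_comm]; exact i11) h0 (by rw [dt_comm]; exact i0') (by rw [dt_comm]; exact iO)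
  refine ⟨hX, ?_⟩
  obtain ⟨α', β', hl'⟩ := pencil hO0 hli i0' iO i1
  have hα' : α' ≠ 0 := by
    rintro rfl
    apply hl'i
    have e : g 1 = β' • i0 := funext fun c => by
      rw [hl' c]
      simp
    rw [e]
    simpa using sq_smul β' 1 i0
  have hβ' : β' ≠ 0 := by
    rintro rfl
    apply hl'l
    have e : g 1 = α' • g 0 := funext fun c => by
      rw [hl' c]
      simp
    rw [e]
    simpa using sq_smul α' 1 (g 0)
  -- the frame is a frame
  have hdet0 : det3 (g 0) e0 i0 ≠ 0 := by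
    intro h0
    have h1 : dt e0 (cr (g 0) i0) = 0 := by
      have : dt e0 (cr (g 0) i0) = - det3 (g 0) e0 i0 := by
        simp [det3, dt, cr]
        ring
      rw [this, h0, neg_zero]
    obtain ⟨x, x', hx⟩ := span_of_det hli h1
    have h2 : dt O e0 = 0 := by
      have : dt O e0 = x * dt O (g 0) + x' * dt O i0 := by
        simp only [dt, hx]
        ring
      rw [this, i0', iO]
      ring
    exact hei (two_points hOZ h2 iZe iO iZi)
  obtain ⟨l, hl⟩ : ∃ l : Ve, l = (β * α' / β') • g 0 := ⟨_, rfl⟩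
  obtain ⟨e, he⟩ : ∃ e : Ve, e = α • e0 := ⟨_, rfl⟩
  obtain ⟨i, hi⟩ : ∃ i : Ve, i = (-β) • i0 := ⟨_, rfl⟩
  have hba : β * α' / β' ≠ 0 := div_ne_zero (mul_ne_zero hβ hα') hβ'
  have dte : ∀ P, dt e P = α * dt P e0 := fun P => by
    rw [he]
    simp only [dt, Pi.smul_apply, smul_eq_mul]
    ring
  have dti : ∀ P, dt i P = (-β) * dt P i0 := fun P => by
    rw [hi]
    simp only [dt, Pi.smul_apply, smul_eq_mul]
    ring
  have hdet : det3 l e i ≠ 0 := by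
    have : det3 l e i = (β * α' / β') * α * (-β) * det3 (g 0) e0 i0 := by
      rw [hl, he, hi]
      simp only [det3, dt, cr, Pi.smul_apply, smul_eq_mul, Matrix.cons_val, Matrix.cons_val_zero,
        Matrix.cons_val_one]
      ring
    rw [this]
    exact mul_ne_zero (mul_ne_zero (mul_ne_zero hba hα) (neg_ne_zero.2 hβ)) hdet0
  obtain ⟨D, hD⟩ : ∃ D, D = det3 l e i := ⟨_, rfl⟩
  rw [← hD] at hdet
  -- the lines of the frame
  have cle : Mul (cl l e i e0) (glc 0) := by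
    apply mul_of (cl_ne (by rwa [← hD]) he0) (D / α)
    rw [hD]
    apply ext3 <;> simp [cl, glc, he, det3, dt, cr] <;> field_simp <;> ring
  have cli : Mul (cl l e i i0) (glc 2) := by
    apply mul_of (cl_ne (by rwa [← hD]) hi0) (-(D / β))
    rw [hD]
    apply ext3 <;> simp [cl, glc, hi, det3, dt, cr] <;> field_simp <;> ring
  have clw : Mul (cl l e i w0) (glc 1) := by
    apply mul_of (cl_ne (by rwa [← hD]) hw0) D
    rw [hD]
    apply ext3 <;> simp [cl, glc, he, hi, hw, det3, dt, cr] <;> ring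
  have cl0 : Mul (cl l e i (g 0)) (lc 0 0) := by
    apply mul_of (cl_ne (by rwa [← hD]) (L0 0)) (D / (β * α' / β'))
    rw [hD]
    apply ext3 <;> simp [cl, lc, hl, det3, dt, cr] <;> field_simp <;> ring
  have cl1 : Mul (cl l e i (g 1)) (lc 0 1) := by
    apply mul_of (cl_ne (by rwa [← hD]) (L0 1)) (D / (β / β'))
    rw [hD]
    apply ext3 <;> simp [cl, lc, hl, hi, hl', det3, dt, cr] <;> field_simp <;> ring
  have tr : ∀ {P L : Ve}, dt P L = 0 → dt (co l e i P) (cl l e i L) = 0 := fun {P L} h => by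
    rw [co_cl, h, mul_zero]
  have hc : ∀ m, co l e i (p m) ≠ 0 := fun m => co_ne (by rwa [← hD]) (P0 m)
  have hg : ∀ m, cl l e i (g m) ≠ 0 := fun m => cl_ne (by rwa [← hD]) (L0 m)
  have hO' := co_ne (by rwa [← hD]) hO0 (l := l) (e := e) (i := i)
  obtain ⟨y, hyd⟩ : ∃ y, y = (α * dt e0 (p 4)) / (-β * dt i0 (p 4)) := ⟨_, rfl⟩
  have hy4 : co l e i (p 4) 1 = y * co l e i (p 4) 2 := by
    show dt e (p 4) = y * dt i (p 4)
    rw [dte, dti, hyd, dt_comm (p 4) e0, dt_comm (p 4) i0]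
    have := mul_ne_zero (neg_ne_zero.2 hβ) hX
    field_simp
  obtain ⟨c1, c2, c3⟩ := coords hc hg cl0 cl1 hy4 (dt_mul cle (tr i2)) (dt_mul cle (tr i3)) (dt_mul cle (tr i4))
    (dt_mul clw (tr i5)) (dt_mul clw (tr i6)) (dt_mul cli (tr i7)) (dt_mul cli (tr i8)) (tr i9) (tr i10) (tr i11)
    (tr i12) (tr i13) (tr i14) (tr i15) (tr i16) (tr i17) (tr i18) (tr i19) (tr i20) (tr i21) (tr i22) (tr i23)
    (tr i24) (tr i25) (tr i26) (tr i27) (tr i28) (tr i29)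
  have hZ' := co_ne (by rwa [← hD]) hZ0 (l := l) (e := e) (i := i)
  refine ⟨y, l, e, i, hyd, c1, c2, c3, ?_, ?_, cle, clw, cli⟩
  · have o1 := dt_mul cl0 (tr i0')
    have o2 := dt_mul cli (tr iO)
    simp [dt, lc, glc] at o1 o2
    exact mul_of hO' (co l e i O 1) (ext3 (by simp [gpc, o1]) (by simp [gpc]) (by simp [gpc, o2]))
  · have o1 := dt_mul cle (tr iZe)
    have o2 := dt_mul cli (tr iZi)
    simp [dt, glc] at o1 o2
    exact mul_of hZ' (co l e i Z 0) (ext3 (by simp [gpc]) (by simp [gpc, o1]) (by simp [gpc, o2]))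

end Pool.Agent.II95
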