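import Pool.Agent.II95.Gen
import Pool.Agent.Lib_MP_5661ce_lc.Geom

/-!
# From homogeneous to affine coordinates
-/

namespace Pool.Agent.II95

open Finset Pool.Agent.IncInd

variable {P F K : Type} [Fintype P] [Fintype F] [Fintype K] [DecidableEq P] [DecidableEq F]

/-- A realization in homogeneous coordinates with different points and different lines, and with
independent rows. -/
structure Hom (p : K → P) (f : K → F) (a : P → Ve) (b : F → Ve) : Prop where
  inc : ∀ k, dt (a (p k)) (b (f k)) = 0
  pne : ∀ i, a i ≠ 0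
  lne : ∀ j, b j ≠ 0
  pinj : ∀ i i', i ≠ i' → sq (a i) (a i') ≠ 0
  linj : ∀ j j', j ≠ j' → sq (b j) (b j') ≠ 0
  pts : ∀ c : Ve, (∀ i, dt (a i) c = 0) → c = 0
  lns : ∀ c : Ve, (∀ j, dt (b j) c = 0) → c = 0
  ind : ∀ g : K → ℝ, (∀ i, ∀ c : Fin 3, ∑ k, (if p k = i then g k * b (f k) c else 0) = 0) →
      (∀ j, ∀ c : Fin 3, ∑ k, (if f k = j then g k * a (p k) c else 0) = 0) → ∀ k, g k = 0

/-- A good realization with different points and different lines. -/
def Good' (p : K → P) (f : K → F) (x y : P → ℝ) (A C : F → ℝ) : Prop :=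
  Good p f x y A C ∧ (∀ i i', x i = x i' → y i = y i' → i = i') ∧ (∀ j j', A j = A j' → C j = C j' → j = j')

section isp

variable {ι : Type}

theorem IsPoly.dt {a b : (ι → ℝ) → Ve} (ha : ∀ c, IsPoly (fun θ => a θ c)) (hb : ∀ c, IsPoly (fun θ => b θ c)) :
    IsPoly (fun θ => dt (a θ) (b θ)) := by
  unfold II95.dt
  exact (((ha 0).mul (hb 0)).add ((ha 1).mul (hb 1))).add ((ha 2).mul (hb 2))

theorem IsPoly.sq {a b : (ι → ℝ) → Ve} (ha : ∀ c, IsPoly (fun θ => a θ c)) (hb : ∀ c, IsPoly (fun θ => b θ c)) :
    IsPoly (fun θ => sq (a θ) (b θ)) := by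
  unfold II95.sq
  exact (((((ha 1).mul (hb 2)).sub ((ha 2).mul (hb 1))).pow 2).add
    ((((ha 2).mul (hb 0)).sub ((ha 0).mul (hb 2))).pow 2)).add
    ((((ha 0).mul (hb 1)).sub ((ha 1).mul (hb 0))).pow 2)

end isp

theorem dt_self_ne {a : Ve} (h : a ≠ 0) : dt a a ≠ 0 := by
  have h0 := mul_self_nonneg (a 0)
  have h1 := mul_self_nonneg (a 1)
  have h2 := mul_self_nonneg (a 2)
  intro h3
  unfold dt at h3
  rcases vec_ne_zero.1 h with h | h | h
  · exact h (mul_self_eq_zero.1 (by linarith))
  · exact h (mul_self_eq_zero.1 (by linarith))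
  · exact h (mul_self_eq_zero.1 (by linarith))

theorem exists_not_prop {a : Ve} (h : a ≠ 0) : ∃ θ : Ve, sq θ a ≠ 0 := by
  by_contra hcon
  push Not at hcon
  have h1 := (sq_eq_zero_iff _ _).1 (hcon ![1, 0, 0])
  have h2 := (sq_eq_zero_iff _ _).1 (hcon ![0, 1, 0])
  simp at h1 h2
  rcases vec_ne_zero.1 h with h | h | h
  · exact h h2.2.symm
  · exact h h1.2
  · exact h h2.1

theorem cr_self (a b : Ve) : dt (cr a b) (cr a b) = sq a b := by
  simp [dt, cr, sq]
  ring

/-- Expansion in an orthogonal frame. -/
theorem parseval (V q a b : Ve) : dt V V * dt (cr V q) (cr V q) * dt a b =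
    dt a (cr V (cr V q)) * dt b (cr V (cr V q)) + dt a V * dt b V * dt (cr V q) (cr V q) +
      dt a (cr V q) * dt b (cr V q) * dt V V := by
  simp only [dt, cr, Matrix.cons_val_zero, Matrix.cons_val_one, Matrix.cons_val]
  ring

/-- Unit vectors. -/
def un (c : Fin 3) : Ve := fun i => if i = c then 1 else 0

theorem dt_un (a : Ve) (c : Fin 3) : dt a (un c) = a c := by
  fin_cases c <;> simp [dt, un]

theorem affine_of_hom {p : K → P} {f : K → F} {a : P → Ve} {b : F → Ve} (h : Hom p f a b) :
    ∃ x y A C, Good' p f x y A C := by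
  -- the vertical direction
  obtain ⟨V, hV⟩ := gen (ι := Fin 3) (κ := F ⊕ P)
    (Sum.elim (fun j θ => dt (b j) θ) (fun i θ => sq θ (a i)))
    (by
      rintro (j | i)
      · exact IsPoly.dt (a := fun _ => b j) (b := fun θ => θ) (fun c => IsPoly.const _) fun c => IsPoly.coord c
      · exact IsPoly.sq (a := fun θ => θ) (b := fun _ => a i) (fun c => IsPoly.coord c) fun c => IsPoly.const _)
    (by
      rintro (j | i)
      · exact ⟨b j, dt_self_ne (h.lne j)⟩
      · exact exists_not_prop (h.pne i))
  have hVb : ∀ j, dt (b j) V ≠ 0 := fun j => hV (.inl j)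
  have hVa : ∀ i, sq V (a i) ≠ 0 := fun i => hV (.inr i)
  obtain ⟨q, hq⟩ := gen (ι := Fin 3) (κ := P) (fun i θ => dt θ (cr (a i) V))
    (fun i => IsPoly.dt (a := fun θ => θ) (b := fun _ => cr (a i) V) (fun c => IsPoly.coord c)
      fun c => IsPoly.const _)
    (fun i => ⟨cr (a i) V, by rw [cr_self, sq_symm]; exact hVa i⟩)
  set n3 := cr V q with hn3
  set n1 := cr V n3 with hn1
  have ha3 : ∀ i, dt (a i) n3 ≠ 0 := by
    intro i
    have : dt (a i) n3 = dt q (cr (a i) V) := by
      simp only [hn3, dt, cr, Matrix.cons_val_zero, Matrix.cons_val_one, Matrix.cons_val]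
      ring
    rw [this]
    exact hq i
  have hVne : V ≠ 0 := by
    intro h0
    have hF : IsEmpty F := ⟨fun j => hVb j (by rw [h0]; simp [dt])⟩
    have := h.lns (un 0) fun j => (hF.false j).elim
    have := congrFun this 0
    simp [un] at this
  have h3ne : n3 ≠ 0 := by
    intro h0
    have hP : IsEmpty P := ⟨fun i => ha3 i (by rw [h0]; simp [dt])⟩
    have := h.pts (un 0) fun j => (hP.false j).elim
    have := congrFun this 0
    simp [un] at this
  set NV := dt V V with hNV
  set N3 := dt n3 n3 with hN3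
  have hNV0 : NV ≠ 0 := dt_self_ne hVne
  have hN30 : N3 ≠ 0 := dt_self_ne h3ne
  have par : ∀ u v : Ve, NV * N3 * dt u v = dt u n1 * dt v n1 + dt u V * dt v V * N3 + dt u n3 * dt v n3 * NV :=
    fun u v => parseval V q u v
  have o1V : dt n1 V = 0 := by
    simp only [hn1, dt, cr, Matrix.cons_val_zero, Matrix.cons_val_one, Matrix.cons_val]; ring
  have o13 : dt n1 n3 = 0 := by
    simp only [hn1, dt, cr, Matrix.cons_val_zero, Matrix.cons_val_one, Matrix.cons_val]; ring
  have o3V : dt n3 V = 0 := by
    simp only [hn3, dt, cr, Matrix.cons_val_zero, Matrix.cons_val_one, Matrix.cons_val]; ring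
  have dtc : ∀ u v : Ve, dt u v = dt v u := fun u v => by unfold dt; ring
  have vecpar : ∀ (u : Ve) (c : Fin 3), u c = dt u n1 / (NV * N3) * n1 c + dt u V / NV * V c +
      dt u n3 / N3 * n3 c := by
    intro u c
    have h1 := par u (un c)
    rw [dt_un, dtc (un c) n1, dtc (un c) V, dtc (un c) n3, dt_un, dt_un, dt_un] at h1
    field_simp
    linear_combination h1
  -- affine coordinates
  refine ⟨fun i => dt (a i) n1 / dt (a i) n3, fun i => dt (a i) V / dt (a i) n3,
    fun j => (dt (b j) n1 / (NV * N3)) / (dt (b j) V / NV), fun j => (dt (b j) n3 / N3) / (dt (b j) V / NV), ?_⟩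
  have hβ : ∀ j, dt (b j) V / NV ≠ 0 := fun j => div_ne_zero (hVb j) hNV0
  have inc' : ∀ k, (dt (b (f k)) n1 / (NV * N3)) / (dt (b (f k)) V / NV) * (dt (a (p k)) n1 / dt (a (p k)) n3) +
      dt (a (p k)) V / dt (a (p k)) n3 + (dt (b (f k)) n3 / N3) / (dt (b (f k)) V / NV) = 0 := by
    intro k
    have h1 := par (a (p k)) (b (f k))
    rw [h.inc k, mul_zero] at h1
    have h2 := ha3 (p k)
    have h3 := hVb (f k)
    field_simp
    linear_combination -h1
  -- vectors in terms of the affine coordinates
  have veca : ∀ i c, a i c = dt (a i) n3 * ((dt (a i) n1 / dt (a i) n3) * (n1 c / (NV * N3)) +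
      (dt (a i) V / dt (a i) n3) * (V c / NV) + n3 c / N3) := by
    intro i c
    have h2 := ha3 i
    rw [vecpar (a i) c]
    field_simp
  have vecb : ∀ j c, b j c = (dt (b j) V / NV) * (((dt (b j) n1 / (NV * N3)) / (dt (b j) V / NV)) * n1 c + V c +
      ((dt (b j) n3 / N3) / (dt (b j) V / NV)) * n3 c) := by
    intro j c
    have h2 := hVb j
    rw [vecpar (b j) c]
    field_simp
  refine ⟨⟨inc', ?_, ?_, ?_⟩, ?_, ?_⟩
  · rintro ⟨α, β, γ, hαβ, hh⟩
    have h1 : (fun c => α * n1 c + β * V c + γ * n3 c : Ve) = 0 := by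
      apply h.pts
      intro i
      have h2 := hh i
      have h3 := ha3 i
      field_simp at h2
      simp only [dt] at h2 ⊢
      linear_combination h2
    have h4 : α * dt n1 n1 = 0 := by
      have e : dt n1 (fun c => α * n1 c + β * V c + γ * n3 c) = α * dt n1 n1 + β * dt n1 V + γ * dt n1 n3 := by
        simp only [dt]; ring
      rw [h1, o1V, o13] at e
      simp only [dt, Pi.zero_apply] at e ⊢
      linarith
    have h5 : β * NV = 0 := by
      have e : dt V (fun c => α * n1 c + β * V c + γ * n3 c) = α * dt n1 V + β * dt V V + γ * dt n3 V := by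
        simp only [dt]; ring
      rw [h1, o1V, o3V] at e
      simp only [hNV, dt, Pi.zero_apply] at e ⊢
      linarith
    have h6 : dt n1 n1 = NV * N3 := by
      have := par n1 n1
      rw [o1V, o13] at this
      have h7 : dt n1 n1 ≠ 0 ∨ dt n1 n1 = 0 := ne_or_eq _ _
      simp only [hn1, hNV, hN3, dt, cr, Matrix.cons_val_zero, Matrix.cons_val_one, Matrix.cons_val, hn3]
      ring
    rw [h6] at h4
    rcases hαβ with h7 | h7
    · exact (mul_ne_zero h7 (mul_ne_zero hNV0 hN30)) h4
    · exact (mul_ne_zero h7 hNV0) h5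
  · rintro ⟨u, v, hh⟩
    have h1 : (fun c => u / (NV * N3) * n1 c + v / NV * V c + 1 / N3 * n3 c : Ve) = 0 := by
      apply h.lns
      intro j
      have h2 := hh j
      have h3 := hVb j
      field_simp at h2
      have h4 : dt (b j) (fun c => u / (NV * N3) * n1 c + v / NV * V c + 1 / N3 * n3 c) =
          u / (NV * N3) * dt (b j) n1 + v / NV * dt (b j) V + 1 / N3 * dt (b j) n3 := by
        simp only [dt]; ring
      rw [h4]
      field_simp
      linear_combination h2
    have h5 : dt n3 (fun c => u / (NV * N3) * n1 c + v / NV * V c + 1 / N3 * n3 c) =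
          u / (NV * N3) * dt n1 n3 + v / NV * dt n3 V + 1 / N3 * dt n3 n3 := by
        simp only [dt]; ring
    rw [h1, o13, o3V, ← hN3, one_div, inv_mul_cancel₀ hN30] at h5
    simp [dt] at h5
  · rintro g ⟨g1, g2, g3, g4⟩
    -- the third coordinate
    have g5 : ∀ i, ∑ k, (if p k = i then g k * ((dt (b (f k)) n3 / N3) / (dt (b (f k)) V / NV)) else 0) = 0 := by
      intro i
      have e : ∀ k, (if p k = i then g k * ((dt (b (f k)) n3 / N3) / (dt (b (f k)) V / NV)) else 0) =
          - (dt (a i) n1 / dt (a i) n3) *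
            (if p k = i then g k * ((dt (b (f k)) n1 / (NV * N3)) / (dt (b (f k)) V / NV)) else 0) -
          (dt (a i) V / dt (a i) n3) * (if p k = i then g k else 0) := by
        intro k
        by_cases hk : p k = i
        · subst hk
          rw [if_pos rfl, if_pos rfl, if_pos rfl]
          linear_combination g k * inc' k
        · simp [hk]
      rw [Finset.sum_congr rfl fun k _ => e k, Finset.sum_sub_distrib, ← Finset.mul_sum, ← Finset.mul_sum,
        g1 i, g2 i]
      ring
    have g6 : ∀ j, ∑ k, (if f k = j then g k * (dt (a (p k)) V / dt (a (p k)) n3) else 0) = 0 := by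
      intro j
      have e : ∀ k, (if f k = j then g k * (dt (a (p k)) V / dt (a (p k)) n3) else 0) =
          - ((dt (b j) n1 / (NV * N3)) / (dt (b j) V / NV)) *
            (if f k = j then g k * (dt (a (p k)) n1 / dt (a (p k)) n3) else 0) -
          ((dt (b j) n3 / N3) / (dt (b j) V / NV)) * (if f k = j then g k else 0) := by
        intro k
        by_cases hk : f k = j
        · subst hk
          rw [if_pos rfl, if_pos rfl, if_pos rfl]
          linear_combination g k * inc' k
        · simp [hk]
      rw [Finset.sum_congr rfl fun k _ => e k, Finset.sum_sub_distrib, ← Finset.mul_sum, ← Finset.mul_sum,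
        g3 j, g4 j]
      ring
    have key := h.ind (fun k => g k / ((dt (b (f k)) V / NV) * dt (a (p k)) n3)) ?_ ?_
    · intro k
      have := key k
      rw [div_eq_zero_iff] at this
      exact this.resolve_right (mul_ne_zero (hβ _) (ha3 _))
    · intro i c
      have e : ∀ k, (if p k = i then g k / ((dt (b (f k)) V / NV) * dt (a (p k)) n3) * b (f k) c else 0) =
          (n1 c / dt (a i) n3) *
            (if p k = i then g k * ((dt (b (f k)) n1 / (NV * N3)) / (dt (b (f k)) V / NV)) else 0) +
          (V c / dt (a i) n3) * (if p k = i then g k else 0) +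
          (n3 c / dt (a i) n3) *
            (if p k = i then g k * ((dt (b (f k)) n3 / N3) / (dt (b (f k)) V / NV)) else 0) := by
        intro k
        by_cases hk : p k = i
        · subst hk
          rw [if_pos rfl, if_pos rfl, if_pos rfl, if_pos rfl]
          have h2 := hVb (f k)
          have h3 := ha3 (p k)
          rw [vecpar (b (f k)) c]
          field_simp
        · simp [hk]
      rw [Finset.sum_congr rfl fun k _ => e k, Finset.sum_add_distrib, Finset.sum_add_distrib,
        ← Finset.mul_sum, ← Finset.mul_sum, ← Finset.mul_sum, g1 i, g2 i, g5 i]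
      ring
    · intro j c
      have e : ∀ k, (if f k = j then g k / ((dt (b (f k)) V / NV) * dt (a (p k)) n3) * a (p k) c else 0) =
          (n1 c / (NV * N3) / (dt (b j) V / NV)) *
            (if f k = j then g k * (dt (a (p k)) n1 / dt (a (p k)) n3) else 0) +
          (V c / NV / (dt (b j) V / NV)) * (if f k = j then g k * (dt (a (p k)) V / dt (a (p k)) n3) else 0) +
          (n3 c / N3 / (dt (b j) V / NV)) * (if f k = j then g k else 0) := by
        intro k
        by_cases hk : f k = j
        · subst hk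
          rw [if_pos rfl, if_pos rfl, if_pos rfl, if_pos rfl]
          have h2 := hVb (f k)
          have h3 := ha3 (p k)
          rw [vecpar (a (p k)) c]
          field_simp
        · simp [hk]
      rw [Finset.sum_congr rfl fun k _ => e k, Finset.sum_add_distrib, Finset.sum_add_distrib,
        ← Finset.mul_sum, ← Finset.mul_sum, ← Finset.mul_sum, g3 j, g4 j, g6 j]
      ring
  · intro i i' h1 h2
    by_contra hne
    apply h.pinj i i' hne
    simp only at h1 h2
    have e1 : a i = dt (a i) n3 • (fun c => (dt (a i) n1 / dt (a i) n3) * (n1 c / (NV * N3)) +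
      (dt (a i) V / dt (a i) n3) * (V c / NV) + n3 c / N3 : Ve) := funext fun c => by
        rw [Pi.smul_apply, smul_eq_mul]; exact veca i c
    have e2 : a i' = dt (a i') n3 • (fun c => (dt (a i) n1 / dt (a i) n3) * (n1 c / (NV * N3)) +
      (dt (a i) V / dt (a i) n3) * (V c / NV) + n3 c / N3 : Ve) := funext fun c => by
        rw [Pi.smul_apply, smul_eq_mul, h1, h2]; exact veca i' c
    rw [e1, e2]
    exact sq_smul _ _ _
  · intro j j' h1 h2
    by_contra hne
    apply h.linj j j' hne
    simp only at h1 h2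
    have e1 : b j = (dt (b j) V / NV) • (fun c => ((dt (b j) n1 / (NV * N3)) / (dt (b j) V / NV)) * n1 c + V c +
      ((dt (b j) n3 / N3) / (dt (b j) V / NV)) * n3 c : Ve) := funext fun c => by
        rw [Pi.smul_apply, smul_eq_mul]; exact vecb j c
    have e2 : b j' = (dt (b j') V / NV) • (fun c => ((dt (b j) n1 / (NV * N3)) / (dt (b j) V / NV)) * n1 c + V c +
      ((dt (b j) n3 / N3) / (dt (b j) V / NV)) * n3 c : Ve) := funext fun c => by
        rw [Pi.smul_apply, smul_eq_mul, h1, h2]; exact vecb j' c
    rw [e1, e2]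
    exact sq_smul _ _ _

end Pool.Agent.II95
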