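import Pool.Agent.II95.Ind2
import Pool.Agent.II95.Defs95
import Pool.Agent.Lib_MP_5661ce_lc.Scan

/-!
# From graphs to listed incidence structures
-/

set_option linter.unusedSectionVars false

namespace Pool.Agent.II95

open Pool.Agent.IncInd (Inc Name Nm T W Gate dd mem_dd nodup_dd nm_inj Lists Pr EsG VsG gates Good vertsG edgesG loc lE)
open Pool.Agent.IsoImp (Fml)

noncomputable section

/-! ### Different incidences -/

section

variable {V Ed : Type} {s t : Ed → V}

theorem kinj (hst : ∀ e, s e ≠ t e) (k k' : KK V Ed) (h1 : kp s t k = kp s t k')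
    (h2 : (kf k : FF V Ed) = kf k') : k = k' := by
  have hg : ∀ i i' : Fin 30, vp i = vp i' → vl i = vl i' → i = i' := by decide
  have hg2 : ∀ i : Fin 30, (vp i).isRight = true ∨ (vl i).isRight = true := by decide
  have hfr : ∀ q q' : Fin 4, (![0, 1, 1, 1] : Fin 4 → Fin 2) q = ![0, 1, 1, 1] q' →
      (![2, 2, 0, 1] : Fin 4 → Fin 3) q = ![2, 2, 0, 1] q' → q = q' := by decide
  rcases k with q | ⟨v, i⟩ | ⟨e, i⟩ <;> rcases k' with q' | ⟨v', i'⟩ | ⟨e', i'⟩
  · simp only [kp, kf, Sum.inl.injEq] at h1 h2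
    rw [hfr q q' h1 h2]
  · exfalso
    simp only [kp, kf] at h1 h2
    rcases hg2 i' with h | h
    · cases hh : vp i' with
      | inl a => rw [hh] at h; simp at h
      | inr a => rw [hh] at h1; simp at h1
    · cases hh : vl i' with
      | inl a => rw [hh] at h; simp at h
      | inr a => rw [hh] at h2; simp at h2
  · simp [kf] at h2
  · exfalso
    simp only [kp, kf] at h1 h2
    rcases hg2 i with h | h
    · cases hh : vp i with
      | inl a => rw [hh] at h; simp at h
      | inr a => rw [hh] at h1; simp at h1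
    · cases hh : vl i with
      | inl a => rw [hh] at h; simp at h
      | inr a => rw [hh] at h2; simp at h2
  · simp only [kp, kf] at h1 h2
    have hp : vp i = vp i' := by
      cases hh : vp i <;> cases hh' : vp i' <;> rw [hh, hh'] at h1 <;> simp at h1
      · rw [h1]
      · rw [h1.2]
    have hl : vl i = vl i' := by
      cases hh : vl i <;> cases hh' : vl i' <;> rw [hh, hh'] at h2 <;> simp at h2
      · rw [h2]
      · rw [h2.2]
    have hv : v = v' := by
      rcases hg2 i with h | h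
      · cases hh : vp i with
        | inl a => rw [hh] at h; simp at h
        | inr a =>
          rw [← hp, hh] at h1
          simp at h1
          exact h1
      · cases hh : vl i with
        | inl a => rw [hh] at h; simp at h
        | inr a =>
          rw [← hl, hh] at h2
          simp at h2
          exact h2
    rw [hg i i' hp hl, hv]
  · simp only [kf] at h2
    cases hh : vl i <;> rw [hh] at h2 <;> simp at h2
  · simp [kf] at h2
  · simp only [kf] at h2
    cases hh : vl i' <;> rw [hh] at h2 <;> simp at h2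
  · simp only [kf, Sum.inr.injEq, Prod.mk.injEq] at h2
    obtain ⟨rfl, h3⟩ := h2
    have h4 := hst e
    congr 3
    fin_cases i <;> fin_cases i' <;> simp [kp, h4, h4.symm] at h1 h3 ⊢

end

/-! ### Names -/

/-- All points. -/
abbrev PN := PP T (T × T)
/-- All lines. -/
abbrev FN := FF T (T × T)
/-- All incidences. -/
abbrev KN := KK T (T × T)

def rawPts (Vs : List T) (Es : List (T × T)) : List Name :=
  (List.finRange 2).map (fun i => Nm.nm (.inl i : PN)) ++
    (Vs.flatMap (fun v => (List.finRange 9).map (fun i => Nm.nm (.inr (.inl (v, i)) : PN))) ++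
      Es.map (fun e => Nm.nm (.inr (.inr e) : PN)))

def rawLns (Vs : List T) (Es : List (T × T)) : List Name :=
  (List.finRange 3).map (fun i => Nm.nm (.inl i : FN)) ++
    (Vs.flatMap (fun v => (List.finRange 7).map (fun i => Nm.nm (.inr (.inl (v, i)) : FN))) ++
      Es.flatMap (fun e => (List.finRange 2).map (fun i => Nm.nm (.inr (.inr (e, i)) : FN))))

/-- The names of an incidence. -/
def kn (k : KN) : Name × Name := (Nm.nm (kp Prod.fst Prod.snd k), Nm.nm (kf k : FN))

def rawInc (Vs : List T) (Es : List (T × T)) : List (Name × Name) :=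
  (List.finRange 4).map (fun i => kn (.inl i)) ++
    (Vs.flatMap (fun v => (List.finRange 30).map (fun i => kn (.inr (.inl (v, i))))) ++
      Es.flatMap (fun e => (List.finRange 5).map (fun i => kn (.inr (.inr (e, i))))))

/-- The listed structure of a graph. -/
def mkInc (Vs : List T) (Es : List (T × T)) : Inc :=
  ⟨dd (rawPts Vs Es), dd (rawLns Vs Es), dd (rawInc Vs Es)⟩

section

variable (Vs : List T) (Es : List (T × T))

abbrev VV := {v // v ∈ Vs}
abbrev EE := {e // e ∈ Es}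

instance instFintypeMem {A : Type} [DecidableEq A] (l : List A) : Fintype {a // a ∈ l} :=
  Fintype.subtype l.toFinset fun _ => List.mem_toFinset

variable {Vs Es}

def upP : PP (VV Vs) (EE Es) → PN := Sum.map id (Sum.map (Prod.map Subtype.val id) Subtype.val)
def upF : FF (VV Vs) (EE Es) → FN :=
  Sum.map id (Sum.map (Prod.map Subtype.val id) (Prod.map Subtype.val id))
def upK : KK (VV Vs) (EE Es) → KN :=
  Sum.map id (Sum.map (Prod.map Subtype.val id) (Prod.map Subtype.val id))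

theorem upP_inj : Function.Injective (upP : PP (VV Vs) (EE Es) → PN) :=
  Sum.map_injective.2 ⟨Function.injective_id, Sum.map_injective.2
    ⟨Subtype.val_injective.prodMap Function.injective_id, Subtype.val_injective⟩⟩

theorem upF_inj : Function.Injective (upF : FF (VV Vs) (EE Es) → FN) :=
  Sum.map_injective.2 ⟨Function.injective_id, Sum.map_injective.2
    ⟨Subtype.val_injective.prodMap Function.injective_id,
      Subtype.val_injective.prodMap Function.injective_id⟩⟩

theorem upP_kp {s t : EE Es → VV Vs} (hs : ∀ e, (s e).1 = e.1.1) (ht : ∀ e, (t e).1 = e.1.2)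
    (k : KK (VV Vs) (EE Es)) : upP (kp s t k) = kp Prod.fst Prod.snd (upK k) := by
  rcases k with q | ⟨v, i⟩ | ⟨e, i⟩
  · rfl
  · simp only [kp, upK, Sum.map_inr, Sum.map_inl, Prod.map_apply, id]
    cases vp i <;> rfl
  · fin_cases i
    · simp [kp, upK, upP, hs]
    · simp [kp, upK, upP, ht]
    · simp [kp, upK, upP]
    · simp [kp, upK, upP]
    · simp [kp, upK, upP]

theorem upF_kf (k : KK (VV Vs) (EE Es)) : upF (kf k) = kf (upK k) := by
  rcases k with q | ⟨v, i⟩ | ⟨e, i⟩
  · rfl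
  · simp only [kf, upK, Sum.map_inr, Sum.map_inl, Prod.map_apply, id]
    cases vl i <;> rfl
  · fin_cases i <;> rfl

/-- Names of the points. -/
def nP (Vs : List T) (Es : List (T × T)) : PP (VV Vs) (EE Es) → Name := fun i => Nm.nm (upP i)
/-- Names of the lines. -/
def nF (Vs : List T) (Es : List (T × T)) : FF (VV Vs) (EE Es) → Name := fun i => Nm.nm (upF i)

/-- The listing of the structure of a graph. -/
theorem lists {s t : EE Es → VV Vs} (hs : ∀ e, (s e).1 = e.1.1) (ht : ∀ e, (t e).1 = e.1.2)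
    (hst : ∀ e, s e ≠ t e) :
    Lists (mkInc Vs Es) (nP Vs Es) (nF Vs Es) (kp s t)
      (kf : KK (VV Vs) (EE Es) → FF (VV Vs) (EE Es)) := by
  refine ⟨nm_inj.comp upP_inj, nm_inj.comp upF_inj, kinj hst, ?_, ?_, ?_⟩
  · intro n
    show n ∈ dd (rawPts Vs Es) ↔ _
    rw [mem_dd, rawPts, List.mem_append, List.mem_append, List.mem_map, List.mem_flatMap, List.mem_map]
    constructor
    · rintro (⟨i, -, rfl⟩ | ⟨v, hv, h⟩ | ⟨e, he, rfl⟩)
      · exact ⟨.inl i, rfl⟩
      · obtain ⟨i, -, rfl⟩ := List.mem_map.1 h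
        exact ⟨.inr (.inl (⟨v, hv⟩, i)), rfl⟩
      · exact ⟨.inr (.inr ⟨e, he⟩), rfl⟩
    · rintro ⟨i | ⟨v, i⟩ | e, rfl⟩
      · exact Or.inl ⟨i, List.mem_finRange i, rfl⟩
      · exact Or.inr (Or.inl ⟨v.1, v.2, List.mem_map.2 ⟨i, List.mem_finRange i, rfl⟩⟩)
      · exact Or.inr (Or.inr ⟨e.1, e.2, rfl⟩)
  · intro n
    show n ∈ dd (rawLns Vs Es) ↔ _
    rw [mem_dd, rawLns, List.mem_append, List.mem_append, List.mem_map, List.mem_flatMap,
      List.mem_flatMap]
    constructor
    · rintro (⟨i, -, rfl⟩ | ⟨v, hv, h⟩ | ⟨e, he, h⟩)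
      · exact ⟨.inl i, rfl⟩
      · obtain ⟨i, -, rfl⟩ := List.mem_map.1 h
        exact ⟨.inr (.inl (⟨v, hv⟩, i)), rfl⟩
      · obtain ⟨i, -, rfl⟩ := List.mem_map.1 h
        exact ⟨.inr (.inr (⟨e, he⟩, i)), rfl⟩
    · rintro ⟨i | ⟨v, i⟩ | ⟨e, i⟩, rfl⟩
      · exact Or.inl ⟨i, List.mem_finRange i, rfl⟩
      · exact Or.inr (Or.inl ⟨v.1, v.2, List.mem_map.2 ⟨i, List.mem_finRange i, rfl⟩⟩)
      · exact Or.inr (Or.inr ⟨e.1, e.2, List.mem_map.2 ⟨i, List.mem_finRange i, rfl⟩⟩)
  · intro n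
    have key : ∀ k : KK (VV Vs) (EE Es), (Nm.nm (upP (kp s t k)), Nm.nm (upF (kf k))) = kn (upK k) := by
      intro k
      rw [upP_kp hs ht, upF_kf]
      rfl
    show n ∈ dd (rawInc Vs Es) ↔ _
    rw [mem_dd, rawInc, List.mem_append, List.mem_append, List.mem_map, List.mem_flatMap,
      List.mem_flatMap]
    constructor
    · rintro (⟨i, -, rfl⟩ | ⟨v, hv, h⟩ | ⟨e, he, h⟩)
      · exact ⟨.inl i, key _⟩
      · obtain ⟨i, -, rfl⟩ := List.mem_map.1 h
        exact ⟨.inr (.inl (⟨v, hv⟩, i)), key _⟩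
      · obtain ⟨i, -, rfl⟩ := List.mem_map.1 h
        exact ⟨.inr (.inr (⟨e, he⟩, i)), key _⟩
    · rintro ⟨i | ⟨v, i⟩ | ⟨e, i⟩, rfl⟩
      · exact Or.inl ⟨i, List.mem_finRange i, (key (.inl i)).symm⟩
      · exact Or.inr (Or.inl ⟨v.1, v.2, List.mem_map.2 ⟨i, List.mem_finRange i, (key (.inr (.inl (v, i)))).symm⟩⟩)
      · exact Or.inr (Or.inr ⟨e.1, e.2, List.mem_map.2 ⟨i, List.mem_finRange i, (key (.inr (.inr (e, i)))).symm⟩⟩)

/-- The structure of a graph without loops and without pairs of opposite edges. -/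
theorem mkInc_spec (hV : ∀ e ∈ Es, e.1 ∈ Vs ∧ e.2 ∈ Vs) (hVs : ∃ v, v ∈ Vs) (hloop : ∀ e ∈ Es, e.1 ≠ e.2)
    (hrev : ∀ e ∈ Es, (e.2, e.1) ∉ Es) :
    (mkInc Vs Es).Valid ∧
    ((∃ c : T → Fin 3, ∀ e ∈ Es, c e.1 ≠ c e.2) ↔
      ∃ x y A C : Name → ℝ, (mkInc Vs Es).Realizes x y A C ∧ Distinct (mkInc Vs Es) x y A C) ∧
    ∀ x y A C : Name → ℝ, (mkInc Vs Es).Realizes x y A C → Distinct (mkInc Vs Es) x y A C →
      (mkInc Vs Es).Nondegenerate x y A C ∧ LinearIndependent ℝ (fun e => (mkInc Vs Es).J x A e) := by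
  obtain ⟨v0, hv0⟩ := hVs
  have : Nonempty (VV Vs) := ⟨⟨v0, hv0⟩⟩
  let s : EE Es → VV Vs := fun e => ⟨e.1.1, (hV e.1 e.2).1⟩
  let t : EE Es → VV Vs := fun e => ⟨e.1.2, (hV e.1 e.2).2⟩
  have hst : ∀ e, s e ≠ t e := by
    intro e he
    exact hloop e.1 e.2 (congrArg Subtype.val he)
  have hL := lists (s := s) (t := t) (fun _ => rfl) (fun _ => rfl) hst
  have tr : ∀ x y A C : Name → ℝ, (mkInc Vs Es).Realizes x y A C → Distinct (mkInc Vs Es) x y A C →
      (∀ k, (A ∘ nF Vs Es) (kf k) * (x ∘ nP Vs Es) (kp s t k) +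
        (y ∘ nP Vs Es) (kp s t k) + (C ∘ nF Vs Es) (kf k) = 0) ∧
      (∀ i i', (x ∘ nP Vs Es) i = (x ∘ nP Vs Es) i' →
        (y ∘ nP Vs Es) i = (y ∘ nP Vs Es) i' → i = i') ∧
      (∀ j j', (A ∘ nF Vs Es) j = (A ∘ nF Vs Es) j' →
        (C ∘ nF Vs Es) j = (C ∘ nF Vs Es) j' → j = j') := by
    intro x y A C h1 h2
    refine ⟨fun k => h1 _ ((hL.inc _).2 ⟨k, rfl⟩), ?_, ?_⟩
    · intro i i' h3 h4
      exact hL.injP (h2.1 _ ((hL.pts _).2 ⟨i, rfl⟩) _ ((hL.pts _).2 ⟨i', rfl⟩) h3 h4)
    · intro j j' h3 h4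
      exact hL.injF (h2.2 _ ((hL.lns _).2 ⟨j, rfl⟩) _ ((hL.lns _).2 ⟨j', rfl⟩) h3 h4)
  refine ⟨⟨nodup_dd _, nodup_dd _, nodup_dd _, ?_⟩, ⟨?_, ?_⟩, ?_⟩
  · intro e he
    obtain ⟨k, rfl⟩ := (hL.inc e).1 he
    exact ⟨(hL.pts _).2 ⟨_, rfl⟩, (hL.lns _).2 ⟨_, rfl⟩⟩
  · rintro ⟨c, hc⟩
    obtain ⟨x, y, A, C, h1, h2, h3⟩ := complete (s := s) (t := t) (fun v => c v.1) (fun e => hc e.1 e.2)
      (fun e e' h1 h2 => Subtype.ext (Prod.ext (congrArg Subtype.val h1) (congrArg Subtype.val h2)))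
      (fun e e' h1 h2 => by
        apply hrev e.1 e.2
        have e1 : (e.1.2, e.1.1) = e'.1 :=
          Prod.ext (congrArg Subtype.val h2) (congrArg Subtype.val h1)
        rw [e1]
        exact e'.2)
    refine ⟨Function.extend (nP Vs Es) x 0, Function.extend (nP Vs Es) y 0,
      Function.extend (nF Vs Es) A 0, Function.extend (nF Vs Es) C 0, ?_, ?_, ?_⟩
    · have := (hL.good_iff (Function.extend (nP Vs Es) x 0) (Function.extend (nP Vs Es) y 0)
        (Function.extend (nF Vs Es) A 0) (Function.extend (nF Vs Es) C 0)).2 (by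
          rw [Function.extend_comp hL.injP, Function.extend_comp hL.injP, Function.extend_comp hL.injF,
            Function.extend_comp hL.injF]
          exact h1)
      exact this.1
    · intro n hn n' hn' h4 h5
      obtain ⟨i, rfl⟩ := (hL.pts n).1 hn
      obtain ⟨i', rfl⟩ := (hL.pts n').1 hn'
      rw [hL.injP.extend_apply, hL.injP.extend_apply] at h4 h5
      rw [h2 i i' h4 h5]
    · intro n hn n' hn' h4 h5
      obtain ⟨i, rfl⟩ := (hL.lns n).1 hn
      obtain ⟨i', rfl⟩ := (hL.lns n').1 hn'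
      rw [hL.injF.extend_apply, hL.injF.extend_apply] at h4 h5
      rw [h3 i i' h4 h5]
  · rintro ⟨x, y, A, C, h1, h2⟩
    obtain ⟨k1, k2, k3⟩ := tr x y A C h1 h2
    obtain ⟨col, hcol⟩ := sound_affine hst k1 k2 k3
    classical
    refine ⟨fun v => if hv : v ∈ Vs then col ⟨v, hv⟩ else 0, fun e he => ?_⟩
    have h3 := hcol ⟨e, he⟩
    simp only
    rw [dif_pos (hV e he).1, dif_pos (hV e he).2]
    exact h3
  · intro x y A C h1 h2
    obtain ⟨k1, k2, k3⟩ := tr x y A C h1 h2
    have := (hL.good_iff x y A C).2 (good_affine hst k1 k2 k3)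
    exact this.2

end

/-! ### No opposite edges -/

/-- Rank of a vertex. -/
def rk1 : T → ℕ
  | .inl i => 2 + i
  | .inr (.inl _) => 1
  | .inr (.inr (.inl _)) => 1
  | .inr (.inr (.inr (j, g))) => if g.1 = 0 then 0 else 5 + j
/-- Secondary rank of a vertex. -/
def rk2 : T → ℕ
  | .inr (.inl p) => p
  | _ => 0

/-- Edges increase the rank. -/
def Lt (e : T × T) : Prop := rk1 e.1 < rk1 e.2 ∨ (rk1 e.1 = rk1 e.2 ∧ rk2 e.1 < rk2 e.2)

theorem gates_neg (f : Fml Name) (p : ℕ) : ∀ g ∈ gates f p, g.1 = 1 → g.2.1 < g.2.2.1 := by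
  induction f generalizing p with
  | var x =>
    intro g hg
    simp only [gates, List.mem_singleton] at hg
    subst hg
    intro h
    simp at h
  | neg f ih =>
    intro g hg
    simp only [gates, List.mem_cons] at hg
    rcases hg with rfl | hg
    · intro _
      simp
    · exact ih _ g hg
  | and f f' ih ih' =>
    intro g hg
    simp only [gates, List.mem_cons, List.mem_append] at hg
    rcases hg with rfl | hg | hg
    · intro h
      simp at h
    · exact ih _ g hg
    · exact ih' _ g hg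
  | or f f' ih ih' =>
    intro g hg
    simp only [gates, List.mem_cons, List.mem_append] at hg
    rcases hg with rfl | hg | hg
    · intro h
      simp at h
    · exact ih _ g hg
    · exact ih' _ g hg

theorem EsG_lt (G : List Gate) (hG : ∀ g ∈ G, g.1 = 1 → g.2.1 < g.2.2.1) : ∀ e ∈ EsG G, Lt e := by
  intro e he
  rw [EsG, List.mem_append] at he
  rcases he with he | he
  · simp only [List.mem_cons, List.not_mem_nil, or_false] at he
    rcases he with rfl | rfl | rfl | rfl <;> simp [Lt, rk1]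
  · obtain ⟨g, hg, he⟩ := List.mem_flatMap.1 he
    obtain ⟨z, hz, rfl⟩ := List.mem_map.1 he
    have h1 := hG g hg
    obtain ⟨k, c, a, b, x⟩ := g
    simp only at hz h1
    fin_cases k
    · simp only [lE, Fin.zero_eta, Matrix.cons_val_zero, List.mem_cons, List.not_mem_nil,
        or_false] at hz
      rcases hz with rfl | rfl | rfl | rfl | rfl <;> simp [loc, Lt, rk1]
    · simp only [lE, Fin.mk_one, Matrix.cons_val_one, Matrix.cons_val_zero, List.mem_cons,
        List.not_mem_nil, or_false] at hz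
      have h2 : c < a := h1 rfl
      rcases hz with rfl | rfl
      · simp [loc, Lt, rk1]
      · simp [loc, Lt, rk1, rk2, h2]
    · simp only [lE, Fin.reduceFinMk, Matrix.cons_val, List.mem_cons, List.not_mem_nil,
        or_false] at hz
      rcases hz with rfl | rfl | rfl | rfl | rfl | rfl | rfl | rfl | rfl | rfl <;> simp [loc, Lt, rk1]
    · simp only [lE, Fin.reduceFinMk, Matrix.cons_val, List.mem_cons, List.not_mem_nil,
        or_false] at hz
      rcases hz with rfl | rfl | rfl | rfl | rfl | rfl | rfl | rfl | rfl | rfl <;> simp [loc, Lt, rk1]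

theorem EsG_rev (G : List Gate) (hG : ∀ g ∈ G, g.1 = 1 → g.2.1 < g.2.2.1) :
    ∀ e ∈ EsG G, (e.2, e.1) ∉ EsG G := by
  intro e he he'
  have h1 := EsG_lt G hG e he
  have h2 := EsG_lt G hG _ he'
  unfold Lt at h1 h2
  simp only at h2
  omega

theorem EsG_loop (G : List Gate) (hG : ∀ g ∈ G, g.1 = 1 → g.2.1 < g.2.2.1) : ∀ e ∈ EsG G, e.1 ≠ e.2 := by
  intro e he heq
  have h1 := EsG_lt G hG e he
  unfold Lt at h1
  rw [heq] at h1
  omega

/-- All vertices. -/
def VsT (G : List Gate) : List T :=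
  [.inl 0, .inl 1, .inl 2] ++ (VsG G).map Sum.inr

theorem EsG_mem' (G : List Gate) : ∀ e ∈ EsG G, e.1 ∈ VsT G ∧ e.2 ∈ VsT G := by
  intro e he
  have h := Pool.Agent.IncInd.EsG_mem G e he
  have key : ∀ v : T, (∀ w, v = .inr w → w ∈ VsG G) → v ∈ VsT G := by
    intro v hv
    rw [VsT, List.mem_append]
    rcases v with i | w
    · left
      fin_cases i <;> simp
    · right
      exact List.mem_map.2 ⟨w, hv w rfl, rfl⟩
  exact ⟨key _ fun w hw => h w (Or.inl hw), key _ fun w hw => h w (Or.inr hw)⟩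

/-- Colourings with the standard colours of the palette. -/
theorem col_iff (G : List Gate) : (∃ c : T → Fin 3, ∀ e ∈ EsG G, c e.1 ≠ c e.2) ↔
    ∃ c : W → Fin 3, ∀ e ∈ EsG G, Pr c e := by
  constructor
  · rintro ⟨c, hc⟩
    have h01 : c (.inl 0) ≠ c (.inl 1) := hc (.inl 0, .inl 1) (by simp [EsG])
    have h02 : c (.inl 0) ≠ c (.inl 2) := hc (.inl 0, .inl 2) (by simp [EsG])
    have h12 : c (.inl 1) ≠ c (.inl 2) := hc (.inl 1, .inl 2) (by simp [EsG])
    have key : ∀ a b d : Fin 3, a ≠ b → a ≠ d → b ≠ d → ∃ π : Fin 3 → Fin 3, Function.Injective π ∧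
        π a = 0 ∧ π b = 1 ∧ π d = 2 := by
      unfold Function.Injective
      decide
    obtain ⟨π, hπ, p0, p1, p2⟩ := key _ _ _ h01 h02 h12
    refine ⟨fun w => π (c (.inr w)), fun e he => ?_⟩
    have h := hc e he
    have tr : ∀ v : T, (Sum.elim id (fun w => π (c (.inr w))) v : Fin 3) = π (c v) := by
      rintro (i | w)
      · fin_cases i
        · exact p0.symm
        · exact p1.symm
        · exact p2.symm
      · rfl
    unfold Pr
    rw [tr, tr]
    exact fun h' => h (hπ h')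
  · rintro ⟨c, hc⟩
    exact ⟨fun v => Sum.elim id c v, hc⟩

/-- The incidence structure of a formula. -/
def incOf (G : List Gate) : Inc := mkInc (VsT G) (EsG G)

theorem incOf_spec (f : Fml Name) : (incOf (gates f 0)).Valid ∧
    ((∃ α : Name → Bool, f.eval α = true) → StrongYes (incOf (gates f 0))) ∧
    (¬ (∃ α : Name → Bool, f.eval α = true) → StrongNo (incOf (gates f 0))) := by
  have h := mkInc_spec (EsG_mem' (gates f 0)) ⟨.inl 0, by simp [VsT]⟩ (EsG_loop _ (gates_neg f 0))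
    (EsG_rev _ (gates_neg f 0))
  obtain ⟨h1, h2, h3⟩ := h
  rw [col_iff, Pool.Agent.IncInd.color_iff] at h2
  refine ⟨h1, fun hs => ⟨h2.1 hs, h3⟩, fun hs hn => hs (h2.2 hn)⟩

end

end Pool.Agent.II95
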