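import Pool.Agent.II95.Local
import Pool.Agent.II95.Proj

/-!
# The incidence structure of a graph
-/

namespace Pool.Agent.II95

open Finset

set_option linter.unusedSectionVars false

/-- Points. -/
abbrev PP (V Ed : Type) := Fin 2 ⊕ ((V × Fin 9) ⊕ Ed)
/-- Lines. -/
abbrev FF (V Ed : Type) := Fin 3 ⊕ ((V × Fin 7) ⊕ (Ed × Fin 2))
/-- Incidences. -/
abbrev KK (V Ed : Type) := Fin 4 ⊕ ((V × Fin 30) ⊕ (Ed × Fin 5))

section

variable {V Ed : Type} (s t : Ed → V)

/-- The point of an incidence. -/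
def kp : KK V Ed → PP V Ed
  | .inl k => .inl (![0, 1, 1, 1] k)
  | .inr (.inl (v, k)) => Sum.elim (fun c => .inl c) (fun m => .inr (.inl (v, m))) (vp k)
  | .inr (.inr (e, k)) => ![.inr (.inl (s e, 4)), .inr (.inl (t e, 4)), .inr (.inr e), .inl 1, .inr (.inr e)] k

/-- The line of an incidence. -/
def kf : KK V Ed → FF V Ed
  | .inl k => .inl (![2, 2, 0, 1] k)
  | .inr (.inl (v, k)) => Sum.elim (fun c => .inl c) (fun m => .inr (.inl (v, m))) (vl k)
  | .inr (.inr (e, k)) => .inr (.inr (e, ![0, 0, 0, 1, 1] k))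

end

/-! ### Soundness -/

/-- Determinant. -/
def det3 (a b c : Ve) : ℝ := dt (cr a b) c

theorem cramer (a b c v : Ve) (i : Fin 3) : det3 a b c * v i = dt a v * cr b c i + dt b v * cr c a i +
    dt c v * cr a b i := by
  fin_cases i <;> simp [det3, dt, cr] <;> ring

theorem det_mul (l e i p q r : Ve) : det3 ![dt l p, dt e p, dt i p] ![dt l q, dt e q, dt i q]
    ![dt l r, dt e r, dt i r] = det3 l e i * det3 p q r := by
  simp [det3, dt, cr]
  ring

theorem dt_comm (a b : Ve) : dt a b = dt b a := by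
  unfold dt
  ring

/-- Three points on a line. -/
theorem det_zero {p q r L : Ve} (hL : L ≠ 0) (h1 : dt p L = 0) (h2 : dt q L = 0) (h3 : dt r L = 0) :
    det3 p q r = 0 := by
  by_contra hne
  apply hL
  funext i
  have := cramer p q r L i
  rw [h1, h2, h3] at this
  simp only [zero_mul, add_zero, mul_eq_zero] at this
  exact this.resolve_left hne

theorem eq_zero_of_forms {l e i P : Ve} (h : det3 l e i ≠ 0) (h1 : dt l P = 0) (h2 : dt e P = 0)
    (h3 : dt i P = 0) : P = 0 := by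
  funext c
  have := cramer l e i P c
  rw [h1, h2, h3] at this
  simp only [zero_mul, add_zero, mul_eq_zero] at this
  exact this.resolve_left h

/-- Two points determine a line. -/
theorem two_points {a b m n : Ve} (hab : sq a b ≠ 0) (h1 : dt a m = 0) (h2 : dt b m = 0) (h3 : dt a n = 0)
    (h4 : dt b n = 0) : sq m n = 0 := by
  have e : ∀ i j : Fin 3, sq a b * (m i * n j - m j * n i) = 0 := by
    have key : ∀ (v : Ve) (i : Fin 3), dt a v = 0 → dt b v = 0 → sq a b * v i = dt (cr a b) v * cr a b i := by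
      intro v i hv1 hv2
      have h5 : sq a b * v i = dt (cr a b) v * cr a b i + dt a v * (dt b b * a i - dt a b * b i) +
          dt b v * (dt a a * b i - dt a b * a i) := by
        fin_cases i <;> simp [sq, dt, cr] <;> ring
      rw [h5, hv1, hv2]
      ring
    intro i j
    have k1 := key m i h1 h2
    have k2 := key m j h1 h2
    have k3 := key n i h3 h4
    have k4 := key n j h3 h4
    apply mul_left_cancel₀ hab
    linear_combination sq a b * n j * k1 - sq a b * n i * k2 + dt (cr a b) m * cr a b i * k4 -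
      dt (cr a b) m * cr a b j * k3
  rw [sq_eq_zero_iff]
  have e1 := (mul_eq_zero.1 (e 1 2)).resolve_left hab
  have e2 := (mul_eq_zero.1 (e 2 0)).resolve_left hab
  have e3 := (mul_eq_zero.1 (e 0 1)).resolve_left hab
  refine ⟨?_, ?_, ?_⟩ <;> linarith

/-- A vector in the span of two others. -/
theorem span_of_det {m n l : Ve} (hmn : sq m n ≠ 0) (hdet : dt l (cr m n) = 0) :
    ∃ α β : ℝ, ∀ c, l c = α * m c + β * n c := by
  refine ⟨dt (cr l n) (cr m n) / sq m n, dt (cr m l) (cr m n) / sq m n, fun c => ?_⟩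
  have h5 : sq m n * l c = dt (cr l n) (cr m n) * m c + dt (cr m l) (cr m n) * n c + dt l (cr m n) * cr m n c := by
    fin_cases c <;> simp [sq, dt, cr] <;> ring
  rw [hdet] at h5
  field_simp
  linear_combination h5

/-- A third line through the common point of two lines. -/
theorem pencil {m n l z : Ve} (hz : z ≠ 0) (hmn : sq m n ≠ 0) (h1 : dt z m = 0) (h2 : dt z n = 0)
    (h3 : dt z l = 0) : ∃ α β : ℝ, ∀ c, l c = α * m c + β * n c := by
  apply span_of_det hmn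
  have h4 : sq (cr m n) z = 0 := by
    have : sq (cr m n) z = (n 0 * dt z m - m 0 * dt z n) ^ 2 + (n 1 * dt z m - m 1 * dt z n) ^ 2 +
        (n 2 * dt z m - m 2 * dt z n) ^ 2 := by
      simp [sq, cr, dt]
      ring
    rw [this, h1, h2]
    ring
  obtain ⟨s, hs⟩ := prop_of_sq hz h4
  rw [hs]
  have : dt l (s • z) = s * dt z l := by
    simp [dt]
    ring
  rw [this, h3, mul_zero]

/-- The coordinates of the selector: a nonzero multiple. -/
theorem sel_alg (y ε1 ε2 ε3 ε4 ε5 d1 d2 f1 f2 q1 q2 q3 r1 r3 : ℝ) (h1 : ε1 ≠ 0) (h2 : ε2 ≠ 0) (h3 : ε3 ≠ 0)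
    (h4 : ε4 ≠ 0) (h5 : ε5 ≠ 0) (hD : ¬ (d1 = 0 ∧ d2 = 0)) (hF : ¬ (f1 = 0 ∧ f2 = 0))
    (hQ : ¬ (q1 = 0 ∧ q2 = 0 ∧ q3 = 0)) (hR : ¬ (r1 = 0 ∧ r3 = 0))
    (k1 : det3 ![0, 0, ε1] ![ε4, ε4, ε4] ![d1, d2, 0] = 0)
    (k2 : det3 ![0, y * ε5, ε5] ![ε4, ε4, ε4] ![f1, f2, 0] = 0)
    (k3 : det3 ![0, y * ε5, ε5] ![ε4, ε4, ε4] ![r1, 0, r3] = 0)
    (k4 : det3 ![0, y * ε5, ε5] ![ε3, 0, ε3] ![q1, q2, q3] = 0)
    (k5 : det3 ![0, ε2, ε2] ![f1, f2, 0] ![q1, q2, q3] = 0)
    (k6 : det3 ![d1, d2, 0] ![q1, q2, q3] ![r1, 0, r3] = 0) : cub y = 0 := by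
  simp [det3, dt, cr] at k1 k2 k3 k4 k5 k6
  have a1 : d2 = d1 := by
    apply mul_left_cancel₀ (mul_ne_zero h1 h4)
    linear_combination k1
  subst a1
  have a2 : f2 = (1 - y) * f1 := by
    apply mul_left_cancel₀ (mul_ne_zero h5 h4)
    linear_combination k2
  subst a2
  have a3 : (y - 1) * r1 = y * r3 := by
    apply mul_left_cancel₀ (mul_ne_zero h5 h4)
    linear_combination k3
  have hf1 : f1 ≠ 0 := by
    rintro rfl
    simp at hF
  have hd1 : d2 ≠ 0 := by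
    rintro rfl
    simp at hD
  have a4 : y * q1 + q2 - y * q3 = 0 := by
    apply mul_left_cancel₀ (mul_ne_zero h5 h3)
    linear_combination k4
  have a5 : (y - 1) * q1 + q2 - q3 = 0 := by
    apply mul_left_cancel₀ (mul_ne_zero h2 hf1)
    linear_combination k5
  have a6 : q1 = (y - 1) * q3 := by linear_combination a4 - a5
  subst a6
  have a7 : q2 = (2 * y - y ^ 2) * q3 := by linear_combination a4
  subst a7
  have hq3 : q3 ≠ 0 := by
    rintro rfl
    simp at hQ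
  obtain ⟨σ, hσ⟩ : ∃ σ, σ = r1 - r3 := ⟨_, rfl⟩
  have b1 : r1 = y * σ := by rw [hσ]; linear_combination -a3
  have b3 : r3 = (y - 1) * σ := by rw [hσ]; linear_combination -a3
  have hσ0 : σ ≠ 0 := by
    intro h0
    rw [h0] at b1 b3
    exact hR ⟨by linarith, by linarith⟩
  rw [b1, b3] at k6
  unfold cub
  apply mul_left_cancel₀ (mul_ne_zero (mul_ne_zero hd1 hq3) hσ0)
  linear_combination -k6

/-- The selector forces a root of the cubic. -/
theorem selector {α β : ℝ} (hα : α ≠ 0) (hβ : β ≠ 0) {O Z e0 w0 i0 : Ve} {p : Fin 9 → Ve} {g : Fin 7 → Ve}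
    (hw : ∀ c, w0 c = α * e0 c + β * i0 c) (P0 : ∀ m, p m ≠ 0) (L0 : ∀ m, g m ≠ 0) (hO0 : O ≠ 0)
    (hXO : sq (p 4) O ≠ 0) (hli : sq (g 0) i0 ≠ 0) (hl'i : sq (g 1) i0 ≠ 0) (hl'l : sq (g 1) (g 0) ≠ 0)
    (hei : sq e0 i0 ≠ 0) (hOZ : sq O Z ≠ 0)
    (iO : dt O i0 = 0) (iZi : dt Z i0 = 0) (iZe : dt Z e0 = 0)
    (i0' : dt O (g 0) = 0) (i1 : dt O (g 1) = 0) (i2 : dt (p 0) e0 = 0) (i3 : dt (p 2) e0 = 0)
    (i4 : dt (p 8) e0 = 0) (i5 : dt (p 1) w0 = 0) (i6 : dt (p 3) w0 = 0) (i7 : dt (p 5) i0 = 0)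
    (i8 : dt (p 6) i0 = 0) (i9 : dt (p 0) (g 0) = 0) (i10 : dt (p 1) (g 0) = 0) (i11 : dt (p 4) (g 0) = 0)
    (i12 : dt (p 2) (g 1) = 0) (i13 : dt (p 3) (g 1) = 0) (i14 : dt (p 0) (g 2) = 0) (i15 : dt (p 3) (g 2) = 0)
    (i16 : dt (p 5) (g 2) = 0) (i17 : dt (p 4) (g 3) = 0) (i18 : dt (p 3) (g 3) = 0) (i19 : dt (p 6) (g 3) = 0)
    (i20 : dt (p 8) (g 3) = 0) (i21 : dt (p 4) (g 4) = 0) (i22 : dt (p 2) (g 4) = 0) (i23 : dt (p 7) (g 4) = 0)
    (i24 : dt (p 1) (g 5) = 0) (i25 : dt (p 6) (g 5) = 0) (i26 : dt (p 7) (g 5) = 0) (i27 : dt (p 5) (g 6) = 0)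
    (i28 : dt (p 7) (g 6) = 0) (i29 : dt (p 8) (g 6) = 0) :
    dt i0 (p 4) ≠ 0 ∧ cub ((α * dt e0 (p 4)) / (-β * dt i0 (p 4))) = 0 := by
  have hX : dt i0 (p 4) ≠ 0 := by
    intro h0
    apply hXO
    exact two_points hli (by rw [dt_comm]; exact i11) h0 (by rw [dt_comm]; exact i0') (by rw [dt_comm]; exact iO)
  obtain ⟨α', β', hl'⟩ := pencil hO0 hli i0' iO i1
  have hα' : α' ≠ 0 := by
    rintro rfl
    apply hl'i
    have e : g 1 = β' • i0 := funext fun c => by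
      rw [hl' c]
      simp
    rw [e]
    simpa using sq_smul β' 1 i0
  have hβ' : β' ≠ 0 := by
    rintro rfl
    apply hl'l
    have e : g 1 = α' • g 0 := funext fun c => by
      rw [hl' c]
      simp
    rw [e]
    simpa using sq_smul α' 1 (g 0)
  -- the frame is a frame
  have hdet0 : det3 (g 0) e0 i0 ≠ 0 := by
    intro h0
    have h1 : dt e0 (cr (g 0) i0) = 0 := by
      have : dt e0 (cr (g 0) i0) = - det3 (g 0) e0 i0 := by
        simp [det3, dt, cr]
        ring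
      rw [this, h0, neg_zero]
    obtain ⟨x, x', hx⟩ := span_of_det hli h1
    have h2 : dt O e0 = 0 := by
      have : dt O e0 = x * dt O (g 0) + x' * dt O i0 := by
        simp only [dt, hx]
        ring
      rw [this, i0', iO]
      ring
    exact hei (two_points hOZ h2 iZe iO iZi)
  obtain ⟨l, hl⟩ : ∃ l : Ve, l = (β * α' / β') • g 0 := ⟨_, rfl⟩
  obtain ⟨e, he⟩ : ∃ e : Ve, e = α • e0 := ⟨_, rfl⟩
  obtain ⟨i, hi⟩ : ∃ i : Ve, i = (-β) • i0 := ⟨_, rfl⟩
  have dtl : ∀ P, dt l P = (β * α' / β') * dt P (g 0) := fun P => by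
    rw [hl]
    simp only [dt, Pi.smul_apply, smul_eq_mul]
    ring
  have dte : ∀ P, dt e P = α * dt P e0 := fun P => by
    rw [he]
    simp only [dt, Pi.smul_apply, smul_eq_mul]
    ring
  have dti : ∀ P, dt i P = (-β) * dt P i0 := fun P => by
    rw [hi]
    simp only [dt, Pi.smul_apply, smul_eq_mul]
    ring
  have hdet : det3 l e i ≠ 0 := by
    have : det3 l e i = (β * α' / β') * α * (-β) * det3 (g 0) e0 i0 := by
      rw [hl, he, hi]
      simp only [det3, dt, cr, Pi.smul_apply, smul_eq_mul, Matrix.cons_val, Matrix.cons_val_zero,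
        Matrix.cons_val_one]
      ring
    rw [this]
    refine mul_ne_zero (mul_ne_zero (mul_ne_zero (div_ne_zero (mul_ne_zero hβ hα') hβ') hα) (neg_ne_zero.2 hβ)) hdet0
  have onw : ∀ P, dt P w0 = 0 → dt e P = dt i P := by
    intro P hP
    rw [dte, dti]
    have : dt P w0 = α * dt P e0 + β * dt P i0 := by
      simp only [dt, hw]
      ring
    linear_combination hP - this
  have onl' : ∀ P, dt P (g 1) = 0 → dt l P = dt i P := by
    intro P hP
    rw [dtl, dti]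
    have h1 : dt P (g 1) = α' * dt P (g 0) + β' * dt P i0 := by
      simp only [dt, hl']
      ring
    rw [hP] at h1
    field_simp
    linear_combination -h1
  have nz : ∀ m, ¬ (dt l (p m) = 0 ∧ dt e (p m) = 0 ∧ dt i (p m) = 0) := fun m h =>
    P0 m (eq_zero_of_forms hdet h.1 h.2.1 h.2.2)
  have col : ∀ (m : Fin 7) (q1 q2 q3 : Fin 9), dt (p q1) (g m) = 0 → dt (p q2) (g m) = 0 →
      dt (p q3) (g m) = 0 → det3 ![dt l (p q1), dt e (p q1), dt i (p q1)] ![dt l (p q2), dt e (p q2), dt i (p q2)]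
        ![dt l (p q3), dt e (p q3), dt i (p q3)] = 0 := by
    intro m q1 q2 q3 h1 h2 h3
    rw [det_mul, det_zero (L0 m) h1 h2 h3, mul_zero]
  -- coordinates
  have E1 : dt l (p 0) = 0 := by rw [dtl, i9, mul_zero]
  have E2 : dt e (p 0) = 0 := by rw [dte, i2, mul_zero]
  have W1 : dt l (p 1) = 0 := by rw [dtl, i10, mul_zero]
  have W2 : dt e (p 1) = dt i (p 1) := onw _ i5
  have E'1 : dt l (p 2) = dt i (p 2) := onl' _ i12
  have E'2 : dt e (p 2) = 0 := by rw [dte, i3, mul_zero]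
  have W'1 : dt l (p 3) = dt i (p 3) := onl' _ i13
  have W'2 : dt e (p 3) = dt i (p 3) := onw _ i6
  have X1 : dt l (p 4) = 0 := by rw [dtl, i11, mul_zero]
  have X3 : dt i (p 4) ≠ 0 := by
    rw [dti, dt_comm]
    exact mul_ne_zero (neg_ne_zero.2 hβ) hX
  have X2 : dt e (p 4) = (α * dt e0 (p 4)) / (-β * dt i0 (p 4)) * dt i (p 4) := by
    rw [dte, dti, dt_comm (p 4) e0, dt_comm (p 4) i0]
    have := mul_ne_zero (neg_ne_zero.2 hβ) hX
    field_simp
  have D3 : dt i (p 5) = 0 := by rw [dti, i7, mul_zero]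
  have F3 : dt i (p 6) = 0 := by rw [dti, i8, mul_zero]
  have R2 : dt e (p 8) = 0 := by rw [dte, i4, mul_zero]
  have k1 := col 2 0 3 5 i14 i15 i16
  have k2 := col 3 4 3 6 i17 i18 i19
  have k3 := col 3 4 3 8 i17 i18 i20
  have k4 := col 4 4 2 7 i21 i22 i23
  have k5 := col 5 1 6 7 i24 i25 i26
  have k6 := col 6 5 7 8 i27 i28 i29
  rw [E1, E2, W'1, W'2, D3] at k1
  rw [X1, X2, W'1, W'2, F3] at k2
  rw [X1, X2, W'1, W'2, R2] at k3
  rw [X1, X2, E'1, E'2] at k4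
  rw [W1, W2, F3] at k5
  rw [D3, R2] at k6
  refine ⟨hX, sel_alg _ (dt i (p 0)) (dt i (p 1)) (dt i (p 2)) (dt i (p 3)) (dt i (p 4)) (dt l (p 5)) (dt e (p 5))
    (dt l (p 6)) (dt e (p 6)) (dt l (p 7)) (dt e (p 7)) (dt i (p 7)) (dt l (p 8)) (dt i (p 8))
    ?_ ?_ ?_ ?_ X3 ?_ ?_ (nz 7) ?_ k1 k2 k3 k4 k5 k6⟩
  · intro h0
    exact nz 0 ⟨E1, E2, h0⟩
  · intro h0
    exact nz 1 ⟨W1, W2.trans h0, h0⟩
  · intro h0
    exact nz 2 ⟨E'1.trans h0, E'2, h0⟩
  · intro h0
    exact nz 3 ⟨W'1.trans h0, W'2.trans h0, h0⟩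
  · rintro ⟨h0, h1⟩
    exact nz 5 ⟨h0, h1, D3⟩
  · rintro ⟨h0, h1⟩
    exact nz 6 ⟨h0, h1, F3⟩
  · rintro ⟨h0, h1⟩
    exact nz 8 ⟨h0, R2, h1⟩

section sound

variable {V Ed : Type} {s t : Ed → V} {a : PP V Ed → Ve} {b : FF V Ed → Ve}
  (inc : ∀ k, dt (a (kp s t k)) (b (kf k)) = 0) (pinj : ∀ i i', i ≠ i' → sq (a i) (a i') ≠ 0)
  (linj : ∀ j j', j ≠ j' → sq (b j) (b j') ≠ 0)

include inc pinj linj

theorem pne (i : PP V Ed) : a i ≠ 0 := by
  intro h0
  have h1 : sq (a (.inl 0)) (a (.inl 1)) ≠ 0 := pinj _ _ (by simp)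
  by_cases hi : i = .inl 0
  · subst hi
    apply h1
    rw [h0]
    simp [sq]
  · apply pinj i (.inl 0) hi
    rw [h0]
    simp [sq]

theorem lne (j : FF V Ed) : b j ≠ 0 := by
  intro h0
  have h1 : sq (b (.inl 0)) (b (.inl 1)) ≠ 0 := linj _ _ (by simp)
  by_cases hi : j = .inl 0
  · subst hi
    apply h1
    rw [h0]
    simp [sq]
  · apply linj j (.inl 0) hi
    rw [h0]
    simp [sq]

/-- The frame. -/
theorem frame : ∃ α β : ℝ, α ≠ 0 ∧ β ≠ 0 ∧ ∀ c, b (.inl 1) c = α * b (.inl 0) c + β * b (.inl 2) c := by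
  have h1 : dt (a (.inl 1)) (b (.inl 2)) = 0 := by simpa [kp, kf] using inc (.inl 1)
  have h2 : dt (a (.inl 1)) (b (.inl 0)) = 0 := by simpa [kp, kf] using inc (.inl 2)
  have h3 : dt (a (.inl 1)) (b (.inl 1)) = 0 := by simpa [kp, kf] using inc (.inl 3)
  obtain ⟨α, β, h⟩ := pencil (pne inc pinj linj _) (linj (.inl 0) (.inl 2) (by simp)) h2 h1 h3
  refine ⟨α, β, ?_, ?_, h⟩
  · rintro rfl
    apply linj (.inl 1) (.inl 2) (by simp)
    have e : b (.inl 1) = β • b (.inl 2) := funext fun c => by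
      rw [h c]
      simp
    rw [e]
    simpa using sq_smul β 1 (b (.inl 2))
  · rintro rfl
    apply linj (.inl 1) (.inl 0) (by simp)
    have e : b (.inl 1) = α • b (.inl 0) := funext fun c => by
      rw [h c]
      simp
    rw [e]
    simpa using sq_smul α 1 (b (.inl 0))

theorem vertex {α β : ℝ} (hα : α ≠ 0) (hβ : β ≠ 0)
    (hw : ∀ c, b (.inl 1) c = α * b (.inl 0) c + β * b (.inl 2) c) (v : V) :
    dt (b (.inl 2)) (a (.inr (.inl (v, 4)))) ≠ 0 ∧
      cub ((α * dt (b (.inl 0)) (a (.inr (.inl (v, 4))))) / (-β * dt (b (.inl 2)) (a (.inr (.inl (v, 4)))))) = 0 := by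
  have i0 := inc (.inr (.inl (v, 0)))
  have i1 := inc (.inr (.inl (v, 1)))
  have i2 := inc (.inr (.inl (v, 2)))
  have i3 := inc (.inr (.inl (v, 3)))
  have i4 := inc (.inr (.inl (v, 4)))
  have i5 := inc (.inr (.inl (v, 5)))
  have i6 := inc (.inr (.inl (v, 6)))
  have i7 := inc (.inr (.inl (v, 7)))
  have i8 := inc (.inr (.inl (v, 8)))
  have i9 := inc (.inr (.inl (v, 9)))
  have i10 := inc (.inr (.inl (v, 10)))
  have i11 := inc (.inr (.inl (v, 11)))
  have i12 := inc (.inr (.inl (v, 12)))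
  have i13 := inc (.inr (.inl (v, 13)))
  have i14 := inc (.inr (.inl (v, 14)))
  have i15 := inc (.inr (.inl (v, 15)))
  have i16 := inc (.inr (.inl (v, 16)))
  have i17 := inc (.inr (.inl (v, 17)))
  have i18 := inc (.inr (.inl (v, 18)))
  have i19 := inc (.inr (.inl (v, 19)))
  have i20 := inc (.inr (.inl (v, 20)))
  have i21 := inc (.inr (.inl (v, 21)))
  have i22 := inc (.inr (.inl (v, 22)))
  have i23 := inc (.inr (.inl (v, 23)))
  have i24 := inc (.inr (.inl (v, 24)))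
  have i25 := inc (.inr (.inl (v, 25)))
  have i26 := inc (.inr (.inl (v, 26)))
  have i27 := inc (.inr (.inl (v, 27)))
  have i28 := inc (.inr (.inl (v, 28)))
  have i29 := inc (.inr (.inl (v, 29)))
  have iO : dt (a (.inl 0)) (b (.inl 2)) = 0 := by simpa [kp, kf] using inc (.inl 0)
  have iZi : dt (a (.inl 1)) (b (.inl 2)) = 0 := by simpa [kp, kf] using inc (.inl 1)
  have iZe : dt (a (.inl 1)) (b (.inl 0)) = 0 := by simpa [kp, kf] using inc (.inl 2)
  simp only [kp, kf, vp, vl, Matrix.cons_val, Matrix.cons_val_zero, Matrix.cons_val_one, Sum.elim_inl,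
    Sum.elim_inr] at i0 i1 i2 i3 i4 i5 i6 i7 i8 i9 i10 i11 i12 i13 i14 i15 i16 i17 i18 i19 i20 i21 i22 i23 i24 i25 i26 i27 i28 i29
  exact selector hα hβ (p := fun m => a (.inr (.inl (v, m)))) (g := fun m => b (.inr (.inl (v, m))))
    (O := a (.inl 0)) (Z := a (.inl 1)) hw (fun m => pne inc pinj linj _)
    (fun m => lne inc pinj linj _) (pne inc pinj linj _) (pinj _ _ (by simp)) (linj _ _ (by simp))
    (linj _ _ (by simp)) (linj _ _ (by simp)) (linj _ _ (by simp)) (pinj _ _ (by simp)) iO iZi iZe i0 i1 i2 i3 i4 i5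
    i6 i7 i8 i9 i10 i11 i12 i13 i14 i15 i16 i17 i18 i19 i20 i21 i22 i23 i24 i25 i26 i27 i28 i29

/-- A realization gives a colouring. -/
theorem sound (hst : ∀ e, s e ≠ t e) : ∃ col : V → Fin 3, ∀ e, col (s e) ≠ col (t e) := by
  obtain ⟨α, β, hα, hβ, hw⟩ := frame inc pinj linj
  obtain ⟨ρ, -, -, hρ⟩ := exists_roots
  have hv := vertex inc pinj linj hα hβ hw
  choose col hcol using fun v => hρ _ (hv v).2
  refine ⟨col, fun e he => ?_⟩
  have k0 := inc (.inr (.inr (e, 0)))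
  have k1 := inc (.inr (.inr (e, 1)))
  have k2 := inc (.inr (.inr (e, 2)))
  have k3 := inc (.inr (.inr (e, 3)))
  have k4 := inc (.inr (.inr (e, 4)))
  have iZi : dt (a (.inl 1)) (b (.inl 2)) = 0 := by simpa [kp, kf] using inc (.inl 1)
  have iZe : dt (a (.inl 1)) (b (.inl 0)) = 0 := by simpa [kp, kf] using inc (.inl 2)
  simp only [kp, kf, Matrix.cons_val, Matrix.cons_val_zero, Matrix.cons_val_one] at k0 k1 k2 k3 k4
  have hs := hcol (s e)
  have ht := hcol (t e)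
  rw [← he] at ht
  have xs := (hv (s e)).1
  have xt := (hv (t e)).1
  -- the common line
  obtain ⟨m, hm⟩ : ∃ m : Ve, m = fun c => α * b (.inl 0) c + ρ (col (s e)) * β * b (.inl 2) c := ⟨_, rfl⟩
  have dtm : ∀ P, dt P m = α * dt (b (.inl 0)) P + ρ (col (s e)) * β * dt (b (.inl 2)) P := fun P => by
    rw [hm]
    simp only [dt]
    ring
  have ms : dt (a (.inr (.inl (s e, 4)))) m = 0 := by
    rw [dtm]
    field_simp at hs
    linear_combination -hs
  have mt : dt (a (.inr (.inl (t e, 4)))) m = 0 := by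
    rw [dtm]
    field_simp at ht
    linear_combination -ht
  have mZ : dt (a (.inl 1)) m = 0 := by
    rw [dtm, dt_comm (b (.inl 0)), dt_comm (b (.inl 2)), iZi, iZe]
    ring
  have hne : sq (a (.inr (.inl (s e, 4)))) (a (.inr (.inl (t e, 4)))) ≠ 0 := pinj _ _ (by simpa using hst e)
  have hm0 : m ≠ 0 := by
    intro h0
    apply linj (.inl 0) (.inl 2) (by simp)
    have e1 : b (.inl 0) = (-(ρ (col (s e)) * β) / α) • b (.inl 2) := funext fun c => by
      have := congrFun (hm.symm.trans h0) c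
      simp only [Pi.zero_apply] at this
      rw [Pi.smul_apply, smul_eq_mul]
      field_simp
      linear_combination this
    rw [e1]
    simpa using sq_smul (-(ρ (col (s e)) * β) / α) 1 (b (.inl 2))
  have h1 : sq m (b (.inr (.inr (e, 0)))) = 0 := two_points hne ms mt k0 k1
  have hk0 : b (.inr (.inr (e, 0))) ≠ 0 := lne inc pinj linj _
  obtain ⟨κ, hκ⟩ := prop_of_sq hm0 (by rw [sq_symm]; exact h1)
  have hZ : dt (a (.inl 1)) (b (.inr (.inr (e, 0)))) = 0 := by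
    have : dt (a (.inl 1)) (κ • m) = κ * dt (a (.inl 1)) m := by
      simp only [dt, Pi.smul_apply, smul_eq_mul]
      ring
    rw [hκ, this, mZ, mul_zero]
  have h2 : sq (b (.inr (.inr (e, 0)))) (b (.inr (.inr (e, 1)))) ≠ 0 := linj _ _ (by simp)
  apply pinj (.inl 1) (.inr (.inr e)) (by simp)
  exact two_points h2 (by rw [dt_comm]; exact hZ) (by rw [dt_comm]; exact k3) (by rw [dt_comm]; exact k2)
    (by rw [dt_comm]; exact k4)

end sound

end Pool.Agent.II95
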